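import Pool.Agent.TH143.GT.Fam
import Pool.Agent.W602.GT.KDefs

/-!
Pluricanonical forms as powers of one form of maximal degree.
-/

set_option autoImplicit false

open FF Pool.Agent.W602.GT Pool.Agent.W603.LV MvPolynomial
open IntermediateField hiding val

namespace Pool.Agent.TH143.GT

variable {k K : Type} [Field k] [Field K] [Algebra k K]

/-- all pluricanonical forms are multiples of the powers of one form of maximal degree -/
theorem exists_det_form [CharZero k] {w : ℕ} (hdim : Algebra.trdeg k K = w) :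
    ∃ (θ : AlternatingMap K (Derivation k K K) K (Fin w)) (E : Fin w → Derivation k K K),
      θ ≠ 0 ∧ ∀ (N : ℕ) (ω : (Fin w → Derivation k K K) → K), IsPluri N ω →
        ∀ D, ω E * θ D ^ N = ω D := by
  classical
  obtain ⟨y0, hy0⟩ : ∃ y0 : Fin w → K, IsTranscendenceBasis k y0 := by
    obtain ⟨B, hB⟩ := exists_isTranscendenceBasis k K
    have hcard := hB.cardinalMk_eq_trdeg
    rw [hdim] at hcard
    have hfin : Finite B := by
      rw [← Cardinal.lt_aleph0_iff_finite, hcard]
      exact Cardinal.natCast_lt_aleph0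
    obtain ⟨m', ⟨e⟩⟩ := Finite.exists_equiv_fin B
    obtain rfl : m' = w := by
      rw [Cardinal.mk_congr e, Cardinal.mk_fin] at hcard
      exact_mod_cast hcard
    exact ⟨fun i => (e.symm i : K), hB.comp_equiv e.symm⟩
  choose E hE using fun i => exists_der y0 hy0 (fun j => if i = j then (1 : K) else 0)
  have hD : Dual y0 E := ⟨hy0, hE⟩
  let ℓ : Derivation k K K →ₗ[K] (Fin w → K) :=
    { toFun := fun D j => D (y0 j)
      map_add' := fun D D' => rfl
      map_smul' := fun c D => rfl }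
  let θ : AlternatingMap K (Derivation k K K) K (Fin w) :=
    (Matrix.detRowAlternating : AlternatingMap K (Fin w → K) K (Fin w)).compLinearMap ℓ
  have hθ : ∀ D : Fin w → Derivation k K K, θ D = (Matrix.of fun i j => D i (y0 j)).det :=
    fun D => rfl
  refine ⟨θ, E, ?_, ?_⟩
  · intro h0
    have h1 : θ E = 1 := by
      rw [hθ]
      have h2 : (Matrix.of fun i j => E i (y0 j)) = (1 : Matrix (Fin w) (Fin w) K) := by
        ext i j
        rw [Matrix.of_apply, hE, Matrix.one_apply]
      rw [h2, Matrix.det_one]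
    rw [h0] at h1
    exact zero_ne_one h1
  · intro N ω hω D
    have h1 := hω (Matrix.of fun i j => D i (y0 j)) E
    have h2 : (fun i => ∑ j, (Matrix.of fun i j => D i (y0 j)) i j • E j) = D := by
      funext i
      exact (hD.expand (D i)).symm
    rw [h2] at h1
    rw [h1, hθ, mul_comm]

variable {M : Type} [Field M] [Algebra k M] {n : ℕ} {y : Fin (n + 1) → K}
  {Q : MvPolynomial (Fin (n + 1)) k} {W : Fin (n + 1) → Polynomial M} {l : ℕ}

/-- the conclusion: the rational function `r` is constant along the rational curves -/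
def Flat (k : Type) [Field k] {K M : Type} [Field K] [Field M] [Algebra k K] [Algebra k M] {n : ℕ}
    (y : Fin (n + 1) → K) (W : Fin (n + 1) → Polynomial M) (r : K) : Prop :=
  ∀ (d : ℕ) (g1 g0 : MvPolynomial (Fin (n + 1)) k), g1.IsHomogeneous d → g0.IsHomogeneous d →
    W602.GT.val y g0 ≠ 0 → r = W602.GT.val y g1 / W602.GT.val y g0 →
    Polynomial.derivative (aeval W g1 : Polynomial M) * aeval W g0 =
      aeval W g1 * Polynomial.derivative (aeval W g0 : Polynomial M)

/-- the main theorem on families -/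
theorem Fam.main [CharZero k] {w m : ℕ} (hdim : Algebra.trdeg k K = w)
    (hm : Algebra.trdeg k M = m) (hy : y ≠ 0) (hgen : coords k y = ⊤) (hF : Fam y Q W l) {q : ℕ}
    (hQ : Q.IsHomogeneous q) :
    (∀ (p : ℕ) (θ : MultilinearMap K (fun _ : Fin p => Derivation k K K) K) (_ : θ ≠ 0) (N : ℕ)
        (_ : 0 < N) (J : Type) (f : J → K),
        (∀ v : Place k K, Divisorial w v → ∀ D : Fin p → Derivation k K K,
          (∀ i, DerLog v (D i)) → ∀ j, v.Reg (f j * θ D ^ N)) →
        (∀ v : Place k K, Divisorial w v → ¬ Pool.Agent.W603.GR.OffQ Q q y v →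
          ∀ D : Fin p → Derivation k K K, (∀ i, DerReg v (D i)) → ∀ j, v.Reg (f j * θ D ^ N)) →
        ∀ j0 j1 : J, Flat k y W (f j1 / f j0)) ∧
    (∀ (N : ℕ) (_ : 0 < N) (ω0 ω1 : (Fin w → Derivation k K K) → K),
      LogSec k K w N (Pool.Agent.W603.GR.OffQ Q q y) ω0 →
      LogSec k K w N (Pool.Agent.W603.GR.OffQ Q q y) ω1 → ∀ D, Flat k y W (ω1 D / ω0 D)) ∧
    (LogGeneralType k K w (Pool.Agent.W603.GR.OffQ Q q y) → ∀ r : K, Flat k y W r) ∧
    (l = 0 → (∃ r : K, ¬ Flat k y W r) → ∀ (N : ℕ) (_ : 0 < N)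
      (ω : (Fin w → Derivation k K K) → K),
      LogSec k K w N (Pool.Agent.W603.GR.OffQ Q q y) ω → ∀ D, ω D = 0) := by
  obtain ⟨φ, δ, h1, h2, h3⟩ := hF.const hdim hm hy hgen hQ
  have hflat : ∀ r : K, δ (φ r) = 0 → Flat k y W r := by
    intro r hr d g1 g0 i1 i0 hn hrg
    rw [hrg] at hr
    exact h1 d g1 g0 i1 i0 hn hr
  obtain ⟨θ, E, hθ, hθE⟩ := exists_det_form hdim
  have hθ' : (θ : MultilinearMap K (fun _ : Fin w => Derivation k K K) K) ≠ 0 := by
    intro h0
    apply hθ
    ext D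
    exact congrFun (congrArg DFunLike.coe h0) D
  have hratio : ∀ (N : ℕ) (ω0 ω1 : (Fin w → Derivation k K K) → K), 0 < N → IsPluri N ω0 →
      IsPluri N ω1 → ∀ D, ω0 D ≠ 0 → ω1 D / ω0 D = ω1 E / ω0 E := by
    intro N ω0 ω1 hN i0 i1 D hD
    rw [← hθE N ω0 i0 D, ← hθE N ω1 i1 D]
    have h4 : θ D ^ N ≠ 0 := by
      intro h5
      apply hD
      rw [← hθE N ω0 i0 D, h5, mul_zero]
    rw [mul_div_mul_right _ _ h4]
  have hzero : Flat k y W 0 := by
    intro d g1 g0 i1 i0 hn h0
    have h4 : W602.GT.val y g1 = 0 := by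
      rcases div_eq_zero_iff.1 h0.symm with h | h
      · exact h
      · exact absurd h hn
    have h5 := (hF.rel g1 ⟨d, i1⟩).1 h4
    rw [h5, Polynomial.derivative_zero, zero_mul, zero_mul]
  refine ⟨fun p θ hθ N hN J f hlog hreg j0 j1 => hflat _ (h2 p θ hθ N hN J f hlog hreg j0 j1),
    ?_, ?_, ?_⟩
  · intro N hN ω0 ω1 hω0 hω1 D
    by_cases hD : ω0 D = 0
    · rw [hD, div_zero]
      exact hzero
    rw [hratio N ω0 ω1 hN hω0.1 hω1.1 D hD]
    have h4 := h2 w θ hθ' N hN (Fin 2) ![ω0 E, ω1 E] (by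
      intro v hv D hD' j
      fin_cases j
      · change v.Reg (ω0 E * θ D ^ N)
        rw [hθE N ω0 hω0.1]
        exact hω0.2.1 v hv D hD'
      · change v.Reg (ω1 E * θ D ^ N)
        rw [hθE N ω1 hω1.1]
        exact hω1.2.1 v hv D hD') (by
      intro v hv hB D hD' j
      fin_cases j
      · change v.Reg (ω0 E * θ D ^ N)
        rw [hθE N ω0 hω0.1]
        exact hω0.2.2 v hv hB D hD'
      · change v.Reg (ω1 E * θ D ^ N)
        rw [hθE N ω1 hω1.1]
        exact hω1.2.2 v hv hB D hD') 0 1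
    exact hflat _ h4
  · rintro ⟨-, N, hN, ω, hpl, hlog, hreg, D, hD0, hind⟩ r
    apply hflat
    have h4 := h2 w θ hθ' N hN (Fin (w + 1)) (fun j => ω j E) (by
      intro v hv D hD' j
      change v.Reg (ω j E * θ D ^ N)
      rw [hθE N (ω j) (hpl j)]
      exact hlog v hv j D hD') (by
      intro v hv hB D hD' j
      change v.Reg (ω j E * θ D ^ N)
      rw [hθE N (ω j) (hpl j)]
      exact hreg v hv hB j D hD')
    have h5 : ∀ i : Fin w, δ (φ (ω i.succ D / ω 0 D)) = 0 := by
      intro i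
      rw [hratio N (ω 0) (ω i.succ) hN (hpl _) (hpl _) D hD0]
      exact h4 0 i.succ
    have hbasis : IsTranscendenceBasis k (fun i : Fin w => ω i.succ D / ω 0 D) := by
      refine hind.isTranscendenceBasis_of_lift_trdeg_le_of_finite ?_
      rw [hdim]
      simp
    let _ : Algebra K (RatFunc M) := φ.toRingHom.toAlgebra
    have t1 : IsScalarTower k K (RatFunc M) := IsScalarTower.of_algebraMap_eq fun c => by
      change _ = φ (algebraMap k K c)
      rw [φ.commutes]
    exact Pool.Agent.W619.TW.der_zero (δ.compAlgebraMap K) _ hbasis (fun i => h5 i) r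
  · rintro hl ⟨r, hr⟩ N hN ω hω D
    have h4 := h3 hl ⟨r, fun h => hr (hflat r h)⟩ θ hθ N hN (ω E) (by
      intro v hv D hD'
      rw [hθE N ω hω.1]
      exact hω.2.1 v hv D hD') (by
      intro v hv hB D hD'
      rw [hθE N ω hω.1]
      exact hω.2.2 v hv hB D hD')
    rw [← hθE N ω hω.1 D, h4, zero_mul]

end Pool.Agent.TH143.GT
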