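import Mathlib
import Pool.Agent.TH143.Fin

/-!
Quotients of entire functions which are meromorphic at infinity are rational.
-/

set_option autoImplicit false

namespace Pool.Agent.TH143.GT

open Metric Set Filter Topology Pool.Agent.W603.BP Pool.Agent.TH143

theorem not_ev_zero {b : ℂ → ℂ} (hb : Differentiable ℂ b) (hb0 : ∃ z, b z ≠ 0) (z : ℂ) :
    ¬ ∀ᶠ x in 𝓝 z, b x = 0 := by
  intro h
  obtain ⟨z1, hz1⟩ := hb0
  have h1 : AnalyticOnNhd ℂ b univ := fun z _ => hb.analyticAt z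
  exact hz1 (h1.eqOn_zero_of_preconnected_of_eventuallyEq_zero isPreconnected_univ
    (mem_univ z) h (mem_univ z1))

/-- division by a power of a linear polynomial -/
theorem factor_at {b : ℂ → ℂ} (hb : Differentiable ℂ b) (hb0 : ∃ z, b z ≠ 0) (z1 : ℂ) :
    ∃ (m : ℕ) (c : ℂ → ℂ), Differentiable ℂ c ∧ c z1 ≠ 0 ∧ ∀ z, b z = (z - z1) ^ m * c z := by
  classical
  obtain ⟨m, g, hg, hg0, hbg⟩ := (hb.analyticAt z1).exists_eventuallyEq_pow_smul_nonzero_iff.2
    (not_ev_zero hb hb0 z1)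
  let c : ℂ → ℂ := fun z => if z = z1 then g z1 else b z / (z - z1) ^ m
  have hc1 : c =ᶠ[𝓝 z1] g := by
    filter_upwards [hbg] with z hz
    by_cases h : z = z1
    · simp only [c, if_pos h]
      rw [h]
    · simp only [c, if_neg h]
      rw [hz, smul_eq_mul, mul_div_assoc, mul_comm, div_mul_cancel₀]
      exact pow_ne_zero _ (sub_ne_zero.2 h)
  have hbc : ∀ z, b z = (z - z1) ^ m * c z := by
    intro z
    by_cases h : z = z1
    · have h2 := hbg.self_of_nhds
      rw [smul_eq_mul] at h2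
      simp only [c, if_pos h]
      rw [h]
      exact h2
    · simp only [c, if_neg h]
      rw [mul_div_cancel₀]
      exact pow_ne_zero _ (sub_ne_zero.2 h)
  refine ⟨m, c, ?_, ?_, hbc⟩
  · intro z
    by_cases h : z = z1
    · rw [h]
      exact (hg.differentiableAt).congr_of_eventuallyEq hc1
    · have h2 : c =ᶠ[𝓝 z] fun z => b z / (z - z1) ^ m := by
        filter_upwards [isOpen_ne.mem_nhds h] with x hx
        exact if_neg hx
      refine DifferentiableAt.congr_of_eventuallyEq ?_ h2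
      exact (hb z).div (by fun_prop) (pow_ne_zero _ (sub_ne_zero.2 h))
  · rw [hc1.self_of_nhds]
    exact hg0

theorem zeros_finite {b : ℂ → ℂ} (hb : Differentiable ℂ b) (hb0 : ∃ z, b z ≠ 0) (R : ℝ) :
    {z : ℂ | b z = 0 ∧ ‖z‖ ≤ R}.Finite := by
  by_contra hinf
  have hinf' : {z : ℂ | b z = 0 ∧ ‖z‖ ≤ R}.Infinite := hinf
  obtain ⟨x, -, hx⟩ := hinf'.exists_accPt_of_subset_isCompact (isCompact_closedBall (0 : ℂ) R)
    (fun z hz => by rw [mem_closedBall, dist_zero_right]; exact hz.2)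
  have h1 : ∃ᶠ z in 𝓝[≠] x, b z = 0 := by
    rw [accPt_iff_frequently_nhdsNE] at hx
    exact hx.mono fun z hz => hz.1
  obtain ⟨z1, hz1⟩ := hb0
  have h2 : AnalyticOnNhd ℂ b univ := fun z _ => hb.analyticAt z
  exact hz1 (h2.eqOn_zero_of_preconnected_of_frequently_eq_zero isPreconnected_univ
    (mem_univ x) h1 (mem_univ z1))

/-- division by a polynomial -/
theorem factor_ball (R : ℝ) : ∀ (n : ℕ) (b : ℂ → ℂ), Differentiable ℂ b → (∃ z, b z ≠ 0) →
    {z : ℂ | b z = 0 ∧ ‖z‖ ≤ R}.ncard = n →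
    ∃ (P : Polynomial ℂ) (u : ℂ → ℂ), P ≠ 0 ∧ Differentiable ℂ u ∧ (∀ z, b z = P.eval z * u z) ∧
      ∀ z, ‖z‖ ≤ R → u z ≠ 0 := by
  intro n
  induction n with
  | zero =>
    intro b hb hb0 hn
    refine ⟨1, b, one_ne_zero, hb, fun z => by rw [Polynomial.eval_one, one_mul], ?_⟩
    rw [Set.ncard_eq_zero (zeros_finite hb hb0 R)] at hn
    intro z hz h
    have : z ∈ ({z : ℂ | b z = 0 ∧ ‖z‖ ≤ R} : Set ℂ) := ⟨h, hz⟩
    rw [hn] at this
    exact this
  | succ n ih =>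
    intro b hb hb0 hn
    have hne : ({z : ℂ | b z = 0 ∧ ‖z‖ ≤ R} : Set ℂ).Nonempty := by
      rw [← Set.ncard_pos (zeros_finite hb hb0 R), hn]
      exact Nat.succ_pos n
    obtain ⟨z1, hz1, hz1R⟩ := hne
    obtain ⟨m, c, hc, hcz, hbc⟩ := factor_at hb hb0 z1
    have hset : {z : ℂ | c z = 0 ∧ ‖z‖ ≤ R} = {z : ℂ | b z = 0 ∧ ‖z‖ ≤ R} \ {z1} := by
      ext z
      constructor
      · rintro ⟨h1, h2⟩
        refine ⟨⟨by rw [hbc, h1, mul_zero], h2⟩, ?_⟩
        rintro rfl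
        exact hcz h1
      · rintro ⟨⟨h1, h2⟩, h3⟩
        refine ⟨?_, h2⟩
        rw [hbc] at h1
        exact (mul_eq_zero.1 h1).resolve_left (pow_ne_zero _ (sub_ne_zero.2 h3))
    obtain ⟨P, u, hP, hu, hcu, hu0⟩ := ih c hc ⟨z1, hcz⟩ (by
      rw [hset, Set.ncard_sdiff_singleton_of_mem (by exact ⟨hz1, hz1R⟩), hn]
      rfl)
    refine ⟨(Polynomial.X - Polynomial.C z1) ^ m * P, u,
      mul_ne_zero (pow_ne_zero _ (Polynomial.X_sub_C_ne_zero z1)) hP, hu, fun z => ?_, hu0⟩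
    rw [hbc, hcu, Polynomial.eval_mul, Polynomial.eval_pow, Polynomial.eval_sub, Polynomial.eval_X,
      Polynomial.eval_C, mul_assoc]

theorem rational_of_mrel {a b : ℂ → ℂ} (ha : Differentiable ℂ a) (hb : Differentiable ℂ b)
    (hb0 : ∃ z, b z ≠ 0) (h : MRel (fun w => a w⁻¹) (fun w => b w⁻¹)) :
    ∃ P0 P1 : Polynomial ℂ, P0 ≠ 0 ∧ ∀ z, P0.eval z * a z = P1.eval z * b z := by
  classical
  obtain ⟨ρ, hρ, hab⟩ := h
  obtain ⟨C, K, hC, hρb⟩ := mero_bound hρ
  obtain ⟨δ, hδ, hall⟩ := ev_iff.mp ((hab.and hρb).and (Pun.mero hρ))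
  set R : ℝ := δ⁻¹ with hR
  have hRpos : 0 < R := inv_pos.2 hδ
  have hmem : ∀ z : ℂ, R < ‖z‖ → z ≠ 0 ∧ z⁻¹ ∈ PB δ := by
    intro z hz
    have hz0 : z ≠ 0 := by
      rintro rfl
      rw [norm_zero] at hz
      linarith
    refine ⟨hz0, inv_ne_zero hz0, ?_⟩
    rw [norm_inv]
    exact inv_lt_of_inv_lt₀ hδ hz
  have hab' : ∀ z : ℂ, R < ‖z‖ → a z = ρ z⁻¹ * b z := by
    intro z hz
    have := (hall z⁻¹ (hmem z hz).2).1.1
    simpa using this
  obtain ⟨P, u, hP, hu, hbu, hu0⟩ := factor_ball (R + 1) _ b hb hb0 rfl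
  let g : ℂ → ℂ := fun z => if ‖z‖ < R + 1 then a z / u z else P.eval z * ρ z⁻¹
  have hg1 : ∀ z, ‖z‖ < R + 1 → g z = a z / u z := fun z hz => if_pos hz
  have hg2 : ∀ z, R < ‖z‖ → g z = P.eval z * ρ z⁻¹ := by
    intro z hz
    by_cases h : ‖z‖ < R + 1
    · rw [hg1 z h, hab' z hz, hbu z]
      have := hu0 z h.le
      field_simp
    · exact if_neg h
  have hgd : Differentiable ℂ g := by
    intro z
    by_cases h : ‖z‖ < R + 1
    · have h1 : g =ᶠ[𝓝 z] fun z => a z / u z := by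
        filter_upwards [(isOpen_lt continuous_norm continuous_const).mem_nhds h] with x hx
        exact hg1 x hx
      refine DifferentiableAt.congr_of_eventuallyEq ?_ h1
      exact (ha z).div (hu z) (hu0 z h.le)
    · have hz : R < ‖z‖ := by linarith
      have h1 : g =ᶠ[𝓝 z] fun z => P.eval z * ρ z⁻¹ := by
        filter_upwards [(isOpen_lt continuous_const continuous_norm).mem_nhds hz] with x hx
        exact hg2 x hx
      refine DifferentiableAt.congr_of_eventuallyEq ?_ h1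
      have h2 : DifferentiableAt ℂ ρ z⁻¹ := ((hall z⁻¹ (hmem z hz).2).2).differentiableAt
      exact (Polynomial.differentiable P z).mul
        (h2.comp z (differentiableAt_inv (hmem z hz).1))
  -- growth
  have hPb : ∃ C1 : ℝ, 0 ≤ C1 ∧ ∀ z : ℂ, ‖P.eval z‖ ≤ C1 * (1 + ‖z‖) ^ P.natDegree := by
    refine ⟨∑ i ∈ Finset.range (P.natDegree + 1), ‖P.coeff i‖,
      Finset.sum_nonneg fun i _ => norm_nonneg _, fun z => ?_⟩
    rw [Polynomial.eval_eq_sum_range, Finset.sum_mul]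
    refine (norm_sum_le _ _).trans (Finset.sum_le_sum fun i hi => ?_)
    rw [norm_mul, norm_pow]
    refine mul_le_mul_of_nonneg_left ?_ (norm_nonneg _)
    have h1 : ‖z‖ ^ i ≤ (1 + ‖z‖) ^ i := by gcongr; linarith
    refine h1.trans (pow_le_pow_right₀ (by linarith [norm_nonneg z]) ?_)
    exact Nat.lt_succ_iff.1 (Finset.mem_range.1 hi)
  obtain ⟨C1, hC1, hPb⟩ := hPb
  obtain ⟨C2, hC2⟩ := (isCompact_closedBall (0 : ℂ) (R + 1)).exists_bound_of_continuousOn
    hgd.continuous.continuousOn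
  obtain ⟨p, hp⟩ := poly_of_growth g hgd (|C2| + C1 * C) (P.natDegree + K) (by
    intro z
    have h1 : 1 ≤ (1 + ‖z‖) ^ (P.natDegree + K) := one_le_pow₀ (by linarith [norm_nonneg z])
    by_cases h : ‖z‖ ≤ R + 1
    · calc ‖g z‖ ≤ |C2| := (hC2 z (by rw [mem_closedBall, dist_zero_right]; exact h)).trans
            (le_abs_self _)
        _ ≤ |C2| + C1 * C := by linarith [mul_nonneg hC1 hC]
        _ ≤ _ := le_mul_of_one_le_right (by positivity) h1
    · have hz : R < ‖z‖ := by linarith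
      have hzpos : 0 < ‖z‖ := by linarith
      have h2 := (hall z⁻¹ (hmem z hz).2).1.2
      rw [norm_inv] at h2
      have h3 : ‖ρ z⁻¹‖ ≤ C * ‖z‖ ^ K := by
        rw [inv_pow, ← div_eq_mul_inv, div_le_iff₀ (by positivity)] at h2
        exact h2
      rw [hg2 z hz, norm_mul]
      calc ‖P.eval z‖ * ‖ρ z⁻¹‖ ≤ (C1 * (1 + ‖z‖) ^ P.natDegree) * (C * ‖z‖ ^ K) :=
            mul_le_mul (hPb z) h3 (norm_nonneg _) (by positivity)
        _ ≤ (C1 * (1 + ‖z‖) ^ P.natDegree) * (C * (1 + ‖z‖) ^ K) := by gcongr; linarith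
        _ = (C1 * C) * (1 + ‖z‖) ^ (P.natDegree + K) := by rw [pow_add]; ring
        _ ≤ (|C2| + C1 * C) * (1 + ‖z‖) ^ (P.natDegree + K) := by
            gcongr
            linarith [abs_nonneg C2])
  refine ⟨P, p, hP, ?_⟩
  -- the identity
  have h1 : AnalyticOnNhd ℂ (fun z => P.eval z * a z - p.eval z * b z) univ := fun z _ =>
    (((Polynomial.differentiable P).mul ha).sub
      ((Polynomial.differentiable p).mul hb)).analyticAt z
  have h2 := h1.eqOn_zero_of_preconnected_of_eventuallyEq_zero isPreconnected_univ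
    (mem_univ (0 : ℂ)) (by
      have h3 : {z : ℂ | ‖z‖ < R + 1} ∈ 𝓝 (0 : ℂ) :=
        (isOpen_lt continuous_norm continuous_const).mem_nhds (by
          rw [Set.mem_ofPred_eq, norm_zero]; linarith)
      filter_upwards [h3] with z hz
      have h4 := hg1 z hz
      rw [hp z] at h4
      have h5 := hu0 z (le_of_lt hz)
      rw [hbu z, h4]
      simp only [Pi.zero_apply]
      field_simp
      ring)
  intro z
  exact sub_eq_zero.1 (h2 (mem_univ z))

end Pool.Agent.TH143.GT
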