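import Pool.Agent.TH143.GT.Ent
import Pool.Agent.W603.GR.Fin
import Pool.Agent.W602.GT.SpecDefs

/-!
Curves given by linear differential equations in quasi-projective varieties, and logarithmic forms.
-/

set_option autoImplicit false

namespace Pool.Agent.TH143.GT

open MvPolynomial Metric Set Filter Topology FF Pool.Agent.W602.GT Pool.Agent.TH143
  Pool.Agent.W603.BP Pool.Agent.W603.BPR Pool.Agent.W603.GR Pool.Agent.W603.PV

variable {N : ℕ} {p : Ideal (MvPolynomial (Fin (N + 1)) ℂ)} {Q : MvPolynomial (Fin (N + 1)) ℂ}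
  {q : ℕ} {f : ℂ → Fin (N + 1) → ℂ}

/-- The curve `f` is Zariski-dense in the variety with the ideal `p`: all forms that vanish on it
belong to `p`. -/
def ZDense (p : Ideal (MvPolynomial (Fin (N + 1)) ℂ)) (f : ℂ → Fin (N + 1) → ℂ) (S : Set ℂ) :
    Prop :=
  ∀ H : MvPolynomial (Fin (N + 1)) ℂ, IsForm H → (∀ z ∈ S, eval (f z) H = 0) → H ∈ p

/-- `K` is the function field and `y` the generic point of the quasi-projective variety with the
ideal `p` and the boundary `Q = 0`. -/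
structure FunField (p : Ideal (MvPolynomial (Fin (N + 1)) ℂ)) (Q : MvPolynomial (Fin (N + 1)) ℂ)
    (K : Type) [Field K] [Algebra ℂ K] (w : ℕ) (y : Fin (N + 1) → K) : Prop where
  sub : SubVarP p Q K w y
  mem : ∀ H : MvPolynomial (Fin (N + 1)) ℂ, IsForm H → W602.GT.val y H = 0 → H ∈ p

theorem FunField.genPt {K : Type} [Field K] [Algebra ℂ K] {w : ℕ} {y : Fin (N + 1) → K}
    (h : FunField p Q K w y) {S : Set ℂ} (hX : ∀ z ∈ S, ∀ H ∈ p, eval (f z) H = 0)
    (hd : ZDense p f S) : GenPt f S K w y := by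
  refine ⟨h.sub.ne, h.sub.gen, h.sub.dim, fun G hG => ?_⟩
  constructor
  · intro h0 z hz
    exact hX z hz G (h.mem G hG h0)
  · intro h0
    exact h.sub.mem G (hd G hG h0)

theorem extends_of_const (hf : ∀ j, AnalyticOnNhd ℂ (fun w => f w j) (PB 1))
    (hne : ∀ w ∈ PB 1, f w ≠ 0) {j0 : Fin (N + 1)}
    (h : ∀ j, ∃ c : ℂ, ∀ z ∈ PB 1, f z j = c * f z j0) : Extends f := by
  choose c hc using h
  refine extends_of f hf hne fun j k hj hk => ?_
  have hck : c k ≠ 0 := by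
    intro h0
    apply hk
    refine ev_iff.2 ⟨1, one_pos, fun z hz => ?_⟩
    change f z k = 0
    rw [hc k z hz, h0, zero_mul]
  refine ⟨fun _ => c j / c k, MeromorphicAt.const _ _, ev_iff.2 ⟨1, one_pos, fun z hz => ?_⟩⟩
  change f z j = c j / c k * f z k
  rw [hc j z hz, hc k z hz]
  field_simp

/-- the closure of a curve as a subvariety -/
theorem subVar_of_genPt (hp : IsHomog p) (hQ : Q.IsHomogeneous q) {K : Type} [Field K]
    [Algebra ℂ K] {w : ℕ} {y : Fin (N + 1) → K} {S : Set ℂ} (hy : GenPt f S K w y)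
    (hX : ∀ z ∈ S, ∀ H ∈ p, eval (f z) H = 0) (hS : ∃ z ∈ S, eval (f z) Q ≠ 0) :
    SubVarP p Q K w y := by
  refine ⟨hy.ne, fun H hH => ?_, ?_, hy.gen, hy.dim⟩
  · rw [← sum_homogeneousComponent H]
    unfold W602.GT.val
    rw [map_sum]
    refine Finset.sum_eq_zero fun d _ => ?_
    exact (hy.rel _ ⟨d, homogeneousComponent_isHomogeneous d H⟩).2 fun z hz => hX z hz _ (hp H hH d)
  · intro h0
    obtain ⟨z, hz, hzQ⟩ := hS
    exact hzQ ((hy.rel Q ⟨q, hQ⟩).1 h0 z hz)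

/-- **Strongly of log general type implies the Picard property** for curves given by linear
differential equations. -/
theorem strong_picard (hp : IsHomog p) (hQ : Q.IsHomogeneous q) {G : MvPolynomial (Fin (N + 1)) ℂ}
    (hG : IsForm G) (h : SubLogGT p Q q G) (hf : PCurve p Q f) (hlin : LinSys f)
    (hfG : ∃ z ∈ ball (0 : ℂ) 1 \ {0}, eval (f z) G ≠ 0) : Extends f := by
  by_contra hext
  have han := hf.an
  have hne : ∀ w ∈ PB 1, f w ≠ 0 := fun w hw => (hf.2 w (mem_disc.2 hw)).1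
  have hX : ∀ z ∈ PB 1, ∀ H ∈ p, eval (f z) H = 0 := fun z hz => (hf.2 z (mem_disc.2 hz)).2.1
  have hfQ : ∀ z ∈ PB 1, eval (f z) Q ≠ 0 := fun z hz => (hf.2 z (mem_disc.2 hz)).2.2
  obtain ⟨z0, hz0⟩ := PB_nonempty one_pos
  obtain ⟨j0, hj0⟩ := Function.ne_iff.1 (hne z0 hz0)
  obtain ⟨K, i1, i2, w, y, h1, h2, h3, h4, h5⟩ := exists_closure f (PB_preconn one_pos) han
    ⟨z0, hz0, hj0⟩
  have hy : GenPt f (PB 1) K w y := ⟨h1, h2, h3, h4⟩
  rcases Nat.eq_zero_or_pos w with hw | hw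
  · exact hext (extends_of_const han hne (h5 hw))
  · have hsub := subVar_of_genPt hp hQ hy hX ⟨z0, hz0, hfQ z0 hz0⟩
    have hGy : W602.GT.val y G ≠ 0 := by
      intro h0
      obtain ⟨z, hz, hzG⟩ := hfG
      exact hzG ((hy.rel G hG).1 h0 z (mem_disc.1 hz))
    obtain ⟨r, hr⟩ := fam_of_ess hy han hne hlin hQ hfQ hext
    exact hr (allFlat_gt hy hQ (h K w y hw hsub hGy) r)

theorem ent_data (hf : EntireCurve p Q f) : (∀ j, Differentiable ℂ (fun z => f z j)) ∧
    (∀ z, f z ≠ 0) ∧ (∀ z, eval (f z) Q ≠ 0) ∧ ∃ z w j k, f z j * f w k ≠ f z k * f w j := by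
  obtain ⟨h1, h2, s, t, h3⟩ := hf
  refine ⟨fun j => fun z => (differentiableAt_pi.1 (h1 z)) j, fun z => (h2 z).1,
    fun z => (h2 z).2.2, ?_⟩
  by_contra hall
  push Not at hall
  obtain ⟨l, hl⟩ := Function.ne_iff.mp (h2 t).1
  have hl' : f t l ≠ 0 := hl
  apply h3 (f s l / f t l)
  funext j
  rw [Pi.smul_apply, smul_eq_mul]
  have := hall s t j l
  field_simp
  linear_combination this

/-- **Strongly of log general type implies the Brody property** for curves given by linear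
differential equations. -/
theorem strong_brody (hp : IsHomog p) (hQ : Q.IsHomogeneous q) {G : MvPolynomial (Fin (N + 1)) ℂ}
    (hG : IsForm G) (h : SubLogGT p Q q G) (hf : EntireCurve p Q f)
    (hlin : LinSys (fun w => f w⁻¹)) (z : ℂ) : eval (f z) G = 0 := by
  by_contra hz
  obtain ⟨hd, hne, hfQ, hnc⟩ := ent_data hf
  have hfa : ∀ j, AnalyticOnNhd ℂ (fun w => f w j) univ := fun j z _ => (hd j).analyticAt z
  obtain ⟨j0, hj0⟩ := Function.ne_iff.1 (hne 0)
  obtain ⟨K, i1, i2, w, y, h1, h2, h3, h4, h5⟩ := exists_closure f isPreconnected_univ hfa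
    ⟨0, mem_univ _, hj0⟩
  have hy : GenPt f univ K w y := ⟨h1, h2, h3, h4⟩
  rcases Nat.eq_zero_or_pos w with hw | hw
  · choose c hc using h5 hw
    obtain ⟨s, t, j, k, hst⟩ := hnc
    apply hst
    rw [hc j s (mem_univ _), hc k t (mem_univ _), hc k s (mem_univ _), hc j t (mem_univ _)]
    ring
  · have hsub := subVar_of_genPt hp hQ hy (fun z _ => (hf.2.1 z).2.1) ⟨0, mem_univ _, hfQ 0⟩
    have hGy : W602.GT.val y G ≠ 0 := by
      intro h0
      exact hz ((hy.rel G hG).1 h0 z (mem_univ z))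
    obtain ⟨r, hr⟩ := fam_of_entire hy hd hne hlin hQ hfQ hnc
    exact hr (allFlat_gt (hy.inv hd) hQ (h K w y hw hsub hGy) r)

/-- forms of degree at least two along entire curves -/
theorem no_bog (hQ : Q.IsHomogeneous q) {K : Type} [Field K] [Algebra ℂ K] {w : ℕ}
    {y : Fin (N + 1) → K} (hy : GenPt f univ K w y) (hd : ∀ j, Differentiable ℂ (fun z => f z j))
    (hfQ : ∀ z, eval (f z) Q ≠ 0) (hlin : LinSys (fun w => f w⁻¹)) {n : ℕ} (hn : 2 ≤ n) :
    ¬ BogSheaf ℂ K w (OffQ Q q y) n := by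
  rintro ⟨θ, hθ, m, hm, g, hlog, hreg, hg0, hind⟩
  have h1 : ∀ j, AllFlat Q y (g j / g 0) := fun j =>
    allFlat_bog (hy.inv hd) hQ θ hθ hm g hlog hreg 0 j
  have h2 : AlgebraicIndependent ℂ (fun i : Fin 2 => g (Fin.castLE hn i).succ / g 0) :=
    hind.comp (Fin.castLE hn) (Fin.castLE_injective hn)
  exact two_flat hy hd hlin hQ hfQ _ (fun i => h1 _) h2

theorem no_kod (hQ : Q.IsHomogeneous q) {K : Type} [Field K] [Algebra ℂ K] {w : ℕ}
    {y : Fin (N + 1) → K} (hy : GenPt f univ K w y) (hd : ∀ j, Differentiable ℂ (fun z => f z j))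
    (hfQ : ∀ z, eval (f z) Q ≠ 0) (hlin : LinSys (fun w => f w⁻¹)) {n : ℕ} (hn : 2 ≤ n) :
    ¬ KodGe ℂ K w (OffQ Q q y) n := by
  rintro ⟨m, hm, ω, hω, D, hD, hind⟩
  have h1 : ∀ j, AllFlat Q y (ω j D / ω 0 D) := fun j =>
    allFlat_sec (hy.inv hd) hQ hm (hω 0) (hω j) D
  have h2 : AlgebraicIndependent ℂ (fun i : Fin 2 => ω (Fin.castLE hn i).succ D / ω 0 D) :=
    hind.comp (Fin.castLE hn) (Fin.castLE_injective hn)
  exact two_flat hy hd hlin hQ hfQ _ (fun i => h1 _) h2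

end Pool.Agent.TH143.GT
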