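import Pool.Agent.TH143.GT.GenB

/-!
Holomorphic curves given by linear differential equations in projective varieties with a
pluricanonical form.
-/

set_option autoImplicit false

namespace Pool.Agent.TH143.GT

open MvPolynomial Metric Set Filter Topology Pool.Agent.TH143
open FF Pool.Agent.W602.GT Pool.Agent.W603.BP Pool.Agent.W603.GR Pool.Agent.W603.BPR

/-- The variety with the function field `K` is covered by rational curves: `K` embeds in the field
of rational functions `M(t)` over a field `M`, and the image is not contained in `M`. -/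
def Covered (K : Type) [Field K] [Algebra ℂ K] : Prop :=
  ∃ (M : Type) (_ : Field M) (_ : Algebra ℂ M) (φ : K →ₐ[ℂ] RatFunc M),
    ∃ r : K, ∀ c : M, φ r ≠ algebraMap M (RatFunc M) c

/-- `ω` is a section of the `N`-th power of the canonical bundle on the smooth projective models of
`K`: a rational `N`-canonical form which is regular at all prime divisors. -/
def Pluricanonical {K : Type} [Field K] [Algebra ℂ K] (w N : ℕ)
    (ω : (Fin w → Derivation ℂ K K) → K) : Prop :=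
  IsPluri N ω ∧ ∀ P : Place ℂ K, Divisorial w P → RegAt P ω

variable {K : Type} [Field K] [Algebra ℂ K]

theorem log_reg {P : Place ℂ K} {D : Derivation ℂ K K} (h : DerLog P D) : DerReg P D := by
  intro f hf
  by_cases h0 : f = 0
  · rw [h0, map_zero]
    exact P.reg_zero
  have h1 := P.reg_mul (h f) hf
  rwa [div_mul_cancel₀ _ h0] at h1

theorem Pluricanonical.logSec {w N : ℕ} {ω : (Fin w → Derivation ℂ K K) → K}
    (h : Pluricanonical w N ω) (Bd : Place ℂ K → Prop) : LogSec ℂ K w N Bd ω :=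
  ⟨h.1, fun P hP D hD => h.2 P hP D fun i => log_reg (hD i), fun P hP _ => h.2 P hP⟩

variable {n : ℕ} {w : ℕ} {y : Fin (n + 1) → K}

/-- families of rational curves cover the variety -/
theorem covered_of_fam {S : Set ℂ} {f : ℂ → Fin (n + 1) → ℂ} (hy : GenPt f S K w y)
    {M : Type} [Field M] [Algebra ℂ M] {W : Fin (n + 1) → Polynomial M} {l : ℕ}
    {Q : MvPolynomial (Fin (n + 1)) ℂ} (hF : Fam y Q W l) {d : ℕ}
    {g1 g0 : MvPolynomial (Fin (n + 1)) ℂ} (h1 : g1.IsHomogeneous d) (h0 : g0.IsHomogeneous d)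
    (hn : W602.GT.val y g0 ≠ 0)
    (hne : Polynomial.derivative (aeval W g1 : Polynomial M) * aeval W g0 ≠
      aeval W g1 * Polynomial.derivative (aeval W g0 : Polynomial M)) : Covered K := by
  obtain ⟨φ, hφ⟩ := hF.emb hy.ne hy.gen
  refine ⟨M, inferInstance, inferInstance, φ, W602.GT.val y g1 / W602.GT.val y g0, fun c hc => ?_⟩
  rw [hφ d g1 g0 h1 h0 hn] at hc
  have hb : (aeval W g0 : Polynomial M) ≠ 0 := by
    rw [Ne, ← hF.rel g0 ⟨d, h0⟩]
    exact hn
  have hb' : rf (aeval W g0 : Polynomial M) ≠ 0 := by rwa [Ne, rf_zero]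
  apply hne
  rw [div_eq_iff hb'] at hc
  have h2 : (aeval W g1 : Polynomial M) = Polynomial.C c * aeval W g0 := by
    apply rf_inj
    rw [hc, rf_mul]
    congr 1
  rw [h2, Polynomial.derivative_C_mul]
  ring

/-- **Curves over a differential ring.** -/
theorem gen_main {p : Ideal (MvPolynomial (Fin (n + 1)) ℂ)} (hy : FunField p 1 K w y)
    {Ω : Set ℂ} {B : Subalgebra ℂ (ℂ → ℂ)} (hΩ : IsOpen Ω) (hΩc : IsPreconnected Ω)
    (hB : DiffRing Ω B) {f : ℂ → Fin (n + 1) → ℂ}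
    (hf : ∀ j, AnalyticOnNhd ℂ (fun w => f w j) Ω) (hX : ∀ z ∈ Ω, ∀ H ∈ p, eval (f z) H = 0)
    (hlin : ∀ j, LinOver Ω B (fun w => f w j)) (hd : ZDense p f Ω) {j k : Fin (n + 1)}
    (hk : ∃ z ∈ Ω, f z k ≠ 0) (hna : ¬ AlgOver Ω B (fun w => f w j) (fun w => f w k)) :
    Covered K ∧ ∀ N, 0 < N → ∀ ω : (Fin w → Derivation ℂ K K) → K, Pluricanonical w N ω → ω = 0 := by
  have hgp : GenPt f Ω K w y := hy.genPt hX hd
  obtain ⟨M, i1, i2, m, hm, W, h1, ⟨c, l, hc, hcQ⟩, h3⟩ := fam_gen hΩ hΩc hB f hf hlin (X k) (X j)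
    (isHomogeneous_X _ _) (isHomogeneous_X _ _) (by simpa only [eval_X] using hk)
    (by simpa only [eval_X] using hna)
  have hyk : W602.GT.val y (X k : MvPolynomial (Fin (n + 1)) ℂ) ≠ 0 := by
    intro h0
    obtain ⟨z, hz, hzk⟩ := hk
    apply hzk
    have := (hgp.rel (X k) ⟨1, isHomogeneous_X _ _⟩).1 h0 z hz
    rwa [eval_X] at this
  have hF : Fam y 1 W l := ⟨fun G hG => (hgp.rel G hG).trans (h1 G hG), c, hc, hcQ⟩
  refine ⟨covered_of_fam hgp hF (isHomogeneous_X _ _) (isHomogeneous_X _ _) hyk h3, ?_⟩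
  intro N hN ω hω
  have hl : l = 0 := by
    have h1 := hF.bd
    obtain ⟨c, hc, h1⟩ := h1
    rw [map_one] at h1
    have h2 := congrArg Polynomial.natDegree h1
    rw [Polynomial.natDegree_one, Polynomial.natDegree_C_mul_X_pow l c hc] at h2
    exact h2.symm
  funext D
  refine (hF.main hgp.dim hm hgp.ne hgp.gen (isHomogeneous_one _ _)).2.2.2 hl
    ⟨W602.GT.val y (X j) / W602.GT.val y (X k), fun h => h3 (h 1 (X j) (X k) (isHomogeneous_X _ _)
      (isHomogeneous_X _ _) hyk rfl)⟩ N hN ω (hω.logSec _) D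

theorem rpow_absorb {a b c : ℝ} (ha : 0 ≤ a) (hab : a < b) (hc : 0 < c) :
    ∃ k : ℝ, ∀ x : ℝ, 1 ≤ x → c * x ^ a ≤ x ^ b + k := by
  set x0 : ℝ := max 1 (c ^ (1 / (b - a))) with hx0
  have hba : 0 < b - a := by linarith
  have hx01 : 1 ≤ x0 := le_max_left _ _
  refine ⟨c * x0 ^ a, fun x hx => ?_⟩
  have hxpos : 0 < x := by linarith
  rcases le_total x x0 with h | h
  · have h1 : x ^ a ≤ x0 ^ a := Real.rpow_le_rpow hxpos.le h ha
    have h2 : 0 ≤ x ^ b := Real.rpow_nonneg hxpos.le _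
    nlinarith [mul_le_mul_of_nonneg_left h1 hc.le]
  · have h1 : c ^ (1 / (b - a)) ≤ x := (le_max_right _ _).trans h
    have h2 : c ≤ x ^ (b - a) := by
      have h3 := Real.rpow_le_rpow (Real.rpow_nonneg hc.le _) h1 hba.le
      rwa [← Real.rpow_mul hc.le, one_div, inv_mul_cancel₀ hba.ne', Real.rpow_one] at h3
    have h3 : x ^ b = x ^ (b - a) * x ^ a := by
      rw [← Real.rpow_add hxpos]
      congr 1
      ring
    have h4 : 0 ≤ x ^ a := Real.rpow_nonneg hxpos.le _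
    have h5 : 0 ≤ c * x0 ^ a := mul_nonneg hc.le (Real.rpow_nonneg (by linarith) _)
    rw [h3]
    nlinarith [mul_le_mul_of_nonneg_right h2 h4]

/-- The ring of entire functions of order at most `lam`. -/
noncomputable def Slow (lam : ℝ) (hlam : 0 ≤ lam) : Subalgebra ℂ (ℂ → ℂ) where
  carrier := {g | Differentiable ℂ g ∧
    ∀ μ : ℝ, lam < μ → ∃ C : ℝ, ∀ z, ‖g z‖ ≤ C * Real.exp ((1 + ‖z‖) ^ μ)}
  mul_mem' := by
    rintro f g ⟨hf, hf'⟩ ⟨hg, hg'⟩
    refine ⟨hf.mul hg, fun μ hμ => ?_⟩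
    obtain ⟨C1, h1⟩ := hf' ((lam + μ) / 2) (by linarith)
    obtain ⟨C2, h2⟩ := hg' ((lam + μ) / 2) (by linarith)
    obtain ⟨k, hk⟩ := rpow_absorb (a := (lam + μ) / 2) (b := μ) (c := 2) (by linarith)
      (by linarith) (by norm_num)
    refine ⟨|C1| * |C2| * Real.exp k, fun z => ?_⟩
    have hx : 1 ≤ 1 + ‖z‖ := by linarith [norm_nonneg z]
    have h3 := hk (1 + ‖z‖) hx
    have e1 : ‖f z‖ ≤ |C1| * Real.exp ((1 + ‖z‖) ^ ((lam + μ) / 2)) :=
      (h1 z).trans (mul_le_mul_of_nonneg_right (le_abs_self _) (Real.exp_pos _).le)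
    have e2 : ‖g z‖ ≤ |C2| * Real.exp ((1 + ‖z‖) ^ ((lam + μ) / 2)) :=
      (h2 z).trans (mul_le_mul_of_nonneg_right (le_abs_self _) (Real.exp_pos _).le)
    calc ‖(f * g) z‖ = ‖f z‖ * ‖g z‖ := norm_mul _ _
      _ ≤ (|C1| * Real.exp ((1 + ‖z‖) ^ ((lam + μ) / 2))) *
          (|C2| * Real.exp ((1 + ‖z‖) ^ ((lam + μ) / 2))) :=
            mul_le_mul e1 e2 (norm_nonneg _) (by positivity)
      _ = |C1| * |C2| * Real.exp (2 * (1 + ‖z‖) ^ ((lam + μ) / 2)) := by
            rw [two_mul, Real.exp_add]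
            ring
      _ ≤ |C1| * |C2| * Real.exp ((1 + ‖z‖) ^ μ + k) := by gcongr
      _ = |C1| * |C2| * Real.exp k * Real.exp ((1 + ‖z‖) ^ μ) := by
            rw [Real.exp_add]
            ring
  add_mem' := by
    rintro f g ⟨hf, hf'⟩ ⟨hg, hg'⟩
    refine ⟨hf.add hg, fun μ hμ => ?_⟩
    obtain ⟨C1, h1⟩ := hf' μ hμ
    obtain ⟨C2, h2⟩ := hg' μ hμ
    refine ⟨C1 + C2, fun z => ?_⟩
    rw [add_mul]
    exact (norm_add_le _ _).trans (add_le_add (h1 z) (h2 z))
  algebraMap_mem' := by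
    intro c
    refine ⟨differentiable_const c, fun μ _ => ⟨‖c‖, fun z => ?_⟩⟩
    have h1 : 1 ≤ Real.exp ((1 + ‖z‖) ^ μ) := Real.one_le_exp (by positivity)
    exact le_mul_of_one_le_right (norm_nonneg c) h1

theorem slow_diffRing (lam : ℝ) (hlam : 0 ≤ lam) : DiffRing univ (Slow lam hlam) := by
  refine ⟨fun b hb z _ => hb.1.analyticAt z, fun b hb => ⟨deriv b, ⟨?_, fun μ hμ => ?_⟩,
    fun z _ => (hb.1 z).hasDerivAt⟩⟩
  · intro z
    exact ((hb.1.analyticAt z).deriv).differentiableAt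
  · obtain ⟨C1, h1⟩ := hb.2 ((lam + μ) / 2) (by linarith)
    obtain ⟨k, hk⟩ := rpow_absorb (a := (lam + μ) / 2) (b := μ) (c := 2 ^ ((lam + μ) / 2))
      (by linarith) (by linarith) (by positivity)
    refine ⟨|C1| * Real.exp k, fun z => ?_⟩
    have hx : 1 ≤ 1 + ‖z‖ := by linarith [norm_nonneg z]
    have h3 := hk (1 + ‖z‖) hx
    have h4 := Complex.norm_deriv_le_of_forall_mem_sphere_norm_le (c := z) (f := b)
      (C := |C1| * Real.exp (2 ^ ((lam + μ) / 2) * (1 + ‖z‖) ^ ((lam + μ) / 2))) one_pos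
      hb.1.diffContOnCl (fun w hw => by
        refine (h1 w).trans ?_
        have h5 : 1 + ‖w‖ ≤ 2 * (1 + ‖z‖) := by
          have h6 : ‖w‖ ≤ ‖z‖ + 1 := by
            have h7 : ‖w - z‖ = 1 := by simpa [dist_eq_norm] using hw
            calc ‖w‖ = ‖z + (w - z)‖ := by congr 1; ring
              _ ≤ ‖z‖ + ‖w - z‖ := norm_add_le _ _
              _ = ‖z‖ + 1 := by rw [h7]
          linarith [norm_nonneg z]
        have h8 : (1 + ‖w‖) ^ ((lam + μ) / 2) ≤
            2 ^ ((lam + μ) / 2) * (1 + ‖z‖) ^ ((lam + μ) / 2) := by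
          rw [← Real.mul_rpow (by norm_num) (by linarith)]
          exact Real.rpow_le_rpow (by positivity) h5 (by linarith)
        calc C1 * Real.exp ((1 + ‖w‖) ^ ((lam + μ) / 2))
            ≤ |C1| * Real.exp ((1 + ‖w‖) ^ ((lam + μ) / 2)) :=
              mul_le_mul_of_nonneg_right (le_abs_self _) (Real.exp_pos _).le
          _ ≤ _ := by gcongr)
    rw [div_one] at h4
    refine h4.trans ?_
    calc |C1| * Real.exp (2 ^ ((lam + μ) / 2) * (1 + ‖z‖) ^ ((lam + μ) / 2))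
        ≤ |C1| * Real.exp ((1 + ‖z‖) ^ μ + k) := by gcongr
      _ = |C1| * Real.exp k * Real.exp ((1 + ‖z‖) ^ μ) := by
            rw [Real.exp_add]
            ring

end Pool.Agent.TH143.GT
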