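import Mathlib
import Pool.Agent.TH143.ExpMat

/-!
Directions in the closure of a one-parameter group.
-/

set_option autoImplicit false

namespace Pool.Agent.TH143.GT

open MvPolynomial Metric Set Filter Topology Pool.Agent.TH143
open Pool.Agent.H159R3.Exp (vec core' exists_b)

theorem prod_zpow {ι : Type} {x : ℂ} (hx : x ≠ 0) (s : Finset ι) (c : ι → ℤ) :
    ∏ i ∈ s, x ^ c i = x ^ ∑ i ∈ s, c i := by
  classical
  induction s using Finset.induction_on with
  | empty => simp
  | insert i s hi ih => rw [Finset.prod_insert hi, Finset.sum_insert hi, zpow_add₀ hx, ih]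

/-- A one-parameter curve in the Zariski closure of the curve `vec g`, given by Laurent
polynomials, on which a given linear function is not stationary at the point `1`. -/
theorem exists_dir {m : ℕ} (g : Fin m → ℂ → ℂ) (hg : ∀ i, Differentiable ℂ (g i))
    (c : Fin (m + 1) → ℂ)
    (hc : ∑ l, c l * (Fin.cons 1 (fun i => Complex.exp (g i 0) * deriv (g i) 0) :
      Fin (m + 1) → ℂ) l ≠ 0) :
    ∃ (ξ : ℂ → Fin (m + 1) → ℂ) (ξ' : Fin (m + 1) → ℂ) (a : ℕ) (p : Fin (m + 1) → Polynomial ℂ),
      (∀ x, x ≠ 0 → ∀ l, x ^ a * ξ x l = (p l).eval x) ∧ ξ 1 = vec g 0 ∧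
      (∀ R : MvPolynomial (Fin (m + 1)) ℂ, (∀ t, eval (vec g t) R = 0) →
        ∀ x, x ≠ 0 → eval (ξ x) R = 0) ∧
      (∀ l, HasDerivAt (fun x => ξ x l) (ξ' l) 1) ∧ ∑ l, c l * ξ' l ≠ 0 := by
  classical
  rw [Fin.sum_univ_succ] at hc
  simp only [Fin.cons_zero, Fin.cons_succ, mul_one] at hc
  by_cases h0 : c 0 = 0
  · rw [h0, zero_add] at hc
    obtain ⟨b, hb, hb'⟩ := exists_b (fun i => deriv (g i) 0)
      (fun i => c i.succ * Complex.exp (g i 0)) (by
        intro h
        exact hc ((Finset.sum_congr rfl fun i _ => by ring).trans h))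
    -- common exponent
    obtain ⟨a, ha⟩ : ∃ a : ℕ, ∀ i, 0 ≤ (a : ℤ) + b i := by
      refine ⟨∑ i, (b i).natAbs, fun i => ?_⟩
      have h1 : (b i).natAbs ≤ ∑ i, (b i).natAbs :=
        Finset.single_le_sum (f := fun i => (b i).natAbs) (fun _ _ => Nat.zero_le _)
          (Finset.mem_univ i)
      omega
    refine ⟨fun x => Fin.cons 0 fun i => Complex.exp (g i 0) * x ^ b i,
      Fin.cons 0 fun i => Complex.exp (g i 0) * b i, a,
      Fin.cons 0 fun i => Polynomial.C (Complex.exp (g i 0)) * Polynomial.X ^ ((a : ℤ) + b i).toNat,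
      ?_, ?_, ?_, ?_, ?_⟩
    · intro x hx l
      refine Fin.cases ?_ (fun i => ?_) l
      · simp
      · simp only [Fin.cons_succ, Polynomial.eval_mul, Polynomial.eval_C, Polynomial.eval_pow,
          Polynomial.eval_X]
        have h1 : x ^ ((a : ℤ) + b i).toNat = x ^ a * x ^ b i := by
          rw [← zpow_natCast, Int.toNat_of_nonneg (ha i), zpow_add₀ hx, zpow_natCast]
        rw [h1]
        ring
    · funext l
      refine Fin.cases ?_ (fun i => ?_) l
      · simp [vec]
      · simp [vec]
    · intro R hR x hx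
      refine core' g hg 0 (fun i => x ^ b i) (fun i => zpow_ne_zero _ hx) (fun q hq => ?_) 0 R hR
      have h1 := hb q hq
      have h2 : ∏ i, (x ^ b i) ^ q i = x ^ ∑ i, q i * b i := by
        rw [← prod_zpow hx]
        refine Finset.prod_congr rfl fun i _ => ?_
        rw [← zpow_mul, mul_comm]
      rw [h2, h1, zpow_zero]
    · intro l
      refine Fin.cases ?_ (fun i => ?_) l
      · simpa using hasDerivAt_const (1 : ℂ) (0 : ℂ)
      · simp only [Fin.cons_succ]
        have h1 := (hasDerivAt_zpow (b i) (1 : ℂ) (Or.inl one_ne_zero)).const_mul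
          (Complex.exp (g i 0))
        simpa using h1
    · rw [Fin.sum_univ_succ]
      simp only [Fin.cons_zero, Fin.cons_succ, mul_zero, zero_add]
      intro h
      exact hb' ((Finset.sum_congr rfl fun i _ => by ring).trans h)
  · refine ⟨fun x => Fin.cons (x - 1) fun i => Complex.exp (g i 0),
      Fin.cons 1 fun i => 0, 0,
      Fin.cons (Polynomial.X - Polynomial.C 1) fun i => Polynomial.C (Complex.exp (g i 0)),
      ?_, ?_, ?_, ?_, ?_⟩
    · intro x _ l
      refine Fin.cases ?_ (fun i => ?_) l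
      · simp
      · simp
    · funext l
      refine Fin.cases ?_ (fun i => ?_) l
      · simp [vec]
      · simp [vec]
    · intro R hR x hx
      have h1 := core' g hg 0 (fun _ => 1) (fun _ => one_ne_zero) (fun q _ => by simp) (x - 1) R hR
      simpa using h1
    · intro l
      refine Fin.cases ?_ (fun i => ?_) l
      · simpa using (hasDerivAt_id (1 : ℂ)).sub_const 1
      · simpa using hasDerivAt_const (1 : ℂ) (Complex.exp (g i 0))
    · rw [Fin.sum_univ_succ]
      simpa using h0

end Pool.Agent.TH143.GT
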