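import Mathlib
import Pool.Agent.TH143.Local
import Pool.Agent.TH143.GT.Dir
import Pool.Agent.H159R3.Exp.Rational

/-!
The family of rational curves through the points of a curve given by solutions of linear
differential equations: the generic version.
-/

set_option autoImplicit false

namespace Pool.Agent.TH143.GT

open MvPolynomial Metric Set Filter Topology Pool.Agent.TH143

variable {S : Set ℂ}

/-- evaluation at a point of `S` and at a point of the line -/
noncomputable def evp (z : S) (x : ℂ) : Polynomial (Hol S) →ₐ[ℂ] ℂ :=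
  (Polynomial.aeval x).comp (Polynomial.mapAlgHom (evz z))

theorem evp_eq (z : S) (x : ℂ) (p : Polynomial (Hol S)) :
    evp z x p = (p.map (evz z : Hol S →+* ℂ)).eval x := by
  unfold evp
  rw [AlgHom.comp_apply, Polynomial.aeval_def, Polynomial.coe_mapAlgHom]
  rfl

theorem evp_C (z : S) (x : ℂ) (c : Hol S) : evp z x (Polynomial.C c) = evz z c := by
  rw [evp_eq, Polynomial.map_C, Polynomial.eval_C]
  rfl

theorem evp_X (z : S) (x : ℂ) : evp z x Polynomial.X = x := by
  rw [evp_eq, Polynomial.map_X, Polynomial.eval_X]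

theorem evp_ext {p q : Polynomial (Hol S)} (h : ∀ (z : S) (x : ℂ), x ≠ 0 → evp z x p = evp z x q) :
    p = q := by
  ext1 n
  apply hol_ext
  intro z
  have h1 : p.map (evz z : Hol S →+* ℂ) = q.map (evz z : Hol S →+* ℂ) := by
    apply Polynomial.eq_of_infinite_eval_eq
    refine Set.Infinite.mono (s := {x : ℂ | x ≠ 0}) ?_ ?_
    · intro x hx
      have := h z x hx
      rw [evp_eq, evp_eq] at this
      exact this
    · exact (Set.finite_singleton (0 : ℂ)).infinite_compl
  have h2 := congrArg (fun r => Polynomial.coeff r n) h1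
  simp only [Polynomial.coeff_map] at h2
  exact h2

theorem evp_deriv (z : S) (x : ℂ) (p : Polynomial (Hol S)) :
    HasDerivAt (fun x => evp z x p) (evp z x (Polynomial.derivative p)) x := by
  simp only [evp_eq]
  rw [← Polynomial.derivative_map]
  exact Polynomial.hasDerivAt _ x

theorem evp_aeval {σ : Type} (z : S) (x : ℂ) (W : σ → Polynomial (Hol S))
    (R : MvPolynomial σ ℂ) : evp z x (aeval W R) = eval (fun j => evp z x (W j)) R := by
  have h4 := MvPolynomial.comp_aeval_apply (f := W) (evp z x) R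
  rw [h4, ← MvPolynomial.aeval_eq_eval]

theorem evp_one (z : S) (p : Polynomial (Hol S)) : evp z 1 p = evz z (p.eval 1) := by
  rw [evp_eq, Polynomial.eval_map, Polynomial.eval₂_at_one]
  rfl

/-- Laurent polynomials over the ring of holomorphic functions -/
def PL (F : S → ℂ → ℂ) : Prop :=
  ∃ (a : ℕ) (p : Polynomial (Hol S)), ∀ (z : S) (x : ℂ), x ≠ 0 → x ^ a * F z x = evp z x p

theorem PL.hol (c : Hol S) : PL fun z _ => evz z c :=
  ⟨0, Polynomial.C c, fun z x _ => by rw [evp_C, pow_zero, one_mul]⟩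

theorem PL.laur {f : ℂ → ℂ} {a : ℕ} {p : Polynomial ℂ} (h : ∀ x, x ≠ 0 → x ^ a * f x = p.eval x) :
    PL fun (_ : S) x => f x :=
  ⟨a, p.map (algebraMap ℂ (Hol S)), fun z x hx => by
    rw [evp_eq, Polynomial.map_map, h x hx]
    congr 1
    conv_lhs => rw [← Polynomial.map_id (p := p)]
    congr 1⟩

theorem PL.add {F G : S → ℂ → ℂ} (hF : PL F) (hG : PL G) : PL fun z x => F z x + G z x := by
  obtain ⟨a, p, hp⟩ := hF
  obtain ⟨b, q, hq⟩ := hG
  refine ⟨a + b, Polynomial.X ^ b * p + Polynomial.X ^ a * q, fun z x hx => ?_⟩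
  rw [map_add, map_mul, map_mul, map_pow, map_pow, evp_X, ← hp z x hx, ← hq z x hx]
  ring

theorem PL.mul {F G : S → ℂ → ℂ} (hF : PL F) (hG : PL G) : PL fun z x => F z x * G z x := by
  obtain ⟨a, p, hp⟩ := hF
  obtain ⟨b, q, hq⟩ := hG
  refine ⟨a + b, p * q, fun z x hx => ?_⟩
  rw [map_mul, ← hp z x hx, ← hq z x hx]
  ring

theorem PL.sum {ι : Type} (s : Finset ι) {F : ι → S → ℂ → ℂ} (hF : ∀ i ∈ s, PL (F i)) :
    PL fun z x => ∑ i ∈ s, F i z x := by
  classical
  induction s using Finset.induction_on with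
  | empty => simpa using PL.hol (S := S) 0
  | insert i s hi ih =>
    simp only [Finset.sum_insert hi]
    exact (hF i (Finset.mem_insert_self i s)).add
      (ih fun j hj => hF j (Finset.mem_insert_of_mem hj))

theorem PL.eval {κ : Type} {h : S → ℂ → κ → ℂ} (hh : ∀ l, PL fun z x => h z x l)
    (P : MvPolynomial κ ℂ) : PL fun z x => MvPolynomial.eval (h z x) P := by
  induction P using MvPolynomial.induction_on with
  | C a => simpa using PL.hol (S := S) (algebraMap ℂ (Hol S) a)
  | add p q hp hq =>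
    simp only [map_add]
    exact hp.add hq
  | mul_X p j hp =>
    simp only [map_mul, eval_X]
    exact hp.mul (hh j)

theorem PL.common {J : Type} [Fintype J] {F : J → S → ℂ → ℂ} (hF : ∀ j, PL (F j)) :
    ∃ (a : ℕ) (p : J → Polynomial (Hol S)), ∀ (z : S) (x : ℂ), x ≠ 0 →
      ∀ j, x ^ a * F j z x = evp z x (p j) := by
  classical
  choose a p hp using hF
  refine ⟨∑ j, a j, fun j => Polynomial.X ^ (∑ i ∈ Finset.univ.erase j, a i) * p j,
    fun z x hx j => ?_⟩
  rw [map_mul, map_pow, evp_X, ← hp j z x hx, ← Finset.add_sum_erase _ _ (Finset.mem_univ j),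
    pow_add]
  ring

theorem eval_smul_homog {N : ℕ} {G : MvPolynomial (Fin (N + 1)) ℂ} {d : ℕ}
    (hG : G.IsHomogeneous d) (c : ℂ) (v : Fin (N + 1) → ℂ) :
    eval (fun j => c * v j) G = c ^ d * eval v G :=
  Pool.Agent.H159R3.Exp.eval_smul_homog hG c v

theorem emb_local (hS : IsOpen S) (hSc : IsPreconnected S) (hne : S.Nonempty)
    {ι : Type} (b : ι → ℂ → ℂ) (hb : ∀ i, AnalyticOnNhd ℂ (b i) S) (d : ι → ι)
    (hd : ∀ i, ∀ z ∈ S, HasDerivAt (b i) (b (d i) z) z)
    {n : ℕ} (A : Fin n → Fin n → ι) (U : ℂ → Matrix (Fin n) (Fin n) ℂ)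
    (hU : ∀ z ∈ S, ∀ i j, HasDerivAt (fun w => U w i j) (∑ k, b (A i k) z * U z k j) z)
    (hdet : ∀ z ∈ S, (U z).det ≠ 0)
    (B : Subalgebra ℂ (Hol S)) (hB : ∀ i, toHol (b i) (hb i) ∈ B)
    {N : ℕ} (Φ : Fin (N + 1) → MvPolynomial (ι ⊕ (Fin n × Fin n)) ℂ)
    (g0 g1 : MvPolynomial (Fin (N + 1)) ℂ) {D : ℕ} (hg0D : g0.IsHomogeneous D)
    (hg1D : g1.IsHomogeneous D)
    (hg0 : ∃ z ∈ S, eval (fun j => eval (vv b U z) (Φ j)) g0 ≠ 0)
    (hNA : ∀ (m : ℕ) (c : ℕ → B), (∀ z : S, ∑ k ∈ Finset.range (m + 1),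
      evz z (c k : Hol S) * (eval (fun j => eval (vv b U z) (Φ j)) g1) ^ k *
        (eval (fun j => eval (vv b U z) (Φ j)) g0) ^ (m - k) = 0) →
      ∀ k ≤ m, c k = 0)
    (Q : MvPolynomial (Fin (N + 1)) ℂ) {e : ℕ} (hQe : Q.IsHomogeneous e) (iq : ι)
    (hQ : ∀ z ∈ S, eval (fun j => eval (vv b U z) (Φ j)) Q ≠ 0)
    (hQ' : ∀ z ∈ S, HasDerivAt (fun w => eval (fun j => eval (vv b U w) (Φ j)) Q)
      (b iq z * eval (fun j => eval (vv b U z) (Φ j)) Q) z) :
    ∃ W : Fin (N + 1) → Polynomial (Hol S),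
      (∀ R : MvPolynomial (Fin (N + 1)) ℂ, (∃ d, R.IsHomogeneous d) →
        (∀ z ∈ S, eval (fun j => eval (vv b U z) (Φ j)) R = 0) → aeval W R = 0) ∧
      (∀ j (z : S), evz z ((W j).eval 1) = eval (vv b U z) (Φ j)) ∧
      (∃ (h : Polynomial (Hol S)) (c : Hol S) (k : ℕ), c ≠ 0 ∧
        aeval W Q * h = Polynomial.C c * Polynomial.X ^ k) ∧
      Polynomial.derivative (aeval W g1) * aeval W g0 ≠
        aeval W g1 * Polynomial.derivative (aeval W g0) := by
  classical
  set v := vv b U with hv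
  -- the system
  have hsol : Sol (EE d A) v S := by
    intro z hz l
    rcases l with i | ⟨i, j⟩
    · have := hd i z hz
      simpa [EE, v, vv] using this
    · have := hU z hz i j
      simpa [EE, v, vv] using this
  have hvan : ∀ l, AnalyticOnNhd ℂ (fun z => v z l) S := by
    intro l
    have := hsol.analytic hS (X l)
    simpa using this
  let V : ι ⊕ (Fin n × Fin n) → Hol S := fun l => toHol (fun z => v z l) (hvan l)
  have hVe : ∀ (z : S), (fun l => evz z (V l)) = v z := fun z => rfl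
  have hVP : ∀ (z : S) (P : MvPolynomial (ι ⊕ (Fin n × Fin n)) ℂ),
      evz z (aeval V P) = eval (v z) P := by
    intro z P
    have h4 := MvPolynomial.comp_aeval_apply (f := V) (evz z) P
    rw [h4, ← MvPolynomial.aeval_eq_eval]
    rfl
  have hrel : ∀ P, Rel v S P ↔ aeval V P = 0 := by
    intro P
    constructor
    · intro h
      exact hol_ext fun z => by rw [hVP, map_zero]; exact h z z.2
    · intro h z hz
      rw [← hVP ⟨z, hz⟩, h, map_zero]
  have hqe' : ∀ (R : MvPolynomial (Fin (N + 1)) ℂ) (x : ι ⊕ (Fin n × Fin n) → ℂ),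
      eval x (bind₁ Φ R) = eval (fun j => eval x (Φ j)) R := by
    intro R x
    rw [eval, eval₂Hom_bind₁]
    rfl
  obtain ⟨a, M, haM⟩ := exists_tangent hSc hne B V (fun i => hB i) (bind₁ Φ g0) (bind₁ Φ g1) (by
      obtain ⟨z, hz, h⟩ := hg0
      intro h0
      apply h
      rw [← hqe', ← hVP ⟨z, hz⟩, h0, map_zero]) (by
      intro m c hc
      apply hNA m c
      intro z
      have h1 := congrArg (evz z) hc
      rw [map_sum, map_zero] at h1
      rw [← h1]
      refine Finset.sum_congr rfl fun k _ => ?_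
      rw [map_mul, map_mul, map_pow, map_pow, hVP, hVP, hqe', hqe'])
  set β : Matrix (Fin n) (Fin n) ℂ := (U a)⁻¹ * Matrix.of fun i j => M (i, j) with hβ
  have hUβ : ∀ p : Fin n × Fin n, (U a * β) p.1 p.2 = M p := by
    intro p
    rw [hβ, ← Matrix.mul_assoc, Matrix.mul_nonsing_inv _ ((hdet a a.2).isUnit), Matrix.one_mul]
    rfl
  obtain ⟨haP, haG⟩ := haM (WW β) (fun i => by simp [WW]) (fun p => by
    rw [← hUβ p, Matrix.mul_apply]
    simp only [WW, Sum.elim_inr, map_sum, map_mul, eval_X, eval_C]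
    rfl)
  rw [hVe] at haG haP
  have hδ : ∀ P, Rel v S P → Rel v S (mkDerivation ℂ (WW β) P) :=
    rel_of_point hS hSc hsol (comm_EW d A β) a.2 (fun P hP => haP P ((hrel P).mp hP))
  -- the one-parameter group
  obtain ⟨ex, he0, he, hEP⟩ := exists_exp_flow β
  let y : ℂ → ℂ → ι ⊕ (Fin n × Fin n) → ℂ := fun z t =>
    Sum.elim (fun i => b i z) (fun p => (U z * ex t) p.1 p.2)
  have hy0 : ∀ z, y z 0 = v z := by
    intro z
    simp only [y, he0, Matrix.mul_one]
    rfl
  have hysol : ∀ z, Sol (WW β) (y z) univ := by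
    intro z t _ l
    rcases l with i | ⟨i, j⟩
    · simp only [y, Sum.elim_inl, WW, map_zero]
      exact hasDerivAt_const t _
    · simp only [y, Sum.elim_inr, WW, map_sum, map_mul, eval_X, eval_C]
      have h1 : HasDerivAt (fun s => (U z * ex s) i j) (∑ k, U z i k * (ex t * β) k j) t := by
        simp only [Matrix.mul_apply]
        apply HasDerivAt.fun_sum
        intro k _
        have := (he t k j).const_mul (U z i k)
        rw [Matrix.mul_apply] at this
        exact this
      refine h1.congr_deriv ?_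
      rw [← Matrix.mul_apply, ← Matrix.mul_assoc, Matrix.mul_apply]
  have hyP : ∀ z ∈ S, ∀ P, Rel v S P → ∀ t, eval (y z t) P = 0 := fun z hz P hP t =>
    rel_flow hδ hz (y z) (hysol z) (hy0 z) P hP t
  -- the boundary
  set q := bind₁ Φ Q with hq
  have hqe : ∀ x : ι ⊕ (Fin n × Fin n) → ℂ, eval x q = eval (fun j => eval x (Φ j)) Q := hqe' Q
  have hR1 : Rel v S (mkDerivation ℂ (EE d A) q - X (Sum.inl iq) * q) := by
    intro s hs
    have h1 := hasDerivAt_sol (EE d A) v s (hsol s hs) q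
    have h2 := hQ' s hs
    simp only [← hqe] at h2
    have h3 := h1.unique h2
    rw [map_sub, map_mul, h3, eval_X]
    exact sub_self _
  have hR2 : Rel v S (mkDerivation ℂ (EE d A) (mkDerivation ℂ (WW β) q)
      - X (Sum.inl iq) * mkDerivation ℂ (WW β) q) := by
    have h1 := hδ _ hR1
    rw [map_sub, Derivation.leibniz, mkDerivation_X, ← comm_of_X (comm_EW d A β)] at h1
    simpa [WW] using h1
  obtain ⟨γ, hγ⟩ : ∃ γ : ℂ, Rel v S (mkDerivation ℂ (WW β) q - C γ * q) := by
    have hqn : ∀ s ∈ S, eval (v s) q ≠ 0 := fun s hs => by rw [hqe]; exact hQ s hs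
    have h1 : ∀ s ∈ S, HasDerivAt (fun s => eval (v s) (mkDerivation ℂ (WW β) q) / eval (v s) q)
        0 s := by
      intro s hs
      have h2 := hasDerivAt_sol (EE d A) v s (hsol s hs) (mkDerivation ℂ (WW β) q)
      have h3 := hasDerivAt_sol (EE d A) v s (hsol s hs) q
      refine (h2.div h3 (hqn s hs)).congr_deriv ?_
      have h4 := hR1 s hs
      have h5 := hR2 s hs
      rw [map_sub, map_mul, eval_X, sub_eq_zero] at h4 h5
      rw [h4, h5, div_eq_zero_iff]
      left
      ring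
    refine ⟨eval (v a) (mkDerivation ℂ (WW β) q) / eval (v a) q, ?_⟩
    intro s hs
    have h6 : eval (v s) (mkDerivation ℂ (WW β) q) / eval (v s) q
        = eval (v a) (mkDerivation ℂ (WW β) q) / eval (v a) q := by
      have h7 : DifferentiableOn ℂ
          (fun s => eval (v s) (mkDerivation ℂ (WW β) q) / eval (v s) q) S :=
        fun s hs => (h1 s hs).differentiableAt.differentiableWithinAt
      have h8 : EqOn (deriv (fun s => eval (v s) (mkDerivation ℂ (WW β) q) / eval (v s) q)) 0 S :=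
        fun s hs => (h1 s hs).deriv
      exact hS.is_const_of_deriv_eq_zero hSc h7 h8 hs a.2
    rw [map_sub, map_mul, eval_C, ← h6, div_mul_cancel₀ _ (hqn s hs), sub_self]
  have hqt : ∀ z ∈ S, ∀ t, eval (y z t) q = eval (v z) q * Complex.exp (γ * t) := by
    intro z hz
    have h1 : ∀ t, HasDerivAt (fun t => eval (y z t) q * Complex.exp (-γ * t)) 0 t := by
      intro t
      have h2 := hasDerivAt_sol (WW β) (y z) t (hysol z t (mem_univ t)) q
      have h3 : HasDerivAt (fun t : ℂ => Complex.exp (-γ * t)) (Complex.exp (-γ * t) * (-γ)) t := by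
        have := ((hasDerivAt_id t).const_mul (-γ)).cexp
        simpa using this
      refine (h2.mul h3).congr_deriv ?_
      have h4 := hyP z hz _ hγ t
      rw [map_sub, map_mul, eval_C, sub_eq_zero] at h4
      rw [h4]
      ring
    intro t
    have h5 := is_const_of_deriv_eq_zero (fun t => (h1 t).differentiableAt)
      (fun t => (h1 t).deriv) t 0
    simp only [hy0, mul_zero, Complex.exp_zero, mul_one] at h5
    rw [← h5, mul_assoc, ← Complex.exp_add]
    simp
  -- common exponents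
  let G : Option (Fin n × Fin n) → ℂ → ℂ := fun o =>
    o.elim (fun t => Complex.exp (-γ * t)) (fun p t => ex t p.1 p.2)
  have hGEP : ∀ o, EP (G o) := by
    intro o
    rcases o with _ | p
    · exact EP.exp _
    · exact hEP p.1 p.2
  obtain ⟨m, g, P, hg, hP⟩ := EP.common G hGEP
  -- the coordinates as functions of the exponentials
  let T : ℂ → ι ⊕ (Fin n × Fin n) → MvPolynomial (Fin (m + 1)) ℂ := fun z =>
    Sum.elim (fun i => C (b i z)) (fun p => ∑ k, C (U z p.1 k) * P (some (k, p.2)))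
  let Y : ℂ → (Fin (m + 1) → ℂ) → ι ⊕ (Fin n × Fin n) → ℂ := fun z x l => eval x (T z l)
  have hYy : ∀ z t, Y z (Pool.Agent.H159R3.Exp.vec g t) = y z t := by
    intro z t
    funext l
    rcases l with i | ⟨i, j⟩
    · simp [Y, T, y]
    · simp only [Y, T, y, Sum.elim_inr, map_sum, map_mul, eval_C, ← hP, Matrix.mul_apply]
      rfl
  have hYT : ∀ z x (R : MvPolynomial (ι ⊕ (Fin n × Fin n)) ℂ),
      eval (Y z x) R = eval x (bind₁ (T z) R) := by
    intro z x R
    rw [eval, eval, eval₂Hom_bind₁]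
    rfl
  -- the direction
  set G0 := bind₁ Φ g0 with hG0
  set G1 := bind₁ Φ g1 with hG1
  set v0 : Fin (m + 1) → ℂ := Pool.Agent.H159R3.Exp.vec g 0 with hv0
  have hvd : ∀ l, HasDerivAt (fun z => Pool.Agent.H159R3.Exp.vec g z l)
      ((Fin.cons 1 fun i => Complex.exp (g i 0) * deriv (g i) 0 : Fin (m + 1) → ℂ) l) 0 := by
    intro l
    refine Fin.cases ?_ (fun i => ?_) l
    · simpa [Pool.Agent.H159R3.Exp.vec] using hasDerivAt_id' (0 : ℂ)
    · simpa [Pool.Agent.H159R3.Exp.vec] using ((hg i) 0).hasDerivAt.cexp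
  have hYv : Y a v0 = v a := by rw [hv0, hYy, hy0]
  have hder : ∀ R : MvPolynomial (ι ⊕ (Fin n × Fin n)) ℂ,
      eval (v a) (mkDerivation ℂ (WW β) R) = ∑ l, eval v0 (pderiv l (bind₁ (T a) R)) *
        (Fin.cons 1 fun i => Complex.exp (g i 0) * deriv (g i) 0 : Fin (m + 1) → ℂ) l := by
    intro R
    have h1 := hasDerivAt_sol (WW β) (y a) 0 (hysol a 0 (mem_univ 0)) R
    have h2 := Pool.Agent.H159R3.Exp.hasDerivAt_eval (Pool.Agent.H159R3.Exp.vec g) _ 0 hvd
      (bind₁ (T a) R)
    have h3 : (fun t => eval (y a t) R) = fun t =>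
        eval (Pool.Agent.H159R3.Exp.vec g t) (bind₁ (T a) R) := by
      funext t
      rw [← hYT, hYy]
    rw [h3, hy0] at h1
    exact h1.unique h2
  obtain ⟨ξ, ξ', ea, pp, hξp, hξ1, hξR, hξd, hξn⟩ := exists_dir g hg
    (fun l => eval v0 (pderiv l (bind₁ (T a) G1)) * eval (v a) G0 -
      eval (v a) G1 * eval v0 (pderiv l (bind₁ (T a) G0))) (by
      intro h0
      refine haG ?_
      rw [hder, hder]
      refine Eq.trans ?_ h0
      rw [Finset.sum_mul, Finset.mul_sum, ← Finset.sum_sub_distrib]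
      exact Finset.sum_congr rfl fun l _ => by ring)
  -- the Laurent polynomials
  have hPLξ : ∀ l, PL fun (_ : S) x => ξ x l := fun l => PL.laur fun x hx => hξp x hx l
  have hPLP : ∀ o, PL fun (_ : S) x => eval (ξ x) (P o) := fun o => PL.eval hPLξ (P o)
  have hPLY : ∀ l, PL fun (z : S) x => Y z (ξ x) l := by
    intro l
    rcases l with i | ⟨i, j⟩
    · have h1 : (fun (z : S) x => Y z (ξ x) (Sum.inl i)) = fun z _ => evz z (V (Sum.inl i)) := by
        funext z x
        simp only [Y, T, Sum.elim_inl, eval_C]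
        rfl
      rw [h1]
      exact PL.hol (S := S) (V (Sum.inl i))
    · simp only [Y, T, Sum.elim_inr, map_sum, map_mul, eval_C]
      exact PL.sum _ fun k _ => (PL.hol (S := S) (V (Sum.inr (i, k)))).mul (hPLP _)
  obtain ⟨c0, W, hW⟩ := PL.common fun j : Fin (N + 1) => PL.eval hPLY (Φ j)
  have hWR : ∀ (R : MvPolynomial (Fin (N + 1)) ℂ) (dR : ℕ), R.IsHomogeneous dR →
      ∀ (z : S) (x : ℂ), x ≠ 0 → evp z x (aeval W R) =
        x ^ (c0 * dR) * eval (Y z (ξ x)) (bind₁ Φ R) := by
    intro R dR hR z x hx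
    rw [evp_aeval, hqe', pow_mul, ← eval_smul_homog hR]
    congr 1
    congr 1
    funext j
    rw [hW z x hx j]
  have hξv : ∀ z : ℂ, Y z (ξ 1) = v z := fun z => by rw [hξ1, hYy, hy0]
  have hW1 : ∀ j (z : S), evz z ((W j).eval 1) = eval (v z) (Φ j) := by
    intro j z
    rw [← evp_one, ← hW z 1 one_ne_zero j, one_pow, one_mul, hξv]
  refine ⟨W, ?_, hW1, ?_, ?_⟩
  · rintro R ⟨dR, hR⟩ hRz
    apply evp_ext
    intro z x hx
    rw [hWR R dR hR z x hx, map_zero, hYT, hξR _ _ x hx, mul_zero]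
    intro t
    rw [← hYT, hYy]
    exact hyP z z.2 _ (fun s hs => by rw [hqe']; exact hRz s hs) t
  · obtain ⟨c1, hh, hhW⟩ := hPLP none
    refine ⟨hh, aeval V q, c0 * e + c1, ?_, ?_⟩
    · intro h0
      obtain ⟨z, hz⟩ := hne
      apply hQ z hz
      rw [← hqe, ← hVP ⟨z, hz⟩, h0, map_zero]
    · apply evp_ext
      intro z x hx
      rw [map_mul, hWR Q e hQe z x hx, ← hhW z x hx, map_mul, evp_C, map_pow, evp_X, hVP, pow_add]
      have h1 : eval (ξ x) (bind₁ (T z) q * P none - C (eval (v z) q)) = 0 := by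
        apply hξR _ _ x hx
        intro t
        rw [map_sub, map_mul, eval_C, ← hYT, hYy, hqt z z.2, ← hP]
        simp only [G, Option.elim_none]
        rw [mul_assoc, ← Complex.exp_add]
        simp
      rw [map_sub, map_mul, eval_C, ← hYT, sub_eq_zero] at h1
      rw [← h1]
      ring
  · intro h0
    apply hξn
    -- derivatives at the point `1`
    have hd1 : ∀ (R : MvPolynomial (Fin (N + 1)) ℂ), R.IsHomogeneous D →
        evp a 1 (Polynomial.derivative (aeval W R)) = (c0 * D : ℕ) * eval (v a) (bind₁ Φ R) +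
          ∑ l, eval v0 (pderiv l (bind₁ (T a) (bind₁ Φ R))) * ξ' l := by
      intro R hR
      have h1 := evp_deriv a 1 (aeval W R)
      have h2 : (fun x => evp a x (aeval W R)) =ᶠ[𝓝 1]
          fun x => x ^ (c0 * D) * eval (ξ x) (bind₁ (T a) (bind₁ Φ R)) := by
        filter_upwards [isOpen_ne.mem_nhds (one_ne_zero (α := ℂ))] with x hx
        rw [hWR R D hR a x hx, hYT]
      have h3 := Pool.Agent.H159R3.Exp.hasDerivAt_eval ξ ξ' 1 hξd (bind₁ (T a) (bind₁ Φ R))
      have h4 := (hasDerivAt_pow (c0 * D) (1 : ℂ)).mul h3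
      have h5 := (h1.congr_of_eventuallyEq h2.symm).unique h4
      rw [h5, hξ1, ← hYT, ← hv0, hYv]
      simp
    have hd2 : ∀ (R : MvPolynomial (Fin (N + 1)) ℂ), R.IsHomogeneous D →
        evp a 1 (aeval W R) = eval (v a) (bind₁ Φ R) := by
      intro R hR
      rw [hWR R D hR a 1 one_ne_zero, hξv, one_pow, one_mul]
    have h6 : evp a 1 (Polynomial.derivative (aeval W g1)) * evp a 1 (aeval W g0) -
        evp a 1 (aeval W g1) * evp a 1 (Polynomial.derivative (aeval W g0)) = 0 := by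
      rw [← map_mul, ← map_mul, h0, sub_self]
    rw [hd1 g1 hg1D, hd1 g0 hg0D, hd2 g0 hg0D, hd2 g1 hg1D] at h6
    rw [← h6]
    simp only [sub_mul, Finset.sum_sub_distrib, add_mul, mul_add, Finset.sum_mul, Finset.mul_sum]
    have e1 : ∀ l, eval v0 (pderiv l (bind₁ (T ↑a) G1)) * eval (v ↑a) G0 * ξ' l =
        eval v0 (pderiv l (bind₁ (T ↑a) G1)) * ξ' l * eval (v ↑a) G0 := fun l => by ring
    have e2 : ∀ l, eval (v ↑a) G1 * eval v0 (pderiv l (bind₁ (T ↑a) G0)) * ξ' l =
        eval (v ↑a) G1 * (eval v0 (pderiv l (bind₁ (T ↑a) G0)) * ξ' l) := fun l => by ring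
    simp only [e1, e2]
    ring

end Pool.Agent.TH143.GT
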