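import Mathlib
import Pool.Agent.TH143.GT.Emb

/-!
Descent of a family of rational curves to a finitely generated field.
-/

set_option autoImplicit false

namespace Pool.Agent.TH143.GT

open MvPolynomial Metric Set Filter Topology Pool.Agent.TH143

variable {N : ℕ}

theorem map_aeval' {R R' : Type} [CommRing R] [CommRing R'] [Algebra ℂ R] [Algebra ℂ R']
    (f : R →ₐ[ℂ] R') (W : Fin (N + 1) → Polynomial R) (G : MvPolynomial (Fin (N + 1)) ℂ) :
    (aeval W G).map (f : R →+* R') = aeval (fun j => (W j).map (f : R →+* R')) G := by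
  have h4 := MvPolynomial.comp_aeval_apply (f := W) (Polynomial.mapAlgHom f) G
  exact h4

/-- descent of a family of curves to a finitely generated field of coefficients -/
theorem desc {R : Type} [CommRing R] [IsDomain R] [Algebra ℂ R] (W : Fin (N + 1) → Polynomial R)
    (g0 g1 Q : MvPolynomial (Fin (N + 1)) ℂ)
    (hQ : ∃ (h : Polynomial R) (c : R) (k : ℕ), c ≠ 0 ∧
        aeval W Q * h = Polynomial.C c * Polynomial.X ^ k)
    (hg : Polynomial.derivative (aeval W g1) * aeval W g0 ≠
        aeval W g1 * Polynomial.derivative (aeval W g0)) :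
    ∃ (M : Type) (_ : Field M) (_ : Algebra ℂ M) (m : ℕ), Algebra.trdeg ℂ M = m ∧
      ∃ W' : Fin (N + 1) → Polynomial M,
        (∀ G : MvPolynomial (Fin (N + 1)) ℂ, aeval W' G = 0 ↔ aeval W G = 0) ∧
        (∃ (c : M) (k : ℕ), c ≠ 0 ∧ aeval W' Q = Polynomial.C c * Polynomial.X ^ k) ∧
        Polynomial.derivative (aeval W' g1) * aeval W' g0 ≠
          aeval W' g1 * Polynomial.derivative (aeval W' g0) := by
  classical
  let E := FractionRing R
  let i : R →ₐ[ℂ] E := IsScalarTower.toAlgHom ℂ R E
  have hi : Function.Injective i := IsFractionRing.injective R E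
  have hi' : Function.Injective (i : R →+* E) := hi
  let T : Finset E := Finset.univ.biUnion fun j => (W j).support.image fun n => i ((W j).coeff n)
  let M : IntermediateField ℂ E := IntermediateField.adjoin ℂ (T : Set E)
  have hess : Algebra.EssFiniteType ℂ M :=
    IntermediateField.essFiniteType_iff.2 ⟨T, rfl⟩
  have hlt := trdeg_lt_aleph0 ℂ M
  obtain ⟨m, hm⟩ := Cardinal.lt_aleph0.1 hlt
  have hl : ∀ j, ∃ w : Polynomial M, w.map (M.val : M →+* E) = (W j).map (i : R →+* E) := by
    intro j
    have h1 : (W j).map (i : R →+* E) ∈ Polynomial.lifts (M.val : M →+* E) := by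
      rw [Polynomial.lifts_iff_coeff_lifts]
      intro n
      rw [Polynomial.coeff_map]
      by_cases hn : (W j).coeff n = 0
      · rw [hn, map_zero]
        exact ⟨0, map_zero _⟩
      · have h2 : i ((W j).coeff n) ∈ M := by
          apply IntermediateField.subset_adjoin
          simp only [T, Finset.coe_biUnion, Finset.mem_coe, Finset.mem_univ, Set.iUnion_true,
            Set.mem_iUnion, Finset.mem_image]
          exact ⟨j, n, Polynomial.mem_support_iff.2 hn, rfl⟩
        exact ⟨⟨_, h2⟩, rfl⟩
    exact (Polynomial.mem_lifts _).1 h1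
  choose W' hW' using hl
  have hMinj : Function.Injective (M.val : M →+* E) := M.val.toRingHom.injective
  have hmap : ∀ G : MvPolynomial (Fin (N + 1)) ℂ,
      (aeval W' G).map (M.val : M →+* E) = (aeval W G).map (i : R →+* E) := by
    intro G
    rw [map_aeval', map_aeval']
    congr 1
    congr 1
    funext j
    exact hW' j
  refine ⟨M, inferInstance, inferInstance, m, hm, W', ?_, ?_, ?_⟩
  · intro G
    rw [← Polynomial.map_eq_zero_iff hMinj, hmap, Polynomial.map_eq_zero_iff hi']
  · obtain ⟨h, c, k, hc, hh⟩ := hQ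
    have h1 : (aeval W' Q).map (M.val : M →+* E) * h.map (i : R →+* E) =
        Polynomial.C (i c) * Polynomial.X ^ k := by
      rw [hmap, ← Polynomial.map_mul, hh, Polynomial.map_mul, Polynomial.map_C, Polynomial.map_pow,
        Polynomial.map_X]
      rfl
    have hic : i c ≠ 0 := by
      rw [Ne, map_eq_zero_iff i hi]
      exact hc
    have h2 : (aeval W' Q).map (M.val : M →+* E) ∣ Polynomial.X ^ k := by
      refine ⟨h.map (i : R →+* E) * Polynomial.C (i c)⁻¹, ?_⟩
      rw [← mul_assoc, h1, mul_comm, ← mul_assoc, ← Polynomial.C_mul, inv_mul_cancel₀ hic,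
        Polynomial.C_1, one_mul]
    obtain ⟨l, hl, hass⟩ := (dvd_prime_pow Polynomial.prime_X k).1 h2
    obtain ⟨u, hu⟩ := hass.symm
    obtain ⟨u0, hu0, hu1⟩ := Polynomial.isUnit_iff.1 u.isUnit
    have h3 : (aeval W' Q).map (M.val : M →+* E) = Polynomial.C u0 * Polynomial.X ^ l := by
      rw [← hu, ← hu1, mul_comm]
    have h4 : ((aeval W' Q).coeff l : E) = u0 := by
      have := congrArg (fun p => Polynomial.coeff p l) h3
      simpa [Polynomial.coeff_map] using this
    refine ⟨(aeval W' Q).coeff l, l, ?_, ?_⟩
    · intro h0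
      rw [h0] at h4
      exact hu0.ne_zero h4.symm
    · apply Polynomial.map_injective _ hMinj
      rw [h3, Polynomial.map_mul, Polynomial.map_C, Polynomial.map_pow, Polynomial.map_X]
      congr 1
      congr 1
      exact h4.symm
  · intro h0
    apply hg
    apply Polynomial.map_injective (i : R →+* E) hi'
    have h1 := congrArg (Polynomial.map (M.val : M →+* E)) h0
    rw [Polynomial.map_mul, Polynomial.map_mul, ← Polynomial.derivative_map,
      ← Polynomial.derivative_map, hmap, hmap] at h1
    rw [Polynomial.map_mul, Polynomial.map_mul, ← Polynomial.derivative_map,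
      ← Polynomial.derivative_map]
    exact h1

end Pool.Agent.TH143.GT
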