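import Pool.Agent.TH143.GT.Core
import Pool.Agent.W602.GT.Orb

/-!
Families of rational curves in a variety with given function field.
-/

set_option autoImplicit false

open FF Pool.Agent.W602.GT Pool.Agent.W603.LV MvPolynomial
open IntermediateField hiding val

namespace Pool.Agent.TH143.GT

section frac

variable {k K : Type} [Field k] [Field K] [Algebra k K] {n : ℕ}

theorem val_mul' (y : Fin (n + 1) → K) (G H : MvPolynomial (Fin (n + 1)) k) :
    val y (G * H) = val y G * val y H := map_mul _ _ _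

theorem val_add' (y : Fin (n + 1) → K) (G H : MvPolynomial (Fin (n + 1)) k) :
    val y (G + H) = val y G + val y H := map_add _ _ _

/-- the rational functions on the variety -/
def fracs (k : Type) [Field k] {K : Type} [Field K] [Algebra k K] (y : Fin (n + 1) → K) :
    IntermediateField k K where
  carrier := {r | ∃ (d : ℕ) (g1 g0 : MvPolynomial (Fin (n + 1)) k), g1.IsHomogeneous d ∧
    g0.IsHomogeneous d ∧ val y g0 ≠ 0 ∧ r = val y g1 / val y g0}
  mul_mem' := by
    rintro a b ⟨d, g1, g0, h1, h0, hn, rfl⟩ ⟨e, f1, f0, i1, i0, im, rfl⟩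
    refine ⟨d + e, g1 * f1, g0 * f0, h1.mul i1, h0.mul i0, ?_, ?_⟩
    · rw [val_mul']
      exact mul_ne_zero hn im
    · rw [val_mul', val_mul', div_mul_div_comm]
  add_mem' := by
    rintro a b ⟨d, g1, g0, h1, h0, hn, rfl⟩ ⟨e, f1, f0, i1, i0, im, rfl⟩
    refine ⟨d + e, g1 * f0 + g0 * f1, g0 * f0, (h1.mul i0).add (h0.mul i1), h0.mul i0, ?_, ?_⟩
    · rw [val_mul']
      exact mul_ne_zero hn im
    · rw [val_mul', val_add', val_mul', val_mul', div_add_div _ _ hn im]
  algebraMap_mem' := fun c => ⟨0, C c, 1, isHomogeneous_C _ _, isHomogeneous_one _ _, by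
      unfold val
      rw [map_one]
      exact one_ne_zero, by
      unfold val
      rw [map_one, div_one, aeval_C]⟩
  inv_mem' := by
    rintro a ⟨d, g1, g0, h1, h0, hn, rfl⟩
    by_cases hz : val y g1 = 0
    · refine ⟨0, 0, 1, isHomogeneous_zero _ _ _, isHomogeneous_one _ _, ?_, ?_⟩
      · unfold val
        rw [map_one]
        exact one_ne_zero
      · rw [hz, zero_div, inv_zero]
        unfold val
        rw [map_zero, zero_div]
    · exact ⟨d, g0, g1, h0, h1, hz, by rw [inv_div]⟩

theorem exists_frac {y : Fin (n + 1) → K} (hgen : coords k y = ⊤) (r : K) :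
    ∃ (d : ℕ) (g1 g0 : MvPolynomial (Fin (n + 1)) k), g1.IsHomogeneous d ∧
      g0.IsHomogeneous d ∧ val y g0 ≠ 0 ∧ r = val y g1 / val y g0 := by
  have h1 : coords k y ≤ fracs k y := by
    unfold coords
    rw [IntermediateField.adjoin_le_iff]
    rintro _ ⟨i, j, hj, rfl⟩
    refine ⟨1, X i, X j, isHomogeneous_X _ _, isHomogeneous_X _ _, ?_, ?_⟩
    · unfold val
      rw [aeval_X]
      exact hj
    · unfold val
      rw [aeval_X, aeval_X]
  have h2 : r ∈ coords k y := by rw [hgen]; exact IntermediateField.mem_top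
  exact h1 h2

end frac

section delta

variable (k M : Type) [Field k] [Field M] [Algebra k M]

theorem isFF_ratFunc : IsFF M (RatFunc M) := by
  refine IsFF.of_finite (f := (RatFunc.X : RatFunc M)) RatFunc.transcendental_X ?_
  rw [RatFunc.adjoin_X]
  exact Module.Finite.of_surjective (Algebra.linearMap (⊤ : IntermediateField M (RatFunc M))
    (RatFunc M)) fun z => ⟨⟨z, trivial⟩, rfl⟩

theorem trdeg_ratFunc {m : ℕ} (hm : Algebra.trdeg k M = m) :
    Algebra.trdeg k (RatFunc M) = (m + 1 : ℕ) := by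
  rw [← trdeg_add_eq k M (A := RatFunc M), (isFF_ratFunc M).trdeg, hm]
  simp

/-- the derivation `X d/dX` -/
theorem exists_delta [CharZero k] : ∃ δ : Derivation k (RatFunc M) (RatFunc M),
    (∀ P : Polynomial M, δ (algebraMap (Polynomial M) (RatFunc M) P) =
      RatFunc.X * algebraMap (Polynomial M) (RatFunc M) (Polynomial.derivative P)) ∧
    (consts δ)⟮(RatFunc.X : RatFunc M)⟯ = ⊤ := by
  have hc : CharZero M := charZero_of_injective_algebraMap (algebraMap k M).injective
  have hb : IsTranscendenceBasis M (fun _ : Unit => (RatFunc.X : RatFunc M)) := by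
    have h1 : AlgebraicIndependent M (fun _ : Unit => (RatFunc.X : RatFunc M)) :=
      (algebraicIndependent_unique_type_iff).2 RatFunc.transcendental_X
    rw [h1.isTranscendenceBasis_iff_isAlgebraic]
    apply alg_adjoin
    have h2 : Set.range (fun _ : Unit => (RatFunc.X : RatFunc M)) = {RatFunc.X} := by simp
    rw [h2, RatFunc.adjoin_X]
    infer_instance
  obtain ⟨D, hD⟩ := exists_der (L := M) (fun _ : Unit => (RatFunc.X : RatFunc M)) hb
    (fun _ => RatFunc.X)
  have hDX : D (RatFunc.X : RatFunc M) = RatFunc.X := hD ()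
  have hX : ∀ P : Polynomial M, algebraMap (Polynomial M) (RatFunc M) P =
      Polynomial.aeval (RatFunc.X : RatFunc M) P := by
    intro P
    induction P using Polynomial.induction_on' with
    | add p q hp hq => rw [map_add, map_add, hp, hq]
    | monomial n a =>
      rw [← Polynomial.C_mul_X_pow_eq_monomial, map_mul, map_mul, map_pow, map_pow,
        Polynomial.aeval_X, Polynomial.aeval_C, RatFunc.algebraMap_X, RatFunc.algebraMap_C]
      rfl
  refine ⟨D.restrictScalars k, fun P => ?_, ?_⟩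
  · change D _ = _
    rw [hX, Derivation.map_aeval, hDX, ← hX, smul_eq_mul, mul_comm]
  · rw [eq_top_iff]
    intro z _
    have h1 : z ∈ IntermediateField.adjoin M {(RatFunc.X : RatFunc M)} := by
      rw [RatFunc.adjoin_X]; trivial
    clear * - D h1
    induction h1 using IntermediateField.adjoin_induction with
    | mem x hx =>
      rw [Set.mem_singleton_iff] at hx
      rw [hx]
      exact mem_adjoin_simple_self _ _
    | algebraMap c =>
      have h2 : (D.restrictScalars k) (algebraMap M (RatFunc M) c) = 0 := D.map_algebraMap c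
      exact ((consts (D.restrictScalars k))⟮(RatFunc.X : RatFunc M)⟯).algebraMap_mem
        (⟨_, h2⟩ : consts (D.restrictScalars k))
    | add x y _ _ hx hy => exact add_mem hx hy
    | inv x _ hx => exact inv_mem hx
    | mul x y _ _ hx hy => exact mul_mem hx hy

end delta

section fam

variable {k K M : Type} [Field k] [Field K] [Field M] [Algebra k K] [Algebra k M] {n : ℕ}

/-- A family of rational curves, parametrised by `M`, in the variety with generic point `y`, which
meets the hypersurface `Q = 0` at most in the origin. -/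
structure Fam (y : Fin (n + 1) → K) (Q : MvPolynomial (Fin (n + 1)) k)
    (W : Fin (n + 1) → Polynomial M) (l : ℕ) : Prop where
  rel : ∀ G : MvPolynomial (Fin (n + 1)) k, IsForm G →
    (W602.GT.val y G = 0 ↔ (aeval W G : Polynomial M) = 0)
  bd : ∃ c : M, c ≠ 0 ∧ (aeval W Q : Polynomial M) = Polynomial.C c * Polynomial.X ^ l

/-- the rational function given by a polynomial -/
noncomputable def rf (P : Polynomial M) : RatFunc M := algebraMap (Polynomial M) (RatFunc M) P

theorem rf_zero {P : Polynomial M} : rf P = 0 ↔ P = 0 :=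
  map_eq_zero_iff _ (RatFunc.algebraMap_injective M)

theorem rf_mul (P Q : Polynomial M) : rf (P * Q) = rf P * rf Q := map_mul _ _ _

theorem rf_pow (P : Polynomial M) (d : ℕ) : rf (P ^ d) = rf P ^ d := map_pow _ _ _

theorem rf_inj {P Q : Polynomial M} (h : rf P = rf Q) : P = Q := RatFunc.algebraMap_injective M h

theorem val_rf (W : Fin (n + 1) → Polynomial M) (G : MvPolynomial (Fin (n + 1)) k) :
    W602.GT.val (fun j => rf (W j)) G = rf (aeval W G) := by
  have h := MvPolynomial.comp_aeval_apply (f := W)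
    (IsScalarTower.toAlgHom k (Polynomial M) (RatFunc M)) G
  exact h.symm

theorem val_scale {L : Type} [Field L] [Algebra k L] {z : Fin (n + 1) → L} {i0 : Fin (n + 1)}
    (h0 : z i0 ≠ 0) {G : MvPolynomial (Fin (n + 1)) k} {d : ℕ} (hG : G.IsHomogeneous d) :
    W602.GT.val z G = z i0 ^ d * aeval (fun j => z j / z i0) G := by
  rw [← Pool.Agent.W603.PV.aeval_scale hG (fun i => z i / z i0) (z i0)]
  unfold W602.GT.val
  congr 2
  funext i
  field_simp

variable {y : Fin (n + 1) → K} {Q : MvPolynomial (Fin (n + 1)) k} {W : Fin (n + 1) → Polynomial M}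
  {l : ℕ}

theorem Fam.ne (hF : Fam y Q W l) (i : Fin (n + 1)) : y i ≠ 0 ↔ W i ≠ 0 := by
  have h1 := hF.rel (X i) ⟨1, isHomogeneous_X _ _⟩
  unfold W602.GT.val at h1
  rw [aeval_X, aeval_X] at h1
  exact not_congr h1

theorem Fam.emb (hy : y ≠ 0) (hgen : coords k y = ⊤) (hF : Fam y Q W l) :
    ∃ φ : K →ₐ[k] RatFunc M, (∀ (d : ℕ) (g1 g0 : MvPolynomial (Fin (n + 1)) k),
      g1.IsHomogeneous d → g0.IsHomogeneous d → W602.GT.val y g0 ≠ 0 →
      φ (W602.GT.val y g1 / W602.GT.val y g0) = rf (aeval W g1) / rf (aeval W g0)) := by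
  obtain ⟨i0, hi0⟩ := Function.ne_iff.1 hy
  have hi0' : y i0 ≠ 0 := hi0
  have hW0 : rf (W i0) ≠ 0 := by
    rw [Ne, rf_zero]
    exact (hF.ne i0).1 hi0'
  obtain ⟨φ, hφ⟩ := exists_embedding (L := RatFunc M) (y' := fun j => rf (W j)) hi0' hW0 hgen (by
    intro G hG
    rw [val_rf, rf_zero]
    exact hF.rel G hG)
  refine ⟨φ, fun d g1 g0 h1 h0 hn => ?_⟩
  have hφv : ∀ G : MvPolynomial (Fin (n + 1)) k, φ (aeval (fun j => y j / y i0) G) =
      aeval (fun j => rf (W j) / rf (W i0)) G := by
    intro G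
    have h2 := MvPolynomial.comp_aeval_apply (f := fun j => y j / y i0) φ G
    rw [h2]
    congr 2
    funext j
    exact hφ j
  have hyd : y i0 ^ d ≠ 0 := pow_ne_zero _ hi0'
  have hWd : rf (W i0) ^ d ≠ 0 := pow_ne_zero _ hW0
  rw [val_scale hi0' h1, val_scale hi0' h0, mul_div_mul_left _ _ hyd, map_div₀, hφv, hφv,
    ← val_rf, ← val_rf, val_scale (z := fun j => rf (W j)) hW0 h1,
    val_scale (z := fun j => rf (W j)) hW0 h0, mul_div_mul_left _ _ hWd]

/-- the places over the boundary -/
theorem Fam.bound (hF : Fam y Q W l) {q : ℕ} (hQ : Q.IsHomogeneous q)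
    [Algebra K (RatFunc M)] [IsScalarTower k K (RatFunc M)]
    (hφ : ∀ (d : ℕ) (g1 g0 : MvPolynomial (Fin (n + 1)) k),
      g1.IsHomogeneous d → g0.IsHomogeneous d → W602.GT.val y g0 ≠ 0 →
      algebraMap K (RatFunc M) (W602.GT.val y g1 / W602.GT.val y g0) =
        rf (aeval W g1) / rf (aeval W g0))
    (P : Place k (RatFunc M)) (hP : ∀ c : M, c ≠ 0 → P.ord (algebraMap M (RatFunc M) c) = 0)
    (hX : 0 ≤ P.ord (RatFunc.X : RatFunc M)) (hl : l * P.ord (RatFunc.X : RatFunc M) = 0)
    (v : Place k K) (e : ℕ) (hv : Over P v e) : ¬ Pool.Agent.W603.GR.OffQ Q q y v := by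
  rintro ⟨i, hi, hlt⟩
  obtain ⟨c, hc, hcQ⟩ := hF.bd
  have hXn : (RatFunc.X : RatFunc M) ≠ 0 := RatFunc.X_ne_zero
  have hWi : rf (W i) ≠ 0 := by
    rw [Ne, rf_zero]
    exact (hF.ne i).1 hi
  -- polynomials are regular
  have hreg : ∀ p : Polynomial M, P.Reg (rf p) := by
    intro p
    induction p using Polynomial.induction_on' with
    | add p q hp hq =>
      unfold rf at hp hq ⊢
      rw [map_add]
      exact P.reg_add hp hq
    | monomial n a =>
      unfold rf
      rw [← Polynomial.C_mul_X_pow_eq_monomial, map_mul, map_pow, RatFunc.algebraMap_X,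
        RatFunc.algebraMap_C]
      refine P.reg_mul ?_ ?_
      · by_cases ha : a = 0
        · left
          rw [ha, map_zero]
        · right
          exact (hP a ha).ge
      · right
        rw [P.ord_pow]
        positivity
  have hrQ : rf (aeval W Q : Polynomial M) = algebraMap M (RatFunc M) c * RatFunc.X ^ l := by
    unfold rf
    rw [hcQ, map_mul, map_pow, RatFunc.algebraMap_X, RatFunc.algebraMap_C]
    rfl
  have hcne : algebraMap M (RatFunc M) c ≠ 0 := by rwa [Ne, map_eq_zero]
  have hordQ : P.ord (rf (aeval W Q : Polynomial M)) = 0 := by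
    rw [hrQ, P.ord_mul hcne (pow_ne_zero _ hXn), hP c hc, P.ord_pow, hl, add_zero]
  have hrQne : rf (aeval W Q : Polynomial M) ≠ 0 := by
    rw [hrQ]
    exact mul_ne_zero hcne (pow_ne_zero _ hXn)
  have hQne : W602.GT.val y Q ≠ 0 := by
    intro h0
    apply hrQne
    rw [rf_zero, ← hF.rel Q ⟨q, hQ⟩]
    exact h0
  have hvi : W602.GT.val y (X i ^ q : MvPolynomial (Fin (n + 1)) k) = y i ^ q := by
    unfold W602.GT.val
    rw [map_pow, aeval_X]
  have hXi : (X i ^ q : MvPolynomial (Fin (n + 1)) k).IsHomogeneous q := by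
    have := (isHomogeneous_X k i).pow q
    rwa [one_mul] at this
  have h1 := hφ q Q (X i ^ q) hQ hXi (by rw [hvi]; exact pow_ne_zero _ hi)
  rw [map_pow, aeval_X, rf_pow, hvi] at h1
  have h2 := hv.2 (W602.GT.val y Q / y i ^ q)
  rw [h1, P.ord_div hrQne (pow_ne_zero _ hWi), hordQ, P.ord_pow,
    v.ord_div hQne (pow_ne_zero _ hi), v.ord_pow] at h2
  have h3 : 0 ≤ P.ord (rf (W i)) := (P.reg_iff hWi).1 (hreg _)
  have h4 : 0 < (e : ℤ) * (v.ord (W602.GT.val y Q) - q * v.ord (y i)) :=
    mul_pos (by exact_mod_cast hv.1) (by linarith)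
  rw [← h2] at h4
  have h5 : 0 ≤ (q : ℤ) * P.ord (rf (W i)) := by positivity
  linarith

theorem deriv_of_delta [CharZero k] {δ : Derivation k (RatFunc M) (RatFunc M)}
    (hδ : ∀ P : Polynomial M, δ (algebraMap (Polynomial M) (RatFunc M) P) =
      RatFunc.X * algebraMap (Polynomial M) (RatFunc M) (Polynomial.derivative P))
    {a b : Polynomial M} (hb : b ≠ 0) (h : δ (rf a / rf b) = 0) :
    Polynomial.derivative a * b = a * Polynomial.derivative b := by
  have hb' : rf b ≠ 0 := by rwa [Ne, rf_zero]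
  have hX : (RatFunc.X : RatFunc M) ≠ 0 := RatFunc.X_ne_zero
  have h1 : δ (rf a) = RatFunc.X * rf (Polynomial.derivative a) := hδ a
  have h2 : δ (rf b) = RatFunc.X * rf (Polynomial.derivative b) := hδ b
  rw [div_eq_mul_inv, δ.leibniz, δ.leibniz_inv, h1, h2] at h
  simp only [smul_eq_mul] at h
  apply rf_inj
  rw [rf_mul, rf_mul]
  field_simp at h
  have h3 : (RatFunc.X : RatFunc M) * (rf (Polynomial.derivative a) * rf b -
      rf a * rf (Polynomial.derivative b)) = 0 := by
    linear_combination h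
  exact sub_eq_zero.1 ((mul_eq_zero.1 h3).resolve_left hX)

theorem ess_of_coords {y : Fin (n + 1) → K} (hgen : coords k y = ⊤) :
    Algebra.EssFiniteType k K := by
  classical
  have hfin : {z : K | ∃ i j, y j ≠ 0 ∧ z = y i / y j}.Finite := by
    refine (Set.finite_range fun p : Fin (n + 1) × Fin (n + 1) => y p.1 / y p.2).subset ?_
    rintro _ ⟨i, j, -, rfl⟩
    exact ⟨(i, j), rfl⟩
  rw [← IntermediateField.fg_top_iff]
  refine ⟨hfin.toFinset, ?_⟩
  rw [Set.Finite.coe_toFinset]
  exact hgen

/-- **Ratios are constant along families.** -/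
theorem Fam.const [CharZero k] {w m : ℕ} (hdim : Algebra.trdeg k K = w)
    (hm : Algebra.trdeg k M = m) (hy : y ≠ 0) (hgen : coords k y = ⊤) (hF : Fam y Q W l) {q : ℕ}
    (hQ : Q.IsHomogeneous q) :
    ∃ (φ : K →ₐ[k] RatFunc M) (δ : Derivation k (RatFunc M) (RatFunc M)),
      (∀ (d : ℕ) (g1 g0 : MvPolynomial (Fin (n + 1)) k),
        g1.IsHomogeneous d → g0.IsHomogeneous d → W602.GT.val y g0 ≠ 0 →
        δ (φ (W602.GT.val y g1 / W602.GT.val y g0)) = 0 →
        Polynomial.derivative (aeval W g1 : Polynomial M) * aeval W g0 =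
          aeval W g1 * Polynomial.derivative (aeval W g0 : Polynomial M)) ∧
      (∀ (p : ℕ) (θ : MultilinearMap K (fun _ : Fin p => Derivation k K K) K) (_ : θ ≠ 0) (N : ℕ)
        (_ : 0 < N) (J : Type) (f : J → K),
        (∀ v : Place k K, Divisorial w v → ∀ D : Fin p → Derivation k K K,
          (∀ i, DerLog v (D i)) → ∀ j, v.Reg (f j * θ D ^ N)) →
        (∀ v : Place k K, Divisorial w v → ¬ Pool.Agent.W603.GR.OffQ Q q y v →
          ∀ D : Fin p → Derivation k K K, (∀ i, DerReg v (D i)) → ∀ j, v.Reg (f j * θ D ^ N)) →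
        ∀ j0 j1 : J, δ (φ (f j1 / f j0)) = 0) ∧
      (l = 0 → (∃ r : K, δ (φ r) ≠ 0) → ∀ (θ : AlternatingMap K (Derivation k K K) K (Fin w))
        (_ : θ ≠ 0) (N : ℕ) (_ : 0 < N) (f : K),
        (∀ v : Place k K, Divisorial w v → ∀ D : Fin w → Derivation k K K,
          (∀ i, DerLog v (D i)) → v.Reg (f * θ D ^ N)) →
        (∀ v : Place k K, Divisorial w v → ¬ Pool.Agent.W603.GR.OffQ Q q y v →
          ∀ D : Fin w → Derivation k K K, (∀ i, DerReg v (D i)) → v.Reg (f * θ D ^ N)) →
        f = 0) := by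
  classical
  obtain ⟨φ, hφ⟩ := hF.emb hy hgen
  obtain ⟨δ, hδ, htop⟩ := exists_delta k M
  have hess : Algebra.EssFiniteType k K := ess_of_coords hgen
  let _ : Algebra K (RatFunc M) := φ.toRingHom.toAlgebra
  have t1 : IsScalarTower k K (RatFunc M) := IsScalarTower.of_algebraMap_eq fun c => by
    change _ = φ (algebraMap k K c)
    rw [φ.commutes]
  have hL : Algebra.trdeg k (RatFunc M) = (m + 1 : ℕ) := trdeg_ratFunc k M hm
  have hX0 : (RatFunc.X : RatFunc M) ≠ 0 := RatFunc.X_ne_zero
  have hX : δ (RatFunc.X : RatFunc M) = RatFunc.X := by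
    have := hδ Polynomial.X
    rwa [RatFunc.algebraMap_X, Polynomial.derivative_X, map_one, mul_one] at this
  have hcM : ∀ c : M, δ (algebraMap M (RatFunc M) c) = 0 := by
    intro c
    have := hδ (Polynomial.C c)
    rw [Polynomial.derivative_C, map_zero, mul_zero, RatFunc.algebraMap_C] at this
    exact this
  obtain ⟨y0, hy0⟩ : ∃ y0 : Fin w → K, IsTranscendenceBasis k y0 := by
    obtain ⟨B, hB⟩ := exists_isTranscendenceBasis k K
    have hcard := hB.cardinalMk_eq_trdeg
    rw [hdim] at hcard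
    have hfin : Finite B := by
      rw [← Cardinal.lt_aleph0_iff_finite, hcard]
      exact Cardinal.natCast_lt_aleph0
    obtain ⟨m', ⟨e⟩⟩ := Finite.exists_equiv_fin B
    obtain rfl : m' = w := by
      rw [Cardinal.mk_congr e, Cardinal.mk_fin] at hcard
      exact_mod_cast hcard
    exact ⟨fun i => (e.symm i : K), hB.comp_equiv e.symm⟩
  choose E hE using fun i => exists_der y0 hy0 (fun j => if i = j then (1 : K) else 0)
  have hD : Dual y0 E := ⟨hy0, hE⟩
  have hbd : ∀ P : Place k (RatFunc M), (∀ c : RatFunc M, δ c = 0 → c ≠ 0 → P.ord c = 0) →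
      0 ≤ P.ord (RatFunc.X : RatFunc M) → l * P.ord (RatFunc.X : RatFunc M) = 0 →
      ∀ (v : Place k K) e, Over P v e → ¬ Pool.Agent.W603.GR.OffQ Q q y v := by
    intro P hP h1 h2 v e hv
    refine hF.bound hQ hφ P (fun c hc => hP _ (hcM c) ?_) h1 h2 v e hv
    rwa [Ne, map_eq_zero]
  refine ⟨φ, δ, ?_, ?_, ?_⟩
  · intro d g1 g0 h1 h0 hn h
    rw [hφ d g1 g0 h1 h0 hn] at h
    refine deriv_of_delta hδ ?_ h
    rw [Ne, ← hF.rel g0 ⟨d, h0⟩]
    exact hn
  · intro p θ hθ N hN J f hlog hreg j0 j1
    exact core_const hdim hL θ hθ hN f hlog hreg hD δ hX0 hX htop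
      (fun P hP h0 v e hv => hbd P hP h0.ge (by rw [h0, mul_zero]) v e hv) j0 j1
  · rintro rfl ⟨r, hr⟩ θ hθ N hN f hlog hreg
    have hθE : θ E ≠ 0 := by
      intro h0
      apply hθ
      ext D
      have h1 : D = fun i => ∑ l, D i (y0 l) • E l := by
        funext i
        exact hD.expand (D i)
      have h2 := theta_expand (θ : MultilinearMap K (fun _ : Fin w => Derivation k K K) K) E
        (fun i l => D i (y0 l))
      rw [← h1] at h2
      change θ D = _ at h2
      rw [h2]
      refine Finset.sum_eq_zero fun J _ => ?_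
      have h3 : θ (fun i => E (J i)) = 0 := by
        by_cases hJ : Function.Injective J
        · have hJ2 : Function.Bijective J := Finite.injective_iff_bijective.1 hJ
          have h4 := θ.map_perm E (Equiv.ofBijective J hJ2)
          change θ (fun i => E (J i)) = _ at h4
          rw [h4, h0, smul_zero]
        · rw [Function.Injective] at hJ
          push Not at hJ
          obtain ⟨a, b, hab, hne⟩ := hJ
          exact θ.map_eq_zero_of_eq _ (by rw [hab]) hne
      change _ * θ (fun i => E (J i)) = 0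
      rw [h3, mul_zero]
    exact core_zero hdim hL θ hN f hlog hreg hD hθE δ hX0 hX htop hr
      (fun P hP h0 v e hv => hbd P hP h0 (by rw [Nat.cast_zero, zero_mul]) v e hv)

end fam

end Pool.Agent.TH143.GT
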