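import Mathlib
import Pool.Agent.TH143.Gen
import Pool.Agent.TH143.GT.Fin

/-!
Holomorphic curves given by linear differential equations over a differential ring, and
pluricanonical forms.
-/

set_option autoImplicit false

namespace Pool.Agent.TH143.GT

open MvPolynomial Metric Set Filter Topology Pool.Agent.TH143
open FF Pool.Agent.W602.GT Pool.Agent.W603.BP

variable {Ω : Set ℂ} {B : Subalgebra ℂ (ℂ → ℂ)}

theorem fam_gen (hΩ : IsOpen Ω) (hΩc : IsPreconnected Ω) (hB : DiffRing Ω B)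
    {N : ℕ} (f : ℂ → Fin (N + 1) → ℂ)
    (hf : ∀ j, AnalyticOnNhd ℂ (fun w => f w j) Ω) (hlin : ∀ j, LinOver Ω B (fun w => f w j))
    (g0 g1 : MvPolynomial (Fin (N + 1)) ℂ) {D : ℕ} (hg0D : g0.IsHomogeneous D)
    (hg1D : g1.IsHomogeneous D) (h0 : ∃ z ∈ Ω, eval (f z) g0 ≠ 0)
    (h1 : ¬ AlgOver Ω B (fun w => eval (f w) g1) (fun w => eval (f w) g0)) :
    ∃ (M : Type) (_ : Field M) (_ : Algebra ℂ M) (m : ℕ), Algebra.trdeg ℂ M = m ∧
      ∃ W : Fin (N + 1) → Polynomial M,
        (∀ G : MvPolynomial (Fin (N + 1)) ℂ, (∃ d, G.IsHomogeneous d) →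
          ((∀ z ∈ Ω, eval (f z) G = 0) ↔ (aeval W G : Polynomial M) = 0)) ∧
        (∃ (c : M) (k : ℕ), c ≠ 0 ∧
          (aeval W (1 : MvPolynomial (Fin (N + 1)) ℂ) : Polynomial M) =
            Polynomial.C c * Polynomial.X ^ k) ∧
        Polynomial.derivative (aeval W g1 : Polynomial M) * aeval W g0 ≠
          aeval W g1 * Polynomial.derivative (aeval W g0 : Polynomial M) := by
  classical
  choose m l a hlB haB hl0 hnorm using fun j => (hlin j).normal
  -- a nonzero product of analytic functions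
  have hprod : ∀ T : Finset (Fin (N + 1)), ∃ z ∈ Ω, (∏ j ∈ T, l j z) ≠ 0 := by
    intro T
    induction T using Finset.induction_on with
    | empty =>
      obtain ⟨z, hz, -⟩ := h0
      exact ⟨z, hz, by simp⟩
    | insert j T hj ih =>
      by_contra hcon
      push Not at hcon
      simp only [Finset.prod_insert hj] at hcon
      have hT : AnalyticOnNhd ℂ (fun z => ∏ j ∈ T, l j z) Ω := by
        intro z hz
        apply Finset.analyticAt_fun_prod
        intro i _
        exact hB.an _ (hlB i) z hz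
      rcases AnalyticOnNhd.eq_zero_or_eq_zero_of_mul_eq_zero (hB.an _ (hlB j)) hT hcon hΩc with h | h
      · obtain ⟨z, hz, hz'⟩ := hl0 j
        exact hz' (h z hz)
      · obtain ⟨z, hz, hz'⟩ := ih
        exact hz' (h z hz)
  let s : ℂ → ℂ := ∏ j, l j
  have hs : ∀ z, s z = ∏ j, l j z := fun z => Finset.prod_apply z _ _
  have hsB : s ∈ B := B.prod_mem fun j _ => hlB j
  obtain ⟨z0, hz0, hsz0⟩ := hprod Finset.univ
  rw [← hs] at hsz0
  have hsan := hB.an s hsB
  -- the system
  let num : Fin (N + 1) → ℕ → ℂ → ℂ := fun j k => a j k * ∏ i ∈ Finset.univ.erase j, l i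
  have hnumB : ∀ j k, num j k ∈ B := fun j k =>
    B.mul_mem (haB j k) (B.prod_mem fun i _ => hlB i)
  have hnum : ∀ j k z, s z ≠ 0 → l j z ≠ 0 ∧ num j k z / s z = a j k z / l j z := by
    intro j k z hz
    have h2 : s z = l j z * ∏ i ∈ Finset.univ.erase j, l i z := by
      rw [hs, Finset.mul_prod_erase _ (fun i => l i z) (Finset.mem_univ j)]
    have h3 : l j z ≠ 0 := fun h => hz (by rw [h2, h, zero_mul])
    have h4 : (∏ i ∈ Finset.univ.erase j, l i z) ≠ 0 := fun h => hz (by rw [h2, h, mul_zero])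
    refine ⟨h3, ?_⟩
    simp only [num, Pi.mul_apply, Finset.prod_apply]
    rw [h2]
    field_simp
  obtain ⟨n, A, y, L, hA, hsys⟩ := exists_system (fun j w => f w j) m
    (fun j k z => num j k z / s z)
  set Ω' := {z ∈ Ω | s z ≠ 0} with hΩ'
  have hΩ'o : IsOpen Ω' := by
    rw [isOpen_iff_mem_nhds]
    intro z hz
    filter_upwards [hΩ.mem_nhds hz.1, (hsan z hz.1).continuousAt.eventually_ne hz.2] with w h2 h3
    exact ⟨h2, h3⟩
  have hsys' : ∀ w ∈ Ω', (∀ i, HasDerivAt (fun w => y w i) (∑ k, A i k w * y w k) w) ∧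
      ∀ j, f w j = ∑ k, L j k * y w k := by
    intro w hw
    apply hsys w (fun j => hf j w hw.1)
    intro j
    rw [hnorm j w hw.1 (hnum j 0 w hw.2).1]
    refine Finset.sum_congr rfl fun k _ => ?_
    rw [(hnum j k w hw.2).2]
  have hAB : ∀ i k, ∃ b ∈ B, ∀ z ∈ Ω', A i k z = b z / s z ^ 1 := by
    intro i k
    obtain ⟨α, ε, j, p, hp⟩ := hA i k
    refine ⟨algebraMap ℂ (ℂ → ℂ) α * s + algebraMap ℂ (ℂ → ℂ) ε * num j p,
      B.add_mem (B.mul_mem (B.algebraMap_mem α) hsB) (B.mul_mem (B.algebraMap_mem ε) (hnumB j p)),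
      fun z hz => ?_⟩
    rw [hp, Pi.add_apply, Pi.mul_apply, Pi.mul_apply]
    have h2 := hz.2
    have h3 : ∀ c : ℂ, (algebraMap ℂ (ℂ → ℂ) c) z = c := fun c => rfl
    rw [h3, h3]
    field_simp
  choose bA hbA hbAe using hAB
  choose! der hderB hder using hB.der
  have hAan : ∀ i k, AnalyticOnNhd ℂ (fun z => bA i k z / s z ^ 1) Ω' := fun i k z hz =>
    (hB.an _ (hbA i k) z hz.1).fun_div ((hsan z hz.1).fun_pow 1) (pow_ne_zero _ hz.2)
  obtain ⟨r, hr, hrS, U, hU, hdet⟩ := exists_fund hΩ'o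
    (fun z => Matrix.of fun i k => bA i k z / s z ^ 1) (fun i k => by
      simpa only [Matrix.of_apply] using hAan i k)
    (show z0 ∈ Ω' from ⟨hz0, hsz0⟩)
  set S := ball z0 r with hS
  have hz0S : z0 ∈ S := mem_ball_self hr
  have hSo : IsOpen S := isOpen_ball
  have hSc : IsPreconnected S := (convex_ball z0 r).isPreconnected
  have hSs : ∀ z ∈ S, s z ≠ 0 := fun z hz => (hrS hz).2
  have hSΩ : S ⊆ Ω := fun z hz => (hrS hz).1
  set c : Fin n → ℂ := Matrix.mulVec (U z0)⁻¹ (y z0) with hc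
  have hyU : ∀ z ∈ S, ∀ i, y z i = ∑ l, U z i l * c l := by
    have h2 := sol_zero (a := z0) (r := r) (fun i k z => bA i k z / s z ^ 1)
      (fun i k => (hAan i k).mono hrS)
      (fun z i => y z i - ∑ l, U z i l * c l) (by
        intro z hz i
        have h3 := (hsys' z (hrS hz)).1 i
        have h4 : HasDerivAt (fun z => ∑ l, U z i l * c l)
            (∑ l, (∑ k, bA i k z / s z ^ 1 * U z k l) * c l) z := by
          apply HasDerivAt.fun_sum
          intro l _
          have h5 := (hU z hz i l).mul_const (c l)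
          rw [Matrix.mul_apply] at h5
          exact h5
        refine (h3.fun_sub h4).congr_deriv ?_
        simp only [hbAe _ _ z (hrS hz), mul_sub, Finset.sum_sub_distrib, Finset.sum_mul,
          Finset.mul_sum]
        congr 1
        rw [Finset.sum_comm]
        refine Finset.sum_congr rfl fun k _ => Finset.sum_congr rfl fun l _ => ?_
        ring) (by
        intro i
        have h6 : ∑ l, U z0 i l * c l = y z0 i := by
          have h7 : Matrix.mulVec (U z0) c = y z0 := by
            rw [hc, Matrix.mulVec_mulVec, Matrix.mul_nonsing_inv _ ((hdet z0 hz0S).isUnit),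
              Matrix.one_mulVec]
          rw [← h7]
          rfl
        rw [h6, sub_self])
    intro z hz i
    exact sub_eq_zero.mp (h2 z hz i)
  -- the coefficients
  let bb : B × ℕ → ℂ → ℂ := fun p z => p.1.1 z / s z ^ p.2
  have hbb : ∀ p, AnalyticOnNhd ℂ (bb p) S := fun p z hz =>
    (hB.an _ p.1.2 z (hSΩ hz)).fun_div ((hsan z (hSΩ hz)).fun_pow _) (pow_ne_zero _ (hSs z hz))
  let dd : B × ℕ → B × ℕ := fun p =>
    (⟨der p.1.1 * s - algebraMap ℂ (ℂ → ℂ) (p.2 : ℂ) * p.1.1 * der s,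
      B.sub_mem (B.mul_mem (hderB _ p.1.2) hsB)
        (B.mul_mem (B.mul_mem (B.algebraMap_mem _) p.1.2) (hderB _ hsB))⟩, p.2 + 1)
  have hdd : ∀ p, ∀ z ∈ S, HasDerivAt (bb p) (bb (dd p) z) z := by
    rintro ⟨b, k⟩ z hz
    have h2 := hder b.1 b.2 z (hSΩ hz)
    have h3 := hder s hsB z (hSΩ hz)
    have h4 := hSs z hz
    refine (h2.fun_div (h3.fun_pow k) (pow_ne_zero k h4)).congr_deriv ?_
    have h5 : ∀ c : ℂ, (algebraMap ℂ (ℂ → ℂ) c) z = c := fun c => rfl
    simp only [bb, dd, Pi.sub_apply, Pi.mul_apply, h5]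
    cases k with
    | zero => simp; field_simp
    | succ k =>
      rw [Nat.add_sub_cancel]
      field_simp
      ring
  let Φ : Fin (N + 1) → MvPolynomial ((B × ℕ) ⊕ (Fin n × Fin n)) ℂ := fun j =>
    ∑ k, ∑ l, MvPolynomial.C (L j k * c l) * X (Sum.inr (k, l))
  have hΦ : ∀ z ∈ S, ∀ j, eval (vv bb U z) (Φ j) = f z j := by
    intro z hz j
    rw [(hsys' z (hrS hz)).2 j]
    simp only [Φ, map_sum, map_mul, eval_C, eval_X, vv, Sum.elim_inr]
    refine Finset.sum_congr rfl fun k _ => ?_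
    rw [hyU z hz k, Finset.mul_sum]
    refine Finset.sum_congr rfl fun l _ => ?_
    ring
  have hFS : ∀ z ∈ S, (fun j => eval (vv bb U z) (Φ j)) = f z := fun z hz => funext (hΦ z hz)
  have hdom : IsDomain (Hol S) := hol_domain hSc ⟨z0, hz0S⟩
  have hg0an : AnalyticOnNhd ℂ (fun w => eval (f w) g0) Ω := eval_an' hf g0
  have hg1an : AnalyticOnNhd ℂ (fun w => eval (f w) g1) Ω := eval_an' hf g1
  obtain ⟨W, hW1, hW2, hW3, hW4⟩ := emb_local hSo hSc ⟨z0, hz0S⟩ bb hbb dd hdd
    (fun i k => (⟨bA i k, hbA i k⟩, 1)) U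
    (fun z hz i j => by
      have := hU z hz i j
      rw [Matrix.mul_apply] at this
      exact this) hdet (locAlg B s hsB S hSs) (fun p => ⟨p.1.1, p.1.2, p.2, fun z => rfl⟩) Φ g0 g1
    hg0D hg1D
    (by
      by_contra hcon
      push Not at hcon
      have h2 : ∀ z ∈ S, eval (f z) g0 = 0 := fun z hz => by rw [← hFS z hz]; exact hcon z hz
      have h3 : (fun w => eval (f w) g0) =ᶠ[𝓝 z0] 0 := by
        filter_upwards [hSo.mem_nhds hz0S] with z hz
        exact h2 z hz
      have h4 := hg0an.eqOn_zero_of_preconnected_of_eventuallyEq_zero hΩc hz0 h3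
      obtain ⟨z, hz, hz'⟩ := h0
      exact hz' (h4 hz))
    (by
      intro m cc hcc
      choose bk hbkB kk hbk using fun k => (cc k).2
      let K := ∑ k ∈ Finset.range (m + 1), kk k
      have hkK : ∀ k ∈ Finset.range (m + 1), kk k ≤ K := fun k hk =>
        Finset.single_le_sum (f := kk) (fun _ _ => Nat.zero_le _) hk
      let c' : ℕ → ℂ → ℂ := fun k => bk k * s ^ (K - kk k)
      have hc'B : ∀ k, c' k ∈ B := fun k => B.mul_mem (hbkB k) (B.pow_mem hsB _)
      have hsubk : ∀ k, AnalyticOnNhd ℂ (c' k) Ω := fun k => hB.an _ (hc'B k)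
      have h2 : ∀ z ∈ S, ∑ k ∈ Finset.range (m + 1),
          c' k z * eval (f z) g1 ^ k * eval (f z) g0 ^ (m - k) = 0 := by
        intro z hz
        have h3 := congrArg (fun x => s z ^ K * x) (hcc ⟨z, hz⟩)
        simp only [mul_zero] at h3
        rw [← h3, Finset.mul_sum]
        refine Finset.sum_congr rfl fun k hk => ?_
        rw [hbk k ⟨z, hz⟩, hFS z hz]
        have h4 := hSs z hz
        simp only [c', Pi.mul_apply, Pi.pow_apply]
        have h5 : s z ^ K = s z ^ (K - kk k) * s z ^ (kk k) := by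
          rw [← pow_add, Nat.sub_add_cancel (hkK k hk)]
        rw [h5]
        field_simp
      have h3 : AnalyticOnNhd ℂ (fun z => ∑ k ∈ Finset.range (m + 1),
          c' k z * eval (f z) g1 ^ k * eval (f z) g0 ^ (m - k)) Ω := by
        intro z hz
        apply Finset.analyticAt_fun_sum
        intro k _
        exact ((hsubk k z hz).fun_mul ((hg1an z hz).fun_pow k)).fun_mul
          ((hg0an z hz).fun_pow _)
      have h4 := h3.eqOn_zero_of_preconnected_of_eventuallyEq_zero hΩc hz0 (by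
        filter_upwards [hSo.mem_nhds hz0S] with z hz
        exact h2 z hz)
      have h5 : ∀ k ≤ m, ∀ z ∈ Ω, c' k z = 0 := by
        intro k hk z hz
        by_contra hnz
        exact h1 ⟨m, c', hc'B, ⟨k, hk, z, hz, hnz⟩, fun z hz => h4 hz⟩
      intro k hk
      apply Subtype.ext
      apply hol_ext
      intro z
      rw [hbk k z]
      have h6 := h5 k hk z (hSΩ z.2)
      have h7 := (mul_eq_zero.mp h6).resolve_right (pow_ne_zero _ (hSs z z.2))
      rw [h7, zero_div]
      rfl)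
    1 (isHomogeneous_one _ _) (0, 0) (fun z hz => by rw [map_one]; exact one_ne_zero)
    (fun z hz => by
      simp only [map_one]
      refine (hasDerivAt_const z (1 : ℂ)).congr_deriv ?_
      simp [bb])
  obtain ⟨M, i1, i2, m, hm, W', h2, h3, h4⟩ := desc W g0 g1 1 hW3 hW4
  refine ⟨M, i1, i2, m, hm, W', fun G hG => ?_, h3, h4⟩
  rw [h2 G]
  constructor
  · intro h
    apply hW1 G hG
    intro z hz
    rw [hFS z hz]
    exact h z (hSΩ hz)
  · intro h
    have h5 : ∀ z ∈ S, eval (f z) G = 0 := by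
      intro z hz
      have h6 := evp_aeval (⟨z, hz⟩ : S) 1 W G
      rw [h, map_zero] at h6
      rw [h6]
      congr 1
      congr 1
      funext j
      rw [evp_one, hW2 j ⟨z, hz⟩, hΦ z hz]
    have h7 := (eval_an' hf G).eqOn_zero_of_preconnected_of_eventuallyEq_zero hΩc hz0 (by
        filter_upwards [hSo.mem_nhds hz0S] with z hz
        exact h5 z hz)
    exact fun z hz => h7 hz

end Pool.Agent.TH143.GT
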