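import Pool.Agent.TH143.Hol
import Pool.Agent.TH143.GT.Fam

/-!
The function field of the Zariski closure of a holomorphic curve.
-/

set_option autoImplicit false

namespace Pool.Agent.TH143.GT

open MvPolynomial Pool.Agent.W602.GT Pool.Agent.TH143

theorem exists_closure {N : ℕ} (f : ℂ → Fin (N + 1) → ℂ) {S : Set ℂ} (hS : IsPreconnected S)
    (hf : ∀ j, AnalyticOnNhd ℂ (fun w => f w j) S) {j0 : Fin (N + 1)}
    (h0 : ∃ z ∈ S, f z j0 ≠ 0) :
    ∃ (K : Type) (_ : Field K) (_ : Algebra ℂ K) (w : ℕ) (y : Fin (N + 1) → K), y ≠ 0 ∧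
      coords ℂ y = ⊤ ∧ Algebra.trdeg ℂ K = w ∧
      (∀ G : MvPolynomial (Fin (N + 1)) ℂ, IsForm G →
        (W602.GT.val y G = 0 ↔ ∀ z ∈ S, eval (f z) G = 0)) ∧
      (w = 0 → ∀ j, ∃ c : ℂ, ∀ z ∈ S, f z j = c * f z j0) := by
  classical
  obtain ⟨z0, hz0, hfz0⟩ := h0
  have hdom : IsDomain (Hol S) := hol_domain hS ⟨z0, hz0⟩
  let F := FractionRing (Hol S)
  let i : Hol S →ₐ[ℂ] F := IsScalarTower.toAlgHom ℂ (Hol S) F
  have hi : Function.Injective i := IsFractionRing.injective (Hol S) F
  let a : Fin (N + 1) → Hol S := fun j => toHol (fun w => f w j) (hf j)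
  have ha : ∀ j (z : S), evz z (a j) = f z j := fun j z => rfl
  have ha0 : a j0 ≠ 0 := by
    intro h
    apply hfz0
    rw [← ha j0 ⟨z0, hz0⟩, h, map_zero]
  have hia0 : i (a j0) ≠ 0 := by rwa [Ne, map_eq_zero_iff i hi]
  let y' : Fin (N + 1) → F := fun j => i (a j) / i (a j0)
  have hy'0 : y' j0 = 1 := div_self hia0
  have hmem : ∀ j, y' j ∈ coords ℂ y' := by
    intro j
    apply IntermediateField.subset_adjoin
    refine ⟨j, j0, by rw [hy'0]; exact one_ne_zero, ?_⟩
    rw [hy'0, div_one]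
  let y : Fin (N + 1) → coords ℂ y' := fun j => ⟨y' j, hmem j⟩
  have hy0 : y j0 = 1 := Subtype.ext hy'0
  have hval : ∀ G : MvPolynomial (Fin (N + 1)) ℂ, ((W602.GT.val y G : coords ℂ y') : F) =
      W602.GT.val y' G := by
    intro G
    have h4 := MvPolynomial.comp_aeval_apply (f := y) (coords ℂ y').val G
    exact h4
  have hgen : coords ℂ y = ⊤ := by
    have h1 : (coords ℂ y).map (coords ℂ y').val = coords ℂ y' := by
      unfold coords
      rw [IntermediateField.adjoin_map]
      congr 1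
      ext z
      constructor
      · rintro ⟨_, ⟨i, j, hj, rfl⟩, rfl⟩
        refine ⟨i, j, fun h => hj (Subtype.ext h), ?_⟩
        rw [map_div₀]
        rfl
      · rintro ⟨i, j, hj, rfl⟩
        exact ⟨y i / y j, ⟨i, j, fun h => hj (congrArg Subtype.val h), rfl⟩, rfl⟩
    apply IntermediateField.map_injective (coords ℂ y').val
    rw [h1]
    ext z
    simp only [IntermediateField.mem_map, IntermediateField.mem_top, true_and]
    constructor
    · intro hz
      exact ⟨⟨z, hz⟩, rfl⟩
    · rintro ⟨x, rfl⟩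
      exact x.2
  have hess : Algebra.EssFiniteType ℂ (coords ℂ y') := ess_of_coords hgen
  obtain ⟨w, hw⟩ := Cardinal.lt_aleph0.1 (trdeg_lt_aleph0 ℂ (coords ℂ y'))
  have hrel : ∀ G : MvPolynomial (Fin (N + 1)) ℂ, IsForm G →
      (W602.GT.val y G = 0 ↔ ∀ z ∈ S, eval (f z) G = 0) := by
    rintro G ⟨d, hG⟩
    have h1 : W602.GT.val y G = 0 ↔ W602.GT.val y' G = 0 := by
      rw [← hval G]
      exact (map_eq_zero_iff (coords ℂ y').val (coords ℂ y').val.injective).symm
    have h2 : i (a j0) ^ d * W602.GT.val y' G = i (aeval a G) := by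
      have h3 : i (aeval a G) = aeval (fun j => i (a j)) G :=
        MvPolynomial.comp_aeval_apply (f := a) i G
      rw [h3]
      refine (Pool.Agent.W603.PV.aeval_scale hG y' (i (a j0))).symm.trans ?_
      congr 2
      funext j
      exact mul_div_cancel₀ _ hia0
    rw [h1]
    have h4 : W602.GT.val y' G = 0 ↔ aeval a G = 0 := by
      rw [← map_eq_zero_iff i hi, ← h2]
      constructor
      · intro h
        rw [h, mul_zero]
      · intro h
        exact (mul_eq_zero.1 h).resolve_left (pow_ne_zero _ hia0)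
    have h5 : ∀ z : S, evz z (aeval a G) = eval (f z) G := by
      intro z
      have h6 := MvPolynomial.comp_aeval_apply (f := a) (evz z) G
      rw [h6, ← MvPolynomial.aeval_eq_eval]
      rfl
    rw [h4]
    constructor
    · intro h z hz
      rw [← h5 ⟨z, hz⟩, h, map_zero]
    · intro h
      apply hol_ext
      intro z
      rw [h5, h z z.2, map_zero]
  refine ⟨coords ℂ y', inferInstance, inferInstance, w, y, ?_, hgen, hw, hrel, ?_⟩
  · exact Function.ne_iff.2 ⟨j0, by rw [hy0]; exact one_ne_zero⟩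
  · intro hw0 j
    rw [hw0, Nat.cast_zero] at hw
    have hw := trdeg_eq_zero_iff.1 hw
    obtain ⟨c, hc⟩ := const_of_algebraic (hw.isAlgebraic (y j))
    refine ⟨c, fun z hz => ?_⟩
    have h1 : W602.GT.val y (X j - C c * X j0) = 0 := by
      unfold W602.GT.val
      rw [map_sub, map_mul, aeval_X, aeval_X, aeval_C, hy0, mul_one, ← hc, sub_self]
    have h2 : (X j - C c * X j0 : MvPolynomial (Fin (N + 1)) ℂ).IsHomogeneous 1 := by
      refine (isHomogeneous_X _ _).sub ?_
      have := (isHomogeneous_C (Fin (N + 1)) c).mul (isHomogeneous_X ℂ j0)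
      rwa [zero_add] at this
    have h3 := (hrel _ ⟨1, h2⟩).1 h1 z hz
    rw [map_sub, map_mul, eval_X, eval_X, eval_C, sub_eq_zero] at h3
    exact h3

end Pool.Agent.TH143.GT
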