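import Pool.Agent.TH143.GT.Pull
import Pool.Agent.Helper26.RG.DualDer
import Pool.Agent.W603.GR.Main

/-!
Forms with logarithmic poles and families of rational curves.
-/

set_option autoImplicit false

open FF IntermediateField Pool.Agent.W602.GT Pool.Agent.W603.LV

namespace Pool.Agent.TH143.GT

section one

variable {k L : Type} [Field k] [Field L] [Algebra k L]

theorem sigma_tr [CharZero k] (δ : Derivation k L L) {σ : L} (hσ0 : σ ≠ 0) (hσ : δ σ = σ) :
    Transcendental (consts δ) σ := by
  intro halg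
  have h1 := Pool.Agent.W603.GR.der_zero_of_alg δ halg
  rw [hσ] at h1
  exact hσ0 h1

/-- a frame of commuting vector fields on a field with a one-parameter group -/
theorem exists_cframe [CharZero k] {n : ℕ} (htr : Algebra.trdeg k L = n) (δ : Derivation k L L)
    {σ : L} (hσ0 : σ ≠ 0) (hσ : δ σ = σ) (htop : (consts δ)⟮σ⟯ = ⊤) :
    ∃ (m : ℕ) (s : Fin m → consts δ) (Δ : Fin (m + 1) → Derivation k L L), n = m + 1 ∧
      IsTranscendenceBasis k s ∧ Δ 0 = δ ∧ (∀ i z, Δ i (δ z) = δ (Δ i z)) ∧
      (∀ l : Fin m, Δ l.succ σ = 0) ∧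
      ∀ D : Derivation k L L, ∃ c : Fin (m + 1) → L, D = ∑ l, c l • Δ l := by
  classical
  set C := consts δ with hC
  have hσt : Transcendental C σ := sigma_tr δ hσ0 hσ
  obtain ⟨B, hB⟩ := exists_isTranscendenceBasis k C
  have hσb : IsTranscendenceBasis C (fun _ : Unit => σ) := by
    have h1 : AlgebraicIndependent C (fun _ : Unit => σ) :=
      (algebraicIndependent_unique_type_iff).2 hσt
    rw [h1.isTranscendenceBasis_iff_isAlgebraic]
    apply alg_adjoin
    have h2 : Set.range (fun _ : Unit => σ) = {σ} := by simp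
    rw [h2, htop]
    infer_instance
  have hBσ := hB.sumElim_comp hσb
  have hcard := hBσ.cardinalMk_eq_trdeg
  rw [htr] at hcard
  have hfin : Finite (Unit ⊕ B) := by
    rw [← Cardinal.lt_aleph0_iff_finite, hcard]
    exact Cardinal.natCast_lt_aleph0
  have hfinB : Finite B := Finite.of_injective (Sum.inr : B → Unit ⊕ B) Sum.inr_injective
  obtain ⟨m, ⟨φ⟩⟩ := Finite.exists_equiv_fin B
  obtain rfl : n = m + 1 := by
    have h1 : Cardinal.mk (Unit ⊕ B) = ((m + 1 : ℕ) : Cardinal) := by
      rw [Cardinal.mk_sum, Cardinal.mk_congr φ]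
      simp [add_comm]
    rw [h1] at hcard
    exact_mod_cast hcard.symm
  let s : Fin m → C := fun l => (φ.symm l : C)
  have hs : IsTranscendenceBasis k s := hB.comp_equiv φ.symm
  let x : Fin (m + 1) → L := Fin.cons σ (fun l => (s l : L))
  have hx : IsTranscendenceBasis k x := by
    let E : Fin (m + 1) ≃ Unit ⊕ B := (finSuccEquiv m).trans ((Equiv.optionEquivSumPUnit _).trans
      ((Equiv.sumComm _ _).trans (Equiv.sumCongr (Equiv.refl _) φ.symm)))
    have h1 := hBσ.comp_equiv E
    convert h1 using 1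
    funext i
    refine Fin.cases ?_ (fun l => ?_) i
    · simp [x, E]
    · simp [x, E, s]
  have hDer : ∀ l : Fin m, ∃ D : Derivation k L L, D σ = 0 ∧
      ∀ j, D (s j : L) = if j = l then 1 else 0 := by
    intro l
    obtain ⟨D, hD⟩ := exists_der x hx (Fin.cons 0 fun j => if j = l then 1 else 0)
    exact ⟨D, hD 0, fun j => hD j.succ⟩
  choose Δ hΔσ hΔs using hDer
  have hδs : ∀ j, δ (s j : L) = 0 := fun j => (s j).2
  have hcomm : ∀ l z, Δ l (δ z) = δ (Δ l z) := by
    intro l z
    have h1 : ⁅Δ l, δ⁆ = 0 := by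
      apply der_ext x hx
      intro i
      rw [Derivation.commutator_apply, Derivation.zero_apply]
      refine Fin.cases ?_ (fun j => ?_) i
      · change Δ l (δ σ) - δ (Δ l σ) = 0
        rw [hσ, hΔσ, map_zero, sub_zero]
      · change Δ l (δ (s j : L)) - δ (Δ l (s j : L)) = 0
        rw [hδs, hΔs, map_zero, zero_sub, neg_eq_zero]
        split_ifs
        · exact δ.map_one_eq_zero
        · exact map_zero _
    have h2 := congrArg (fun d : Derivation k L L => d z) h1
    simp only [Derivation.commutator_apply, Derivation.zero_apply] at h2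
    exact sub_eq_zero.1 h2
  refine ⟨m, s, Fin.cons δ Δ, rfl, hs, rfl, ?_, fun l => hΔσ l, fun D' => ?_⟩
  · intro i z
    refine Fin.cases ?_ (fun l => ?_) i
    · rfl
    · exact hcomm l z
  · refine ⟨Fin.cons (D' σ / σ) fun l => D' (s l : L), ?_⟩
    apply der_ext x hx
    intro q
    rw [der_sum, Fin.sum_univ_succ]
    refine Fin.cases ?_ (fun j => ?_) q
    · change D' σ = (D' σ / σ) * δ σ + ∑ l : Fin m, D' (s l : L) * Δ l σ
      rw [hσ, Finset.sum_eq_zero fun l _ => by rw [hΔσ, mul_zero]]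
      field_simp
      ring
    · change D' (s j : L) = (D' σ / σ) * δ (s j : L) + ∑ l : Fin m, D' (s l : L) * Δ l (s j : L)
      rw [hδs, mul_zero, zero_add]
      simp only [hΔs, mul_ite, mul_one, mul_zero]
      rw [Finset.sum_ite_eq Finset.univ j]
      simp

end one

variable {k K L : Type} [Field k] [Field K] [Field L] [Algebra k K] [Algebra k L] [Algebra K L]
  [IsScalarTower k K L]

theorem exists_ext_der [CharZero k] {w : ℕ} {y : Fin w → K} (hy : AlgebraicIndependent k y) :
    ∃ D : Fin w → Derivation k L L, ∀ i j, D i (algebraMap K L (y j)) = if i = j then 1 else 0 := by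
  have ha : AlgebraicIndependent k (fun i => algebraMap K L (y i)) :=
    hy.map' (f := IsScalarTower.toAlgHom k K L) (algebraMap K L).injective
  obtain ⟨D, hD1, hD2⟩ := H693RF.RG.exists_dual_derivations _ ha
  refine ⟨D, fun i j => ?_⟩
  split_ifs with h
  · rw [h]
    exact hD1 j
  · exact hD2 i j h

theorem pull_smul {p w : ℕ} (θ : MultilinearMap K (fun _ : Fin p => Derivation k K K) K)
    (y : Fin w → K) (E : Fin w → Derivation k K K) (c : Fin p → L)
    (D : Fin p → Derivation k L L) :
    (pull θ y E fun i => c i • D i) = (∏ i, c i) * pull θ y E D := by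
  unfold pull
  rw [Finset.mul_sum]
  refine Finset.sum_congr rfl fun J _ => ?_
  rw [← mul_assoc, ← Finset.prod_mul_distrib]
  rfl

/-- the pull-back of a nonzero form does not vanish on a frame -/
theorem pull_ne [CharZero k] {p w : ℕ} (θ : MultilinearMap K (fun _ : Fin p => Derivation k K K) K)
    (hθ : θ ≠ 0) {y : Fin w → K} {E : Fin w → Derivation k K K} (h : Dual y E) {q : ℕ}
    (Δ : Fin q → Derivation k L L)
    (hspan : ∀ D : Derivation k L L, ∃ c : Fin q → L, D = ∑ l, c l • Δ l) :
    ∃ Q : Fin p → Fin q, pull θ y E (fun i => Δ (Q i)) ≠ 0 := by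
  classical
  obtain ⟨J, hJ⟩ : ∃ J : Fin p → Fin w, θ (fun i => E (J i)) ≠ 0 := by
    by_contra hcon
    push Not at hcon
    apply hθ
    ext D
    have h1 : D = fun i => ∑ l, D i (y l) • E l := by
      funext i
      exact h.expand (D i)
    rw [h1, theta_expand θ E fun i l => D i (y l)]
    exact Finset.sum_eq_zero fun Q _ => by rw [hcon, mul_zero]
  obtain ⟨D, hD⟩ := exists_ext_der (k := k) (L := L) h.1.1
  have h1 := pull_ext (L := L) θ h J (fun i => D (J i)) (fun i j => by
    rw [hD, h.2]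
    split_ifs
    · rw [map_one]
    · rw [map_zero])
  choose c hc using fun i => hspan (D (J i))
  have h2 : (fun i => D (J i)) = fun i => ∑ l, c i l • Δ l := by
    funext i
    exact hc i
  rw [h2, pull_linear] at h1
  by_contra hcon
  push Not at hcon
  rw [Finset.sum_eq_zero fun Q _ => by rw [hcon, mul_zero]] at h1
  exact hJ ((map_eq_zero _).1 h1.symm)

theorem der_zero_of_basis [CharZero k] {w : ℕ} {y : Fin w → K} {E : Fin w → Derivation k K K}
    (h : Dual y E) (δ : Derivation k L L) (hδ : ∀ j, δ (algebraMap K L (y j)) = 0) (f : K) :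
    δ (algebraMap K L f) = 0 := by
  rw [h.chain δ f]
  exact Finset.sum_eq_zero fun j _ => by rw [hδ, zero_mul]

/-- the pull-back of a form of maximal degree does not vanish on a frame which contains a given
vector field -/
theorem pull_ne_top [CharZero k] {w : ℕ}
    (θ : AlternatingMap K (Derivation k K K) K (Fin w))
    {y : Fin w → K} {E : Fin w → Derivation k K K} (h : Dual y E) (hθ : θ E ≠ 0)
    (δ : Derivation k L L) {r : K} (hr : δ (algebraMap K L r) ≠ 0) {q : ℕ}
    (Δ : Fin (q + 1) → Derivation k L L) (hΔ0 : Δ 0 = δ)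
    (hspan : ∀ D : Derivation k L L, ∃ c : Fin (q + 1) → L, D = ∑ l, c l • Δ l) :
    ∃ (Q : Fin w → Fin (q + 1)) (j0 : Fin w), Q j0 = 0 ∧
      pull (θ : MultilinearMap K (fun _ : Fin w => Derivation k K K) K) y E
        (fun i => Δ (Q i)) ≠ 0 := by
  classical
  set θ' := (θ : MultilinearMap K (fun _ : Fin w => Derivation k K K) K) with hθ'
  obtain ⟨j0, hj0⟩ : ∃ j0, δ (algebraMap K L (y j0)) ≠ 0 := by
    by_contra hcon
    push Not at hcon
    exact hr (der_zero_of_basis h δ hcon r)
  obtain ⟨D, hD⟩ := exists_ext_der (k := k) (L := L) h.1.1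
  let D' : Fin w → Derivation k L L := fun i => if i = j0 then δ else D i
  have h1 : pull θ' y E D' = δ (algebraMap K L (y j0)) * algebraMap K L (θ E) := by
    unfold pull
    rw [Finset.sum_eq_single (fun i => i)]
    · congr 1
      rw [Finset.prod_eq_single j0]
      · simp only [D', if_pos]
      · intro i _ hi
        simp only [D', if_neg hi]
        rw [hD, if_pos rfl]
      · intro hn
        exact absurd (Finset.mem_univ _) hn
    · intro J _ hJ
      by_cases hJ1 : ∀ i, i ≠ j0 → J i = i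
      · have hJ2 : J j0 ≠ j0 := by
          intro h0
          apply hJ
          funext i
          by_cases hi : i = j0
          · rw [hi, h0]
          · exact hJ1 i hi
        have h2 : θ' (fun i => E (J i)) = 0 := by
          have h3 : θ (fun i => E (J i)) = 0 := by
            refine θ.map_eq_zero_of_eq _ (i := j0) (j := J j0) ?_ (Ne.symm hJ2)
            rw [hJ1 _ hJ2]
          exact h3
        rw [h2, map_zero, mul_zero]
      · push Not at hJ1
        obtain ⟨i, hi, hiJ⟩ := hJ1
        have h2 : ∏ i, D' i (algebraMap K L (y (J i))) = 0 := by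
          apply Finset.prod_eq_zero (Finset.mem_univ i)
          simp only [D', if_neg hi]
          rw [hD, if_neg (Ne.symm hiJ)]
        rw [h2, zero_mul]
    · intro hn
      exact absurd (Finset.mem_univ _) hn
  choose c hc using fun i => hspan (D i)
  let c' : Fin w → Fin (q + 1) → L := fun i l => if i = j0 then (if l = 0 then 1 else 0) else c i l
  have h2 : D' = fun i => ∑ l, c' i l • Δ l := by
    funext i
    by_cases hi : i = j0
    · simp only [D', c', if_pos hi]
      rw [Finset.sum_eq_single 0]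
      · rw [if_pos rfl, one_smul, hΔ0]
      · intro l _ hl
        rw [if_neg hl, zero_smul]
      · intro hn
        exact absurd (Finset.mem_univ _) hn
    · simp only [D', c', if_neg hi]
      exact hc i
  rw [h2, pull_linear] at h1
  obtain ⟨Q, -, hQ⟩ : ∃ Q ∈ (Finset.univ : Finset (Fin w → Fin (q + 1))),
      (∏ i, c' i (Q i)) * pull θ' y E (fun i => Δ (Q i)) ≠ 0 := by
    apply Finset.exists_ne_zero_of_sum_ne_zero
    rw [h1]
    refine mul_ne_zero hj0 ?_
    rw [Ne, map_eq_zero]
    exact hθ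
  refine ⟨Q, j0, ?_, right_ne_zero_of_mul hQ⟩
  by_contra hQ0
  apply left_ne_zero_of_mul hQ
  apply Finset.prod_eq_zero (Finset.mem_univ j0)
  change (if j0 = j0 then (if Q j0 = 0 then (1 : L) else 0) else c j0 (Q j0)) = 0
  rw [if_pos rfl, if_neg hQ0]

section main

variable [CharZero k] [Algebra.EssFiniteType k K] {p w n : ℕ}
    (hw : Algebra.trdeg k K = w) (hn : Algebra.trdeg k L = n)
    (θ : MultilinearMap K (fun _ : Fin p => Derivation k K K) K) {N : ℕ} (hN : 0 < N) (f : K)
    {Bd : Place k K → Prop}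
    (hlog : ∀ v : Place k K, Divisorial w v → ∀ D : Fin p → Derivation k K K,
      (∀ i, DerLog v (D i)) → v.Reg (f * θ D ^ N))
    (hreg : ∀ v : Place k K, Divisorial w v → ¬ Bd v → ∀ D : Fin p → Derivation k K K,
      (∀ i, DerReg v (D i)) → v.Reg (f * θ D ^ N))
    {y : Fin w → K} {E : Fin w → Derivation k K K} (h : Dual y E)
    (δ : Derivation k L L) {σ : L} (hσ0 : σ ≠ 0) (hσ : δ σ = σ) (htop : (consts δ)⟮σ⟯ = ⊤)
    (hBd : ∀ P : Place k L, (∀ c : L, δ c = 0 → c ≠ 0 → P.ord c = 0) → P.ord σ = 0 →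
      ∀ (v : Place k K) e, Over P v e → ¬ Bd v)

include hw hn hN hlog hreg h hσ0 hσ htop hBd

/-- the values of the pulled-back forms on vector fields commuting with `δ` are constants of `δ` -/
theorem val_const (D : Fin p → Derivation k L L) (hD : ∀ i z, D i (δ z) = δ (D i z)) :
    δ (algebraMap K L f * pull θ y E D ^ N) = 0 := by
  refine spec_const hn (Bd := fun P : Place k L => ∃ (v : Place k K) (e : ℕ), Over P v e ∧ Bd v)
    δ hσ0 hσ htop ?_ D hD ?_ ?_
  · rintro P hP1 hP2 ⟨v, e, hv, hB⟩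
    exact hBd P hP1 hP2 v e hv hB
  · intro P hP hDP
    exact (local_reg hw hn θ hN f hlog hreg h P hP D).1 hDP
  · intro P hP hB hDP
    refine (local_reg hw hn θ hN f hlog hreg h P hP D).2 hDP ?_
    intro v e hv hBv
    exact hB ⟨v, e, hv, hBv⟩

end main

/-- **Ratios of forms are constant along the curves.** -/
theorem core_const [CharZero k] [Algebra.EssFiniteType k K] {p w n : ℕ}
    (hw : Algebra.trdeg k K = w) (hn : Algebra.trdeg k L = n)
    (θ : MultilinearMap K (fun _ : Fin p => Derivation k K K) K) (hθ : θ ≠ 0) {N : ℕ} (hN : 0 < N)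
    {J : Type} (f : J → K) {Bd : Place k K → Prop}
    (hlog : ∀ v : Place k K, Divisorial w v → ∀ D : Fin p → Derivation k K K,
      (∀ i, DerLog v (D i)) → ∀ j, v.Reg (f j * θ D ^ N))
    (hreg : ∀ v : Place k K, Divisorial w v → ¬ Bd v → ∀ D : Fin p → Derivation k K K,
      (∀ i, DerReg v (D i)) → ∀ j, v.Reg (f j * θ D ^ N))
    {y : Fin w → K} {E : Fin w → Derivation k K K} (h : Dual y E)
    (δ : Derivation k L L) {σ : L} (hσ0 : σ ≠ 0) (hσ : δ σ = σ) (htop : (consts δ)⟮σ⟯ = ⊤)
    (hBd : ∀ P : Place k L, (∀ c : L, δ c = 0 → c ≠ 0 → P.ord c = 0) → P.ord σ = 0 →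
      ∀ (v : Place k K) e, Over P v e → ¬ Bd v) (j0 j1 : J) :
    δ (algebraMap K L (f j1 / f j0)) = 0 := by
  by_cases hf0 : f j0 = 0
  · rw [hf0, div_zero, map_zero, map_zero]
  obtain ⟨m, s, Δ, hm, hs, hΔ0, hcomm, hΔσ, hspan⟩ := exists_cframe hn δ hσ0 hσ htop
  obtain ⟨Q, hQ⟩ := pull_ne θ hθ h Δ hspan
  have h0 := val_const hw hn θ hN (f j0) (fun v hv D hD => hlog v hv D hD j0)
    (fun v hv hB D hD => hreg v hv hB D hD j0) h δ hσ0 hσ htop hBd (fun i => Δ (Q i))
    (fun i z => hcomm _ z)
  have h1 := val_const hw hn θ hN (f j1) (fun v hv D hD => hlog v hv D hD j1)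
    (fun v hv hB D hD => hreg v hv hB D hD j1) h δ hσ0 hσ htop hBd (fun i => Δ (Q i))
    (fun i z => hcomm _ z)
  have h2 : algebraMap K L (f j1 / f j0) =
      (algebraMap K L (f j1) * pull θ y E (fun i => Δ (Q i)) ^ N) /
      (algebraMap K L (f j0) * pull θ y E (fun i => Δ (Q i)) ^ N) := by
    have h3 : algebraMap K L (f j0) ≠ 0 := by rwa [Ne, map_eq_zero]
    rw [map_div₀]
    field_simp
  rw [h2, div_eq_mul_inv, δ.leibniz, δ.leibniz_inv, h0, h1]
  simp

/-- **Vanishing.** If moreover the origin `σ = 0` has a centre then forms of maximal degree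
vanish. -/
theorem core_zero [CharZero k] [Algebra.EssFiniteType k K] {w n : ℕ}
    (hw : Algebra.trdeg k K = w) (hn : Algebra.trdeg k L = n)
    (θ : AlternatingMap K (Derivation k K K) K (Fin w)) {N : ℕ} (hN : 0 < N)
    (f : K) {Bd : Place k K → Prop}
    (hlog : ∀ v : Place k K, Divisorial w v → ∀ D : Fin w → Derivation k K K,
      (∀ i, DerLog v (D i)) → v.Reg (f * θ D ^ N))
    (hreg : ∀ v : Place k K, Divisorial w v → ¬ Bd v → ∀ D : Fin w → Derivation k K K,
      (∀ i, DerReg v (D i)) → v.Reg (f * θ D ^ N))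
    {y : Fin w → K} {E : Fin w → Derivation k K K} (h : Dual y E) (hθ : θ E ≠ 0)
    (δ : Derivation k L L) {σ : L} (hσ0 : σ ≠ 0) (hσ : δ σ = σ) (htop : (consts δ)⟮σ⟯ = ⊤)
    {r : K} (hr : δ (algebraMap K L r) ≠ 0)
    (hBd : ∀ P : Place k L, (∀ c : L, δ c = 0 → c ≠ 0 → P.ord c = 0) → 0 ≤ P.ord σ →
      ∀ (v : Place k K) e, Over P v e → ¬ Bd v) :
    f = 0 := by
  classical
  by_contra hf
  obtain ⟨m, s, Δ, hm, hs, hΔ0, hcomm, hΔσ, hspan⟩ := exists_cframe hn δ hσ0 hσ htop
  obtain ⟨Q, j0, hQ0, hQ⟩ := pull_ne_top θ h hθ δ hr Δ hΔ0 hspan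
  set θ' := (θ : MultilinearMap K (fun _ : Fin w => Derivation k K K) K) with hθ'
  set g := pull θ' y E (fun i => Δ (Q i)) with hg
  have h0 := val_const hw hn θ' hN f hlog hreg h δ hσ0 hσ htop
    (fun P h1 h2 => hBd P h1 h2.ge) (fun i => Δ (Q i)) (fun i z => hcomm _ z)
  rw [← hg] at h0
  have hfL : algebraMap K L f ≠ 0 := by rwa [Ne, map_eq_zero]
  have hfg : algebraMap K L f * g ^ N ≠ 0 := mul_ne_zero hfL (pow_ne_zero _ hQ)
  have hσt : Transcendental (consts δ) σ := sigma_tr δ hσ0 hσ
  obtain ⟨S, hS1, hS2⟩ := places (consts δ) hσt htop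
  obtain ⟨P, hP, hPσ⟩ : ∃ P ∈ S, P.ord σ = 1 := by
    by_contra hcon
    push Not at hcon
    have h1 : σ⁻¹ ∈ Algebra.adjoin (consts δ) {σ} := by
      apply hS2
      intro P hP
      obtain ⟨-, -, -, h4⟩ := hS1 P hP
      have h5 : P.ord σ = 0 := h4.resolve_right fun h => hcon P hP h
      exact Or.inr (by rw [P.ord_inv, h5, neg_zero])
    have h2 := adjoin_inter (consts δ) hσt h1 (Algebra.self_mem_adjoin_singleton (consts δ) σ⁻¹)
    have h3 : σ ∈ consts δ := by
      have := inv_mem h2
      rwa [inv_inv] at this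
    have h4 : δ σ = 0 := h3
    rw [hσ] at h4
    exact hσ0 h4
  obtain ⟨hP1, hP2, hP3, -⟩ := hS1 P hP
  have hdiv : Divisorial n P := by
    subst hm
    refine ⟨fun l => (s l : L), fun F hF => ?_⟩
    have h1 : MvPolynomial.aeval (fun l : Fin m => (s l : L)) F =
        ((MvPolynomial.aeval s F : consts δ) : L) := by
      have := MvPolynomial.comp_aeval_apply (IntermediateField.val (consts δ)) (p := F) (f := s)
      exact this.symm
    have h2 : MvPolynomial.aeval s F ≠ 0 := by
      intro h0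
      exact hF ((injective_iff_map_eq_zero _).1 hs.1 F h0)
    have h3 : ((MvPolynomial.aeval s F : consts δ) : L) ≠ 0 := by
      intro h0
      exact h2 (Subtype.ext h0)
    constructor
    · change MvPolynomial.aeval (fun l : Fin m => (s l : L)) F ≠ 0
      rw [h1]; exact h3
    · change P.ord (MvPolynomial.aeval (fun l : Fin m => (s l : L)) F) = 0
      rw [h1]
      exact hP1 _ (MvPolynomial.aeval s F).2 h3
  -- the derivations
  have hmem : ∀ D : Derivation k L L, (∀ c ∈ consts δ, D c ∈ consts δ) →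
      D σ ∈ Algebra.adjoin (consts δ) {σ} → DerReg P D := by
    intro D hDc hDσ
    refine pl_reg (A := (Algebra.adjoin (consts δ) {σ} : Set L)) hP2 hP3 ?_
    intro f hf
    have hf' : f ∈ Algebra.adjoin (consts δ) {σ} := hf
    change D f ∈ Algebra.adjoin (consts δ) {σ}
    clear hf
    induction hf' using Algebra.adjoin_induction with
    | mem z hz =>
      rw [Set.mem_singleton_iff] at hz
      subst hz
      exact hDσ
    | algebraMap r =>
      exact (Algebra.adjoin (consts δ) {σ}).algebraMap_mem (⟨_, hDc _ r.2⟩ : consts δ)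
    | add f g hf' hg' hf hg => rw [map_add]; exact Subalgebra.add_mem _ hf hg
    | mul f g hf' hg' hf hg =>
      rw [D.leibniz]
      exact Subalgebra.add_mem _ (Subalgebra.mul_mem _ hf' hg) (Subalgebra.mul_mem _ hg' hf)
  have hΔreg : ∀ i, DerReg P (Δ i) := by
    intro i
    refine hmem _ ?_ ?_
    · intro c hc
      have h1 : δ c = 0 := hc
      change δ (Δ i c) = 0
      rw [← hcomm, h1, map_zero]
    · refine Fin.cases ?_ (fun l => ?_) i
      · rw [hΔ0, hσ]
        exact Algebra.self_mem_adjoin_singleton _ _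
      · rw [hΔσ]
        exact Subalgebra.zero_mem _
  have hreg0 : DerReg P (σ⁻¹ • δ) := by
    refine hmem _ ?_ ?_
    · intro c hc
      have h1 : δ c = 0 := hc
      change σ⁻¹ * δ c ∈ _
      rw [h1, mul_zero]
      exact zero_mem _
    · change σ⁻¹ * δ σ ∈ _
      rw [hσ, inv_mul_cancel₀ hσ0]
      exact Subalgebra.one_mem _
  let c : Fin w → L := fun i => if i = j0 then σ⁻¹ else 1
  have hcp : ∏ i, c i = σ⁻¹ := by
    rw [Finset.prod_eq_single j0]
    · simp only [c, if_true]
    · intro i _ hi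
      simp only [c, if_neg hi]
    · intro hn
      exact absurd (Finset.mem_univ _) hn
  have h1 := (local_reg hw hn θ' hN f hlog hreg h P hdiv (fun i => c i • Δ (Q i))).2 (by
    intro i
    by_cases hi : i = j0
    · simp only [c, if_pos hi]
      rw [hi, hQ0, hΔ0]
      exact hreg0
    · simp only [c, if_neg hi, one_smul]
      exact hΔreg _) (fun v e hv => hBd P hP1 (by rw [hPσ]; norm_num) v e hv)
  rw [pull_smul, hcp, ← hg, mul_pow] at h1
  have h2 : algebraMap K L f * (σ⁻¹ ^ N * g ^ N) = σ⁻¹ ^ N * (algebraMap K L f * g ^ N) := by ring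
  rw [h2, P.reg_iff (mul_ne_zero (pow_ne_zero _ (inv_ne_zero hσ0)) hfg),
    P.ord_mul (pow_ne_zero _ (inv_ne_zero hσ0)) hfg, P.ord_pow, P.ord_inv, hPσ,
    hP1 _ h0 hfg] at h1
  omega

end Pool.Agent.TH143.GT
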