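import Pool.Agent.TH143.GT.Punc

/-!
Entire curves given by linear differential equations, and forms with logarithmic poles.
-/

set_option autoImplicit false

namespace Pool.Agent.TH143.GT

open MvPolynomial Metric Set Filter Topology FF Pool.Agent.W602.GT Pool.Agent.TH143
  Pool.Agent.W603.BP

theorem poly_const {a b : Polynomial ℂ}
    (h : Polynomial.derivative a * b = a * Polynomial.derivative b) (s t : ℂ) :
    a.eval s * b.eval t = a.eval t * b.eval s := by
  classical
  by_cases hb : b = 0
  · rw [hb, Polynomial.eval_zero, Polynomial.eval_zero, mul_zero, mul_zero]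
  set g := gcd a b with hg
  have hg0 : g ≠ 0 := gcd_ne_zero_of_right hb
  obtain ⟨a0, ha0⟩ : g ∣ a := gcd_dvd_left a b
  obtain ⟨b0, hb0⟩ : g ∣ b := gcd_dvd_right a b
  have hc : IsCoprime a0 b0 := by
    have h1 := isCoprime_div_gcd_div_gcd (p := a) hb
    rw [← hg] at h1
    rwa [ha0, hb0, mul_div_cancel_left₀ _ hg0, mul_div_cancel_left₀ _ hg0] at h1
  have h1 : Polynomial.wronskian a0 b0 = 0 := by
    have h2 : g ^ 2 * Polynomial.wronskian a0 b0 = 0 := by
      unfold Polynomial.wronskian
      rw [ha0, hb0, Polynomial.derivative_mul, Polynomial.derivative_mul] at h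
      linear_combination -h
    exact (mul_eq_zero.1 h2).resolve_left (pow_ne_zero _ hg0)
  rw [hc.wronskian_eq_zero_iff] at h1
  obtain ⟨α, hα⟩ := Polynomial.natDegree_eq_zero.1
    (Polynomial.derivative_eq_zero.1 h1.1)
  obtain ⟨β, hβ⟩ := Polynomial.natDegree_eq_zero.1
    (Polynomial.derivative_eq_zero.1 h1.2)
  rw [ha0, hb0, ← hα, ← hβ]
  simp only [Polynomial.eval_mul, Polynomial.eval_C]
  ring

section emb

variable {k K L : Type} [Field k] [Field K] [Field L] [Algebra k K] [Algebra k L] {n : ℕ}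

theorem emb_gen {y : Fin (n + 1) → K} {y' : Fin (n + 1) → L} (hy : y ≠ 0)
    (hgen : coords k y = ⊤) (h : ∀ G : MvPolynomial (Fin (n + 1)) k, IsForm G →
      (W602.GT.val y G = 0 ↔ W602.GT.val y' G = 0)) :
    ∃ φ : K →ₐ[k] L, ∀ (d : ℕ) (g1 g0 : MvPolynomial (Fin (n + 1)) k),
      g1.IsHomogeneous d → g0.IsHomogeneous d → W602.GT.val y g0 ≠ 0 →
      φ (W602.GT.val y g1 / W602.GT.val y g0) = W602.GT.val y' g1 / W602.GT.val y' g0 := by
  obtain ⟨i0, hi0⟩ := Function.ne_iff.1 hy
  have hi0' : y i0 ≠ 0 := hi0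
  have hW0 : y' i0 ≠ 0 := by
    intro h0
    apply hi0'
    have h1 := h (X i0) ⟨1, isHomogeneous_X _ _⟩
    unfold W602.GT.val at h1
    rw [aeval_X, aeval_X] at h1
    exact h1.2 h0
  obtain ⟨φ, hφ⟩ := exists_embedding (L := L) (y' := y') hi0' hW0 hgen h
  refine ⟨φ, fun d g1 g0 h1 h0 hn => ?_⟩
  have hφv : ∀ G : MvPolynomial (Fin (n + 1)) k, φ (aeval (fun j => y j / y i0) G) =
      aeval (fun j => y' j / y' i0) G := by
    intro G
    have h2 := MvPolynomial.comp_aeval_apply (f := fun j => y j / y i0) φ G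
    rw [h2]
    congr 2
    funext j
    exact hφ j
  have hyd : y i0 ^ d ≠ 0 := pow_ne_zero _ hi0'
  have hWd : y' i0 ^ d ≠ 0 := pow_ne_zero _ hW0
  rw [val_scale hi0' h1, val_scale hi0' h0, mul_div_mul_left _ _ hyd, map_div₀, hφv, hφv,
    val_scale (z := y') hW0 h1, val_scale (z := y') hW0 h0, mul_div_mul_left _ _ hWd]

end emb

variable {N : ℕ} {K : Type} [Field K] [Algebra ℂ K] {w : ℕ} {y : Fin (N + 1) → K}
  {Q : MvPolynomial (Fin (N + 1)) ℂ} {q : ℕ} {f : ℂ → Fin (N + 1) → ℂ}

theorem an_inv (hf : ∀ j, Differentiable ℂ (fun z => f z j)) (j : Fin (N + 1)) :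
    AnalyticOnNhd ℂ (fun w => f w⁻¹ j) (PB 1) := by
  intro w hw
  have h1 : AnalyticAt ℂ (fun z => f z j) w⁻¹ := (hf j).analyticAt _
  exact AnalyticAt.comp (g := fun z => f z j) (f := fun w : ℂ => w⁻¹) h1 (analyticAt_inv hw.1)

/-- the closure of an entire curve does not change near infinity -/
theorem GenPt.inv (hf : ∀ j, Differentiable ℂ (fun z => f z j)) (hy : GenPt f univ K w y) :
    GenPt (fun w => f w⁻¹) (PB 1) K w y := by
  refine ⟨hy.ne, hy.gen, hy.dim, fun G hG => (hy.rel G hG).trans ?_⟩
  constructor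
  · intro h z _
    exact h _ (mem_univ _)
  · intro h
    obtain ⟨z0, hz0⟩ := PB_nonempty one_pos
    have han := eval_an' (S := univ) (fun j z _ => (hf j).analyticAt z) G
    have h1 : (fun z => eval (f z) G) =ᶠ[𝓝 z0⁻¹] 0 := by
      have h2 : ∀ᶠ z in 𝓝 z0⁻¹, z⁻¹ ∈ PB 1 := by
        have h3 : ContinuousAt (fun z : ℂ => z⁻¹) z0⁻¹ := continuousAt_inv₀ (inv_ne_zero hz0.1)
        exact h3.eventually_mem ((PB_open 1).mem_nhds (by rw [inv_inv]; exact hz0))
      filter_upwards [h2] with z hz
      have := h z⁻¹ hz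
      rwa [inv_inv] at this
    exact fun z _ => han.eqOn_zero_of_preconnected_of_eventuallyEq_zero isPreconnected_univ
      (mem_univ _) h1 (mem_univ z)

/-- **Entire curves give families of rational curves.** -/
theorem fam_of_entire (hy : GenPt f univ K w y) (hf : ∀ j, Differentiable ℂ (fun z => f z j))
    (hne : ∀ z, f z ≠ 0) (hlin : LinSys (fun w => f w⁻¹)) (hQe : Q.IsHomogeneous q)
    (hQ : ∀ z, eval (f z) Q ≠ 0) (hnc : ∃ z w j k, f z j * f w k ≠ f z k * f w j) :
    ∃ r : K, ¬ AllFlat Q y r := by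
  by_cases hext : Extends (fun w => f w⁻¹)
  · obtain ⟨u, P, hu, hfP⟩ := rational_of_extends f hf hne hext
    have hfu : ∀ x, f x = fun j => u x * (P j).eval x := fun x => funext (hfP x)
    have hPe : ∀ (G : MvPolynomial (Fin (N + 1)) ℂ) (x : ℂ),
        (aeval P G : Polynomial ℂ).eval x = eval (fun j => (P j).eval x) G := by
      intro G x
      have h2 : (aeval P G : Polynomial ℂ).eval x
          = (Polynomial.aeval x : Polynomial ℂ →ₐ[ℂ] ℂ) (aeval P G) := by
        rw [Polynomial.coe_aeval_eq_eval]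
      rw [h2, comp_aeval_apply, ← aeval_eq_eval]
      rfl
    have hfe : ∀ (G : MvPolynomial (Fin (N + 1)) ℂ) (d : ℕ), G.IsHomogeneous d → ∀ x,
        eval (f x) G = u x ^ d * (aeval P G : Polynomial ℂ).eval x := by
      intro G d hG x
      rw [hfu, eval_smul_homog hG, hPe]
    -- the boundary
    have hQP : ∀ x, (aeval P Q : Polynomial ℂ).eval x ≠ 0 := by
      intro x h0
      apply hQ x
      rw [hfe Q q hQe, h0, mul_zero]
    have hQc : ∃ c : ℂ, c ≠ 0 ∧ (aeval P Q : Polynomial ℂ) = Polynomial.C c * Polynomial.X ^ 0 := by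
      have h1 : (aeval P Q : Polynomial ℂ).degree = 0 := by
        by_contra hdeg
        obtain ⟨x, hx⟩ := IsAlgClosed.exists_root _ hdeg
        exact hQP x hx
      have h2 := Polynomial.eq_C_of_degree_eq_zero h1
      refine ⟨(aeval P Q : Polynomial ℂ).coeff 0, ?_, by rw [pow_zero, mul_one]; exact h2⟩
      intro h0
      rw [h0, Polynomial.C_0] at h2
      apply hQP 0
      rw [h2, Polynomial.eval_zero]
    have hF : Fam y Q P 0 := by
      refine ⟨?_, hQc⟩
      rintro G ⟨d, hG⟩
      rw [hy.rel G ⟨d, hG⟩]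
      constructor
      · intro h
        apply Polynomial.funext
        intro x
        have h1 := h x (mem_univ x)
        rw [hfe G d hG] at h1
        rw [Polynomial.eval_zero]
        exact (mul_eq_zero.1 h1).resolve_left (pow_ne_zero _ (hu x))
      · intro h x _
        rw [hfe G d hG, h, Polynomial.eval_zero, mul_zero]
    obtain ⟨s, t, j, k, hst⟩ := hnc
    have hk : ∃ k', f s k' ≠ 0 := Function.ne_iff.1 (hne s)
    by_contra hall
    push Not at hall
    -- all quotients are constant
    have hW : ∀ i i', (P i).eval s * (P i').eval t = (P i).eval t * (P i').eval s := by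
      intro i i'
      by_cases hi' : y i' = 0
      · have h1 : P i' = 0 := by
          by_contra h2
          exact ((hF.ne i').2 h2) hi'
        rw [h1, Polynomial.eval_zero, Polynomial.eval_zero, mul_zero, mul_zero]
      · have h1 := hall (y i / y i') ℂ 0 P 0 (by
          rw [Nat.cast_zero]
          exact trdeg_eq_zero_iff.2 inferInstance) hF 1 (X i) (X i') (isHomogeneous_X _ _)
          (isHomogeneous_X _ _) (by rw [val_X]; exact hi') (by rw [val_X, val_X])
        rw [aeval_X, aeval_X] at h1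
        exact poly_const h1 s t
    apply hst
    rw [hfP, hfP, hfP, hfP]
    linear_combination (u s * u t) * hW j k
  · exact fam_of_ess (hy.inv hf) (an_inv hf) (fun w _ => hne _) hlin hQe (fun w _ => hQ _) hext

theorem trdeg_simple {F : Type} [Field F] [Algebra ℂ F] (t : F) :
    Algebra.trdeg ℂ (IntermediateField.adjoin ℂ {t}) ≤ 1 := by
  classical
  let E := IntermediateField.adjoin ℂ {t}
  have htE : t ∈ E := IntermediateField.mem_adjoin_simple_self ℂ t
  by_cases ht : IsAlgebraic ℂ t
  · have h1 : Algebra.IsAlgebraic ℂ E := IntermediateField.isAlgebraic_adjoin_simple ht.isIntegral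
    have h2 : Algebra.trdeg ℂ E = 0 := trdeg_eq_zero_iff.2 h1
    change Algebra.trdeg ℂ E ≤ 1
    rw [h2]
    exact zero_le_one
  · have htop : IntermediateField.adjoin ℂ {(⟨t, htE⟩ : E)} = ⊤ := by
      apply IntermediateField.map_injective E.val
      rw [IntermediateField.adjoin_map, Set.image_singleton]
      ext z
      simp only [IntermediateField.mem_map, IntermediateField.mem_top, true_and]
      constructor
      · intro hz
        exact ⟨⟨z, hz⟩, rfl⟩
      · rintro ⟨x, rfl⟩
        exact x.2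
    have htr : Transcendental ℂ (⟨t, htE⟩ : E) := by
      intro h
      exact ht (h.algebraMap (A := F))
    have hb : IsTranscendenceBasis ℂ (fun _ : Unit => (⟨t, htE⟩ : E)) := by
      have h1 : AlgebraicIndependent ℂ (fun _ : Unit => (⟨t, htE⟩ : E)) :=
        (algebraicIndependent_unique_type_iff).2 htr
      rw [h1.isTranscendenceBasis_iff_isAlgebraic]
      apply alg_adjoin
      have h2 : Set.range (fun _ : Unit => (⟨t, htE⟩ : E)) = {⟨t, htE⟩} := by simp
      rw [h2, htop]
      infer_instance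
    have h3 := hb.cardinalMk_eq_trdeg
    rw [← h3]
    simp

/-- **Rational functions along an entire curve.** Two functions which are constant along all
families of rational curves are algebraically dependent. -/
theorem two_flat (hy : GenPt f univ K w y) (hf : ∀ j, Differentiable ℂ (fun z => f z j))
    (hlin : LinSys (fun w => f w⁻¹)) (hQe : Q.IsHomogeneous q)
    (hQ : ∀ z, eval (f z) Q ≠ 0) (r : Fin 2 → K) (hr : ∀ i, AllFlat Q y (r i)) :
    ¬ AlgebraicIndependent ℂ r := by
  classical
  intro hind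
  have hdom : IsDomain (Hol univ) := hol_domain isPreconnected_univ univ_nonempty
  let F := FractionRing (Hol univ)
  let i : Hol univ →ₐ[ℂ] F := IsScalarTower.toAlgHom ℂ (Hol univ) F
  have hi : Function.Injective i := IsFractionRing.injective (Hol univ) F
  have hfa : ∀ j, AnalyticOnNhd ℂ (fun w => f w j) univ := fun j z _ => (hf j).analyticAt z
  let a : Fin (N + 1) → Hol univ := fun j => toHol (fun w => f w j) (hfa j)
  let Z : Hol univ := toHol (fun w => w) (fun z _ => analyticAt_id)
  have haG : ∀ (G : MvPolynomial (Fin (N + 1)) ℂ) (z : (univ : Set ℂ)),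
      evz z (aeval a G) = eval (f z) G := by
    intro G z
    have h6 := MvPolynomial.comp_aeval_apply (f := a) (evz z) G
    rw [h6, ← MvPolynomial.aeval_eq_eval]
    rfl
  have hZP : ∀ (P : Polynomial ℂ) (z : (univ : Set ℂ)),
      evz z (Polynomial.aeval Z P) = P.eval (z : ℂ) := by
    intro P z
    rw [← Polynomial.aeval_algHom_apply, Polynomial.aeval_def, Polynomial.eval₂_eq_eval_map]
    congr 1
    exact Polynomial.map_id
  have hval : ∀ G : MvPolynomial (Fin (N + 1)) ℂ, W602.GT.val (fun j => i (a j)) G =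
      i (aeval a G) := fun G => (MvPolynomial.comp_aeval_apply (f := a) i G).symm
  have hrel : ∀ G : MvPolynomial (Fin (N + 1)) ℂ, aeval a G = 0 ↔ ∀ z ∈ univ, eval (f z) G = 0 := by
    intro G
    constructor
    · intro h z hz
      rw [← haG G ⟨z, hz⟩, h, map_zero]
    · intro h
      apply hol_ext
      intro z
      rw [haG, h z z.2, map_zero]
  obtain ⟨φ, hφ⟩ := emb_gen (L := F) (y' := fun j => i (a j)) hy.ne hy.gen (by
    intro G hG
    rw [hval, map_eq_zero_iff i hi, hrel]
    exact hy.rel G hG)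
  let E := IntermediateField.adjoin ℂ {i Z}
  have hE : ∀ j, φ (r j) ∈ E := by
    intro j
    obtain ⟨d, g1, g0, h1, h0, hn, hrj⟩ := exists_frac hy.gen (r j)
    have hm := mrel_of_flat (hy.inv hf) (an_inv hf) hlin hQe (fun w _ => hQ _) h0 h1 hn
      (by rw [← hrj]; exact hr j)
    have hd : ∀ G : MvPolynomial (Fin (N + 1)) ℂ, Differentiable ℂ (fun z => eval (f z) G) :=
      fun G z => ((eval_an' (S := univ) hfa G) z (mem_univ z)).differentiableAt
    have hg0 : aeval a g0 ≠ 0 := by
      intro h
      exact hn ((hy.rel g0 ⟨d, h0⟩).2 ((hrel g0).1 h))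
    obtain ⟨A, B, hA, hAB⟩ := rational_of_mrel (hd g1) (hd g0) (by
      by_contra hcon
      push Not at hcon
      exact hg0 ((hrel g0).2 fun z _ => hcon z)) hm
    have h2 : Polynomial.aeval Z A * aeval a g1 = Polynomial.aeval Z B * aeval a g0 := by
      apply hol_ext
      intro z
      rw [map_mul, map_mul, hZP, hZP, haG, haG]
      exact hAB z
    have hA0 : Polynomial.aeval Z A ≠ 0 := by
      intro h
      apply hA
      apply Polynomial.funext
      intro x
      rw [← hZP A ⟨x, mem_univ x⟩, h, map_zero, Polynomial.eval_zero]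
    have hiA : i (Polynomial.aeval Z A) ≠ 0 := by rwa [Ne, map_eq_zero_iff i hi]
    have hig : i (aeval a g0) ≠ 0 := by rwa [Ne, map_eq_zero_iff i hi]
    have h3 : φ (r j) = Polynomial.aeval (i Z) B / Polynomial.aeval (i Z) A := by
      rw [hrj, hφ d g1 g0 h1 h0 hn, hval, hval, Polynomial.aeval_algHom_apply,
        Polynomial.aeval_algHom_apply, div_eq_div_iff hig hiA, ← map_mul, ← map_mul]
      congr 1
      rw [mul_comm, h2]
    rw [h3]
    have h4 : ∀ P : Polynomial ℂ, Polynomial.aeval (i Z) P ∈ E := by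
      intro P
      have h5 : i Z ∈ E := IntermediateField.mem_adjoin_simple_self ℂ _
      have h6 := (Polynomial.aeval (⟨i Z, h5⟩ : E) P).2
      have h7 : ((Polynomial.aeval (⟨i Z, h5⟩ : E) P : E) : F) = Polynomial.aeval (i Z) P := by
        have := Polynomial.aeval_algHom_apply E.val (⟨i Z, h5⟩ : E) P
        exact this.symm
      rwa [h7] at h6
    exact div_mem (h4 B) (h4 A)
  have h1 : AlgebraicIndependent ℂ (fun j => (⟨φ (r j), hE j⟩ : E)) := by
    have h2 : AlgebraicIndependent ℂ (fun j => φ (r j)) := hind.map' (f := φ) φ.injective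
    exact AlgebraicIndependent.of_comp E.val (x := fun j => (⟨φ (r j), hE j⟩ : E)) h2
  have h2 := h1.cardinalMk_le_trdeg
  have h3 := h2.trans (trdeg_simple (i Z))
  rw [Cardinal.mk_fin] at h3
  exact absurd h3 (by norm_num)

end Pool.Agent.TH143.GT
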