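import Mathlib
import Pool.Agent.TH143.Global
import Pool.Agent.TH143.GT.Emb
import Pool.Agent.TH143.GT.Desc

/-!
The family of rational curves through the points of a curve given by linear differential equations
on a punctured disc, over a finitely generated field.
-/

set_option autoImplicit false

namespace Pool.Agent.TH143.GT

open MvPolynomial Metric Set Filter Topology Pool.Agent.W603.BP Pool.Agent.TH143

theorem eval_an' {N : ℕ} {f : ℂ → Fin (N + 1) → ℂ} {S : Set ℂ}
    (hf : ∀ j, AnalyticOnNhd ℂ (fun w => f w j) S) (G : MvPolynomial (Fin (N + 1)) ℂ) :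
    AnalyticOnNhd ℂ (fun w => eval (f w) G) S := by
  intro w hw
  have : (fun w => eval (f w) G) = fun w => ∑ α ∈ G.support, G.coeff α * ∏ j, f w j ^ α j := by
    funext w
    rw [eval_eq']
  rw [this]
  apply Finset.analyticAt_fun_sum
  intro α _
  apply analyticAt_const.fun_mul
  apply Finset.analyticAt_fun_prod
  intro j _
  exact (hf j w hw).fun_pow _

theorem fam_global {N : ℕ} (f : ℂ → Fin (N + 1) → ℂ)
    (hf : ∀ j, AnalyticOnNhd ℂ (fun w => f w j) (PB 1)) (hlin : LinSys f)
    (Q : MvPolynomial (Fin (N + 1)) ℂ) {e : ℕ} (hQe : Q.IsHomogeneous e)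
    (hQ : ∀ w ∈ PB 1, eval (f w) Q ≠ 0)
    (g0 g1 : MvPolynomial (Fin (N + 1)) ℂ) {D : ℕ} (hg0D : g0.IsHomogeneous D)
    (hg1D : g1.IsHomogeneous D) (h0 : Nz (fun w => eval (f w) g0))
    (h1 : ¬ MRel (fun w => eval (f w) g1) (fun w => eval (f w) g0)) :
    ∃ (M : Type) (_ : Field M) (_ : Algebra ℂ M) (m : ℕ), Algebra.trdeg ℂ M = m ∧
      ∃ W : Fin (N + 1) → Polynomial M,
        (∀ G : MvPolynomial (Fin (N + 1)) ℂ, (∃ d, G.IsHomogeneous d) →
          ((∀ z ∈ PB 1, eval (f z) G = 0) ↔ (aeval W G : Polynomial M) = 0)) ∧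
        (∃ (c : M) (k : ℕ), c ≠ 0 ∧
          (aeval W Q : Polynomial M) = Polynomial.C c * Polynomial.X ^ k) ∧
        Polynomial.derivative (aeval W g1 : Polynomial M) * aeval W g0 ≠
          aeval W g1 * Polynomial.derivative (aeval W g0 : Polynomial M) := by
  classical
  obtain ⟨n, A, y, L, hA, hy, hfL⟩ := hlin
  have hAan : ∀ᶠ w in 𝓝[≠] (0 : ℂ), ∀ i k, AnalyticAt ℂ (A i k) w := by
    rw [eventually_all]
    intro i
    rw [eventually_all]
    intro k
    exact Pun.mero (hA i k)
  -- the logarithmic derivative of `Q (f)`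
  have hqan : AnalyticOnNhd ℂ (fun w => eval (f w) Q) (PB 1) := eval_an' hf Q
  have hg0an : AnalyticOnNhd ℂ (fun w => eval (f w) g0) (PB 1) := eval_an' hf g0
  have hg1an : AnalyticOnNhd ℂ (fun w => eval (f w) g1) (PB 1) := eval_an' hf g1
  obtain ⟨C, K, hC, hgr⟩ := growth_sol A hA y hy
  have hfgr : ∀ j, Grow (fun w => f w j) := by
    intro j
    have h2 : Grow (fun w => ∑ k, L j k * y w k) := Grow.sum _ fun k _ =>
      (Grow.const _).mul ⟨C, K, hC, by filter_upwards [hgr] with w hw using hw k⟩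
    exact h2.congr (by filter_upwards [hfL] with w hw using hw j)
  obtain ⟨C', K', hC', hgrQ⟩ := Grow.eval hfgr Q
  obtain ⟨b, hb, hbd⟩ := logderiv_mero hqan hQ hC' hgrQ
  obtain ⟨δ0, hδ0, hall⟩ := ev_iff.mp (((hy.and hfL).and hAan).and (hbd.and (Pun.mero hb)))
  set δ := min δ0 1 with hδ
  have hδpos : 0 < δ := by positivity
  have hδ1 : PB δ ⊆ PB 1 := PB_mono (min_le_right _ _)
  have hδ0' : PB δ ⊆ PB δ0 := PB_mono (min_le_left _ _)
  obtain ⟨z0, hz0⟩ := PB_nonempty hδpos
  -- the coefficients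
  let bb : Coef δ → ℂ → ℂ := fun b => b.1
  let dd : Coef δ → Coef δ := fun b => ⟨deriv b.1, b.2.1.deriv, b.2.2.deriv⟩
  let AA : Fin n → Fin n → Coef δ := fun i k =>
    ⟨A i k, fun w hw => (hall w (hδ0' hw)).1.2 i k, hA i k⟩
  let iq : Coef δ := ⟨b, fun w hw => (hall w (hδ0' hw)).2.2, hb⟩
  -- fundamental matrix
  obtain ⟨r, hr, hrS, U, hU, hdet⟩ := exists_fund (PB_open δ) (fun z => Matrix.of fun i k => A i k z)
    (fun i k w hw => (hall w (hδ0' hw)).1.2 i k) hz0
  set S := ball z0 r with hS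
  have hz0S : z0 ∈ S := mem_ball_self hr
  have hSo : IsOpen S := isOpen_ball
  have hSc : IsPreconnected S := (convex_ball z0 r).isPreconnected
  set c : Fin n → ℂ := Matrix.mulVec (U z0)⁻¹ (y z0) with hc
  have hyU : ∀ z ∈ S, ∀ i, y z i = ∑ l, U z i l * c l := by
    have h2 := sol_zero (a := z0) (r := r) A
      (fun i k w hw => (hall w (hδ0' (hrS hw))).1.2 i k)
      (fun z i => y z i - ∑ l, U z i l * c l) (by
        intro z hz i
        have h3 := (hall z (hδ0' (hrS hz))).1.1.1 i
        have h4 : HasDerivAt (fun z => ∑ l, U z i l * c l)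
            (∑ l, (∑ k, A i k z * U z k l) * c l) z := by
          apply HasDerivAt.fun_sum
          intro l _
          have h5 := (hU z hz i l).mul_const (c l)
          rw [Matrix.mul_apply] at h5
          exact h5
        refine (h3.fun_sub h4).congr_deriv ?_
        simp only [mul_sub, Finset.sum_sub_distrib, Finset.sum_mul, Finset.mul_sum]
        congr 1
        rw [Finset.sum_comm]
        refine Finset.sum_congr rfl fun k _ => Finset.sum_congr rfl fun l _ => ?_
        ring) (by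
        intro i
        have h6 : ∑ l, U z0 i l * c l = y z0 i := by
          have h7 : Matrix.mulVec (U z0) c = y z0 := by
            rw [hc, Matrix.mulVec_mulVec, Matrix.mul_nonsing_inv _ ((hdet z0 hz0S).isUnit),
              Matrix.one_mulVec]
          rw [← h7]
          rfl
        rw [h6, sub_self])
    intro z hz i
    exact sub_eq_zero.mp (h2 z hz i)
  let Φ : Fin (N + 1) → MvPolynomial (Coef δ ⊕ (Fin n × Fin n)) ℂ := fun j =>
    ∑ k, ∑ l, MvPolynomial.C (L j k * c l) * X (Sum.inr (k, l))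
  have hΦ : ∀ z ∈ S, ∀ j, eval (vv bb U z) (Φ j) = f z j := by
    intro z hz j
    rw [(hall z (hδ0' (hrS hz))).1.1.2 j]
    simp only [Φ, map_sum, map_mul, eval_C, eval_X, vv, Sum.elim_inr]
    refine Finset.sum_congr rfl fun k _ => ?_
    rw [hyU z hz k, Finset.mul_sum]
    refine Finset.sum_congr rfl fun l _ => ?_
    ring
  have hFS : ∀ z ∈ S, (fun j => eval (vv bb U z) (Φ j)) = f z := fun z hz => funext (hΦ z hz)
  have hSPB : S ⊆ PB δ := hrS
  have hdom : IsDomain (Hol S) := hol_domain hSc ⟨z0, hz0S⟩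
  obtain ⟨W, hW1, hW2, hW3, hW4⟩ := emb_local hSo hSc ⟨z0, hz0S⟩ bb (fun i => i.2.1.mono hSPB) dd
    (fun i z hz => (i.2.1 z (hSPB hz)).differentiableAt.hasDerivAt) AA U
    (fun z hz i j => by
      have := hU z hz i j
      rw [Matrix.mul_apply] at this
      exact this) hdet (coefAlg δ S) (fun i => ⟨i, fun z => rfl⟩) Φ g0 g1 hg0D hg1D
    (by
      by_contra hcon
      push Not at hcon
      have h2 : ∀ z ∈ S, eval (f z) g0 = 0 := fun z hz => by rw [← hFS z hz]; exact hcon z hz
      have h3 : (fun w => eval (f w) g0) =ᶠ[𝓝 z0] 0 := by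
        filter_upwards [hSo.mem_nhds hz0S] with z hz
        exact h2 z hz
      have h4 := (hg0an.mono hδ1).eqOn_zero_of_preconnected_of_eventuallyEq_zero
        (PB_preconn hδpos) hz0 h3
      exact h0 (ev_iff.mpr ⟨δ, hδpos, fun w hw => h4 hw⟩))
    (by
      intro m cc hcc
      choose bk hbk using fun k => (cc k).2
      have h2 : ∀ z ∈ S, ∑ k ∈ Finset.range (m + 1),
          (bk k).1 z * eval (f z) g1 ^ k * eval (f z) g0 ^ (m - k) = 0 := by
        intro z hz
        refine (Finset.sum_congr rfl fun k _ => ?_).trans (hcc ⟨z, hz⟩)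
        rw [hbk k ⟨z, hz⟩, hFS z hz]
      have h3 : AnalyticOnNhd ℂ (fun z => ∑ k ∈ Finset.range (m + 1),
          (bk k).1 z * eval (f z) g1 ^ k * eval (f z) g0 ^ (m - k)) (PB δ) := by
        intro z hz
        apply Finset.analyticAt_fun_sum
        intro k _
        exact (((bk k).2.1 z hz).fun_mul ((hg1an z (hδ1 hz)).fun_pow k)).fun_mul
          ((hg0an z (hδ1 hz)).fun_pow _)
      have h4 := h3.eqOn_zero_of_preconnected_of_eventuallyEq_zero (PB_preconn hδpos) hz0 (by
        filter_upwards [hSo.mem_nhds hz0S] with z hz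
        exact h2 z hz)
      have h5 : ∀ k ≤ m, ¬ Nz (bk k).1 := by
        intro k hk hnz
        apply h1
        exact mrel_of_alg (on_pun one_pos hg1an) (on_pun one_pos hg0an) h0 m
          (fun k => (bk k).1) (fun k => (bk k).2.2) ⟨k, hk, hnz⟩
          (ev_iff.mpr ⟨δ, hδpos, fun w hw => h4 hw⟩)
      intro k hk
      have h6 : ∀ᶠ w in 𝓝[≠] (0 : ℂ), (bk k).1 w = 0 := not_not.mp (h5 k hk)
      have h7 := eq_zero_on hδpos (bk k).2.1 h6
      apply Subtype.ext
      apply hol_ext
      intro z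
      rw [hbk k z, h7 z (hSPB z.2)]
      rfl)
    Q hQe iq (fun z hz => by rw [hFS z hz]; exact hQ z (hδ1 (hSPB hz)))
    (fun z hz => by
      rw [hFS z hz]
      have h2 := (hall z (hδ0' (hSPB hz))).2.1
      refine h2.congr_of_eventuallyEq ?_
      filter_upwards [hSo.mem_nhds hz] with x hx
      rw [hFS x hx])
  obtain ⟨M, i1, i2, m, hm, W', h2, h3, h4⟩ := desc W g0 g1 Q hW3 hW4
  refine ⟨M, i1, i2, m, hm, W', fun G hG => ?_, h3, h4⟩
  rw [h2 G]
  constructor
  · intro h
    apply hW1 G hG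
    intro z hz
    rw [hFS z hz]
    exact h z (hδ1 (hSPB hz))
  · intro h
    -- the value at `1`
    have h5 : ∀ z ∈ S, eval (f z) G = 0 := by
      intro z hz
      have h6 := evp_aeval (⟨z, hz⟩ : S) 1 W G
      rw [h, map_zero] at h6
      rw [h6]
      congr 1
      congr 1
      funext j
      rw [evp_one, hW2 j ⟨z, hz⟩, hΦ z hz]
    have h7 := (eval_an' hf G).eqOn_zero_of_preconnected_of_eventuallyEq_zero
      (PB_preconn one_pos) (hδ1 hz0) (by
        filter_upwards [hSo.mem_nhds hz0S] with z hz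
        exact h5 z hz)
    exact fun z hz => h7 hz

end Pool.Agent.TH143.GT
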