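import Pool.Agent.W240.PG.Frame
import Pool.Agent.W762.PG.PRES
import Pool.Agent.W419.PG.DIVR
import Pool.Agent.W602.GT.SConst

/-!
Pull-back of multilinear forms with logarithmic poles along an arbitrary extension of function
fields.
-/

set_option autoImplicit false

open FF Pool.Agent.W602.GT Pool.Agent.W603.LV

namespace Pool.Agent.TH143.GT

variable {k K L : Type} [Field k] [Field K] [Field L] [Algebra k K] [Algebra k L] [Algebra K L]
  [IsScalarTower k K L]

/-- the value of a finite combination of derivations -/
theorem der_sum {A M : Type} [CommRing A] [Algebra k A] [AddCommGroup M] [Module A M] [Module k M]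
    {R : Type} [CommRing R] [Module R M] [SMulCommClass k R M] [SMulCommClass R A M] {ι : Type}
    (s : Finset ι) (c : ι → R) (D : ι → Derivation k A M) (z : A) :
    (∑ j ∈ s, c j • D j) z = ∑ j ∈ s, c j • D j z := by
  classical
  have h := map_sum (Derivation.coeFnAddMonoidHom (R := k) (A := A) (M := M))
    (fun j => c j • D j) s
  have h2 := congrFun h z
  rw [Finset.sum_apply] at h2
  exact h2

/-- the dual derivations of a transcendence basis -/
def Dual {w : ℕ} (y : Fin w → K) (E : Fin w → Derivation k K K) : Prop :=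
  IsTranscendenceBasis k y ∧ ∀ i j, E i (y j) = if i = j then 1 else 0

/-- chain rule -/
theorem Dual.chain [CharZero k] {w : ℕ} {y : Fin w → K} {E : Fin w → Derivation k K K}
    (h : Dual y E) (D : Derivation k L L) (f : K) :
    D (algebraMap K L f) = ∑ j, D (algebraMap K L (y j)) * algebraMap K L (E j f) := by
  have h1 := Pool.Agent.W619.TW.der_zero ((D.compAlgebraMap K) -
    ∑ j, D (algebraMap K L (y j)) • (Algebra.linearMap K L).compDer (E j)) y h.1 (fun i => by
      rw [Derivation.sub_apply, der_sum]
      have h0 : ∀ j, ((Algebra.linearMap K L).compDer (E j)) (y i) =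
          algebraMap K L (E j (y i)) := fun j => rfl
      simp only [h0, h.2, smul_eq_mul]
      rw [Finset.sum_eq_single i]
      · rw [if_pos rfl, map_one, mul_one]
        exact sub_self _
      · intro j _ hj
        rw [if_neg hj, map_zero, mul_zero]
      · intro hi
        exact absurd (Finset.mem_univ i) hi) f
  rw [Derivation.sub_apply, der_sum, sub_eq_zero] at h1
  exact h1

/-- the value of the pull-back of the multilinear form `θ`, in the coordinates `y` with dual
derivations `E` -/
noncomputable def pull {p w : ℕ} (θ : MultilinearMap K (fun _ : Fin p => Derivation k K K) K)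
    (y : Fin w → K) (E : Fin w → Derivation k K K) (D : Fin p → Derivation k L L) : L :=
  ∑ J : Fin p → Fin w, (∏ i, D i (algebraMap K L (y (J i)))) *
    algebraMap K L (θ fun i => E (J i))

/-- expansion of a multilinear form in another basis -/
theorem theta_expand {p w : ℕ} (θ : MultilinearMap K (fun _ : Fin p => Derivation k K K) K)
    (E : Fin w → Derivation k K K) (c : Fin p → Fin w → K) :
    (θ fun i => ∑ l, c i l • E l) = ∑ J : Fin p → Fin w, (∏ i, c i (J i)) * θ fun i => E (J i) := by
  classical
  rw [MultilinearMap.map_sum]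
  refine Finset.sum_congr rfl fun J _ => ?_
  rw [MultilinearMap.map_smul_univ, smul_eq_mul]

theorem Dual.expand [CharZero k] {w : ℕ} {y : Fin w → K} {E : Fin w → Derivation k K K}
    (h : Dual y E) (D : Derivation k K K) : D = ∑ l, D (y l) • E l := by
  ext f
  rw [der_sum]
  have := h.chain (L := K) D f
  simpa using this

theorem prod_sum_swap {p w : ℕ} (a : Fin p → Fin w → L) (b : Fin p → Fin w → Fin w → L)
    (g : (Fin p → Fin w) → L) :
    ∑ J : Fin p → Fin w, (∏ i, a i (J i)) * ∑ Q : Fin p → Fin w, (∏ i, b i (J i) (Q i)) * g Q =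
      ∑ Q : Fin p → Fin w, (∏ i, ∑ j, a i j * b i j (Q i)) * g Q := by
  classical
  simp only [Finset.mul_sum]
  rw [Finset.sum_comm]
  refine Finset.sum_congr rfl fun Q _ => ?_
  rw [Finset.prod_univ_sum, Fintype.piFinset_univ, Finset.sum_mul]
  refine Finset.sum_congr rfl fun J _ => ?_
  rw [Finset.prod_mul_distrib]
  ring

/-- the pull-back does not depend on the coordinates -/
theorem pull_indep [CharZero k] {p w : ℕ}
    (θ : MultilinearMap K (fun _ : Fin p => Derivation k K K) K)
    {y y' : Fin w → K} {E E' : Fin w → Derivation k K K} (h : Dual y E) (h' : Dual y' E')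
    (D : Fin p → Derivation k L L) : pull θ y E D = pull θ y' E' D := by
  classical
  unfold pull
  have h1 : ∀ J : Fin p → Fin w, (θ fun i => E (J i)) =
      ∑ Q : Fin p → Fin w, (∏ i, E (J i) (y' (Q i))) * θ fun i => E' (Q i) := by
    intro J
    rw [← theta_expand θ E' (fun i l => E (J i) (y' l))]
    congr 1
    funext i
    exact h'.expand (E (J i))
  simp only [h1, map_sum, map_mul, map_prod]
  rw [prod_sum_swap (fun i j => D i (algebraMap K L (y j)))
    (fun _ j l => algebraMap K L (E j (y' l)))]
  refine Finset.sum_congr rfl fun Q _ => ?_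
  congr 1
  refine Finset.prod_congr rfl fun i _ => ?_
  exact (h.chain (D i) (y' (Q i))).symm

/-- the pull-back is multilinear -/
theorem pull_linear {p w q : ℕ} (θ : MultilinearMap K (fun _ : Fin p => Derivation k K K) K)
    (y : Fin w → K) (E : Fin w → Derivation k K K) (c : Fin p → Fin q → L)
    (Δ : Fin q → Derivation k L L) :
    (pull θ y E fun i => ∑ l, c i l • Δ l) =
      ∑ Q : Fin p → Fin q, (∏ i, c i (Q i)) * pull θ y E fun i => Δ (Q i) := by
  classical
  unfold pull
  simp only [der_sum, smul_eq_mul, Finset.mul_sum]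
  rw [Finset.sum_comm]
  refine Finset.sum_congr rfl fun J _ => ?_
  rw [Finset.prod_univ_sum, Fintype.piFinset_univ, Finset.sum_mul]
  refine Finset.sum_congr rfl fun Q _ => ?_
  rw [Finset.prod_mul_distrib]
  ring

/-- the pull-back on extended derivations -/
theorem pull_ext {p w : ℕ} (θ : MultilinearMap K (fun _ : Fin p => Derivation k K K) K)
    {y : Fin w → K} {E : Fin w → Derivation k K K} (h : Dual y E) (J : Fin p → Fin w)
    (D : Fin p → Derivation k L L)
    (hD : ∀ i j, D i (algebraMap K L (y j)) = algebraMap K L (E (J i) (y j))) :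
    pull θ y E D = algebraMap K L (θ fun i => E (J i)) := by
  classical
  unfold pull
  rw [Finset.sum_eq_single J]
  · have h1 : ∏ i, D i (algebraMap K L (y (J i))) = 1 := by
      refine Finset.prod_eq_one fun i _ => ?_
      rw [hD, h.2, if_pos rfl, map_one]
    rw [h1, one_mul]
  · intro Q _ hQ
    obtain ⟨i, hi⟩ := Function.ne_iff.1 hQ
    have h1 : ∏ i, D i (algebraMap K L (y (Q i))) = 0 := by
      apply Finset.prod_eq_zero (Finset.mem_univ i)
      rw [hD, h.2, if_neg (Ne.symm hi), map_zero]
    rw [h1, zero_mul]
  · intro h1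
    exact absurd (Finset.mem_univ J) h1

theorem reg_iff_mem (P : Place k K) (f : K) : P.Reg f ↔ f ∈ P.O := Iff.rfl

/-- regularity of powers of combinations -/
theorem reg_combo (P : Place k K) {ι : Type} (s : Finset ι) (a g : ι → K) (f : K) {N : ℕ}
    (hN : 0 < N) (ha : ∀ i ∈ s, P.Reg (a i)) (hg : ∀ i ∈ s, P.Reg (f * g i ^ N)) :
    P.Reg (f * (∑ i ∈ s, a i * g i) ^ N) := by
  classical
  by_cases hs : ∀ i ∈ s, g i = 0
  · have h1 : ∑ i ∈ s, a i * g i = 0 := Finset.sum_eq_zero fun i hi => by rw [hs i hi, mul_zero]
    rw [h1, zero_pow hN.ne', mul_zero]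
    exact P.reg_zero
  push Not at hs
  obtain ⟨i1, hi1, hgi1⟩ := hs
  obtain ⟨i0, h0, hmin⟩ := Finset.exists_min_image (s.filter fun i => g i ≠ 0)
    (fun i => P.ord (g i)) ⟨i1, by simp [hi1, hgi1]⟩
  rw [Finset.mem_filter] at h0
  have h2 : ∑ i ∈ s, a i * g i = g i0 * ∑ i ∈ s, a i * (g i / g i0) := by
    rw [Finset.mul_sum]
    refine Finset.sum_congr rfl fun i _ => ?_
    field_simp [h0.2]
  have h3 : ∑ i ∈ s, a i * (g i / g i0) ∈ P.O := by
    refine sum_mem fun i hi => mul_mem (ha i hi) ?_
    by_cases hgi : g i = 0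
    · rw [hgi, zero_div]
      exact zero_mem _
    · right
      rw [P.ord_div hgi h0.2]
      have := hmin i (Finset.mem_filter.2 ⟨hi, hgi⟩)
      linarith
  rw [h2, mul_pow, ← mul_assoc]
  exact mul_mem (hg i0 h0.1) (pow_mem h3 N)

/-- `K` is finite over the field generated by a transcendence basis. -/
theorem fin_adjoin [Algebra.EssFiniteType k K] {w : ℕ} (y : Fin w → K)
    (hy : IsTranscendenceBasis k y) :
    FiniteDimensional (IntermediateField.adjoin k (Set.range y)) K := by
  set K0 := IntermediateField.adjoin k (Set.range y) with hK0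
  have hess : Algebra.EssFiniteType K0 K := Algebra.EssFiniteType.of_comp k K0 K
  have halg1 : Algebra.IsAlgebraic K0 K := hy.isAlgebraic_field
  obtain ⟨s, hs⟩ := IntermediateField.fg_top K0 K
  have h1 : FiniteDimensional K0 (IntermediateField.adjoin K0 (s : Set K)) :=
    IntermediateField.finiteDimensional_adjoin fun x _ =>
      (halg1.isAlgebraic x).isIntegral
  rw [hs] at h1
  exact h1.equiv IntermediateField.topEquiv.toLinearEquiv

/-- **Pull-back of forms with logarithmic poles.** -/
theorem local_reg [CharZero k] [Algebra.EssFiniteType k K] {p w n : ℕ}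
    (hw : Algebra.trdeg k K = w) (hn : Algebra.trdeg k L = n)
    (θ : MultilinearMap K (fun _ : Fin p => Derivation k K K) K) {N : ℕ} (hN : 0 < N) (f : K)
    {Bd : Place k K → Prop}
    (hlog : ∀ v : Place k K, Divisorial w v → ∀ D : Fin p → Derivation k K K,
      (∀ i, DerLog v (D i)) → v.Reg (f * θ D ^ N))
    (hreg : ∀ v : Place k K, Divisorial w v → ¬ Bd v → ∀ D : Fin p → Derivation k K K,
      (∀ i, DerReg v (D i)) → v.Reg (f * θ D ^ N))
    {y : Fin w → K} {E : Fin w → Derivation k K K} (h : Dual y E)
    (P : Place k L) (hP : Divisorial n P) (D : Fin p → Derivation k L L) :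
    ((∀ i, DerLog P (D i)) → P.Reg (algebraMap K L f * pull θ y E D ^ N)) ∧
    ((∀ i, DerReg P (D i)) → (∀ v e, Over P v e → ¬ Bd v) →
      P.Reg (algebraMap K L f * pull θ y E D ^ N)) := by
  classical
  by_cases htriv : ∀ g : K, P.ord (algebraMap K L g) = 0
  · have hr : ∀ g : K, P.Reg (algebraMap K L g) := fun g => Or.inr (htriv g).ge
    have key : (∀ i j, P.Reg (D i (algebraMap K L (y j)))) →
        P.Reg (algebraMap K L f * pull θ y E D ^ N) := by
      intro h1
      change _ ∈ P.O
      refine mul_mem (hr f) (pow_mem ?_ N)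
      exact sum_mem fun J _ => mul_mem (prod_mem fun i _ => h1 i (J i)) (hr _)
    refine ⟨fun hD => key fun i j => ?_, fun hD _ => key fun i j => hD i _ (hr _)⟩
    by_cases hy0 : algebraMap K L (y j) = 0
    · rw [hy0, map_zero]
      exact P.reg_zero
    have h2 := P.reg_mul (hD i (algebraMap K L (y j))) (hr (y j))
    rwa [div_mul_cancel₀ _ hy0] at h2
  push Not at htriv
  obtain ⟨e, v, hov⟩ := exists_over (K := K) P htriv
  have hv : Divisorial w v := Pool.Agent.W419.PG.main k K L w n v P e hw hn hov hP
  obtain ⟨y', E', i0, hb', hE', hi0, hy'r, hpres⟩ := Pool.Agent.W240.PG.Frame.main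
    Pool.Agent.W762.PG.main k K w hw (fun y hy => fin_adjoin y hy) v hv
  have h' : Dual y' E' := ⟨hb', hE'⟩
  rw [pull_indep θ h h' D]
  have hr' : ∀ j, P.Reg (algebraMap K L (y' j)) := fun j => hov.reg.2 (hy'r j)
  refine ⟨fun hD => ?_, fun hD hB => ?_⟩
  · -- logarithmic vector fields
    have hy0 : y' i0 ≠ 0 := by
      intro h0
      rw [h0, v.ord_zero] at hi0
      omega
    let s : Fin w → K := fun j => if j = i0 then y' i0 else 1
    have hs : ∀ j, s j ≠ 0 := by
      intro j
      simp only [s]
      split_ifs
      · exact hy0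
      · exact one_ne_zero
    have hsL : ∀ j, algebraMap K L (s j) ≠ 0 := fun j => by simpa using hs j
    let E'' : Fin w → Derivation k K K := fun j => s j • E' j
    have hE'' : ∀ j, DerLog v (E'' j) := by
      intro j
      have hp1 : DerReg v (E'' j) := by
        intro g hg
        change v.Reg (s j * E' j g)
        refine v.reg_mul ?_ (hpres j g hg)
        simp only [s]
        split_ifs
        · exact Or.inr (by rw [hi0]; norm_num)
        · exact v.reg_one
      refine pl_log hp1 hi0 ?_
      change v.Reg (s j * E' j (y' i0) / y' i0)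
      rw [hE']
      by_cases hj : j = i0
      · rw [if_pos hj, mul_one]
        simp only [s, if_pos hj]
        rw [div_self hy0]
        exact v.reg_one
      · rw [if_neg hj, mul_zero, zero_div]
        exact v.reg_zero
    have hexp : pull θ y' E' D = ∑ J : Fin p → Fin w,
        (∏ i, D i (algebraMap K L (y' (J i))) / algebraMap K L (s (J i))) *
          algebraMap K L (θ fun i => E'' (J i)) := by
      unfold pull
      refine Finset.sum_congr rfl fun J _ => ?_
      have h1 : (θ fun i => E'' (J i)) = (∏ i, s (J i)) * θ fun i => E' (J i) := by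
        have := MultilinearMap.map_smul_univ θ (fun i => s (J i)) (fun i => E' (J i))
        rw [smul_eq_mul] at this
        exact this
      rw [h1, map_mul, map_prod, ← mul_assoc, ← Finset.prod_mul_distrib]
      congr 1
      refine Finset.prod_congr rfl fun i _ => ?_
      rw [div_mul_cancel₀ _ (hsL _)]
    rw [hexp]
    refine reg_combo P _ _ _ _ hN (fun J _ => ?_) fun J _ => ?_
    · change _ ∈ P.O
      refine prod_mem fun i _ => ?_
      change P.Reg _
      simp only [s]
      by_cases hj : J i = i0
      · rw [if_pos hj, hj]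
        exact hD i _
      · rw [if_neg hj, map_one, div_one]
        by_cases hz : algebraMap K L (y' (J i)) = 0
        · rw [hz, map_zero]
          exact P.reg_zero
        have h2 := P.reg_mul (hD i (algebraMap K L (y' (J i)))) (hr' (J i))
        rwa [div_mul_cancel₀ _ hz] at h2
    · rw [← map_pow, ← map_mul]
      exact hov.reg.2 (hlog v hv _ fun i => hE'' _)
  · refine reg_combo P _ _ _ _ hN (fun J _ => ?_) fun J _ => ?_
    · change _ ∈ P.O
      exact prod_mem fun i _ => hD i _ (hr' _)
    · rw [← map_pow, ← map_mul]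
      exact hov.reg.2 (hreg v hv (hB v e hov) _ fun i => hpres _)

end Pool.Agent.TH143.GT
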