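import Pool.Agent.TH143.GT.Glob
import Pool.Agent.TH143.GT.Ratl
import Pool.Agent.TH143.GT.Close
import Pool.Agent.TH143.GT.Sec

/-!
Forms with logarithmic poles and curves given by linear differential equations.
-/

set_option autoImplicit false

namespace Pool.Agent.TH143.GT

open MvPolynomial Metric Set Filter Topology FF Pool.Agent.W602.GT Pool.Agent.TH143
  Pool.Agent.W603.BP

variable {N : ℕ} {K : Type} [Field K] [Algebra ℂ K]

/-- `K` is the function field and `y` the generic point of the Zariski closure of the curve `f`. -/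
structure GenPt (f : ℂ → Fin (N + 1) → ℂ) (S : Set ℂ) (K : Type) [Field K] [Algebra ℂ K] (w : ℕ)
    (y : Fin (N + 1) → K) : Prop where
  ne : y ≠ 0
  gen : coords ℂ y = ⊤
  dim : Algebra.trdeg ℂ K = w
  rel : ∀ G : MvPolynomial (Fin (N + 1)) ℂ, IsForm G →
    (W602.GT.val y G = 0 ↔ ∀ z ∈ S, eval (f z) G = 0)

/-- The rational function `r` is constant along all families of rational curves. -/
def AllFlat (Q : MvPolynomial (Fin (N + 1)) ℂ) (y : Fin (N + 1) → K) (r : K) : Prop :=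
  ∀ (M : Type) [Field M] [Algebra ℂ M] (m : ℕ) (W : Fin (N + 1) → Polynomial M) (l : ℕ),
    Algebra.trdeg ℂ M = m → Fam y Q W l → Flat ℂ y W r

variable {w : ℕ} {y : Fin (N + 1) → K} {Q : MvPolynomial (Fin (N + 1)) ℂ} {q : ℕ}
  {f : ℂ → Fin (N + 1) → ℂ}

theorem val_X (y : Fin (N + 1) → K) (j : Fin (N + 1)) :
    W602.GT.val y (X j : MvPolynomial (Fin (N + 1)) ℂ) = y j := by
  unfold W602.GT.val
  rw [aeval_X]

theorem GenPt.nz (hy : GenPt f (PB 1) K w y) (hf : ∀ j, AnalyticOnNhd ℂ (fun w => f w j) (PB 1))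
    {G : MvPolynomial (Fin (N + 1)) ℂ} (hG : IsForm G) (h : W602.GT.val y G ≠ 0) :
    Nz (fun w => eval (f w) G) := by
  intro h0
  apply h
  rw [hy.rel G hG]
  intro z hz
  exact eq_zero_on one_pos (eval_an' hf G) h0 z hz

/-- functions which are constant along all families of rational curves are meromorphic -/
theorem mrel_of_flat (hy : GenPt f (PB 1) K w y)
    (hf : ∀ j, AnalyticOnNhd ℂ (fun w => f w j) (PB 1)) (hlin : LinSys f)
    (hQe : Q.IsHomogeneous q) (hQ : ∀ w ∈ PB 1, eval (f w) Q ≠ 0)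
    {D : ℕ} {g0 g1 : MvPolynomial (Fin (N + 1)) ℂ} (hg0 : g0.IsHomogeneous D)
    (hg1 : g1.IsHomogeneous D) (hn : W602.GT.val y g0 ≠ 0)
    (h : AllFlat Q y (W602.GT.val y g1 / W602.GT.val y g0)) :
    MRel (fun w => eval (f w) g1) (fun w => eval (f w) g0) := by
  by_contra hcon
  obtain ⟨M, i1, i2, m, hm, W, h1, ⟨c, l, hc, hcQ⟩, h3⟩ := fam_global f hf hlin Q hQe hQ g0 g1
    hg0 hg1 (hy.nz hf ⟨D, hg0⟩ hn) hcon
  exact h3 (h M m W l hm ⟨fun G hG => (hy.rel G hG).trans (h1 G hG), c, hc, hcQ⟩ D g1 g0 hg1 hg0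
    hn rfl)

/-- a curve with an essential singularity gives a family of rational curves -/
theorem fam_of_ess (hy : GenPt f (PB 1) K w y)
    (hf : ∀ j, AnalyticOnNhd ℂ (fun w => f w j) (PB 1)) (hne : ∀ w ∈ PB 1, f w ≠ 0)
    (hlin : LinSys f) (hQe : Q.IsHomogeneous q) (hQ : ∀ w ∈ PB 1, eval (f w) Q ≠ 0)
    (hext : ¬ Extends f) : ∃ r : K, ¬ AllFlat Q y r := by
  obtain ⟨j, k, hj, hk, hjk⟩ : ∃ j k, Nz (fun w => f w j) ∧ Nz (fun w => f w k) ∧
      ¬ MRel (fun w => f w j) (fun w => f w k) := by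
    by_contra hcon
    push Not at hcon
    exact hext (extends_of f hf hne fun j k hj hk => hcon j k hj hk)
  refine ⟨y j / y k, fun h => hjk ?_⟩
  have hyk : y k ≠ 0 := by
    intro h0
    apply hk
    have h1 := (hy.rel (X k) ⟨1, isHomogeneous_X _ _⟩).1 (by rw [val_X]; exact h0)
    refine ev_iff.2 ⟨1, one_pos, fun z hz => ?_⟩
    have := h1 z hz
    rwa [eval_X] at this
  have h2 := mrel_of_flat hy hf hlin hQe hQ (isHomogeneous_X ℂ k) (isHomogeneous_X ℂ j)
    (by rw [val_X]; exact hyk) (by rw [val_X, val_X]; exact h)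
  simpa using h2

theorem allFlat_bog (hy : GenPt f (PB 1) K w y) (hQe : Q.IsHomogeneous q) {p : ℕ}
    (θ : AlternatingMap K (Derivation ℂ K K) K (Fin p)) (hθ : θ ≠ 0) {n : ℕ} (hn : 0 < n)
    {J : Type} (g : J → K)
    (hlog : ∀ v : Place ℂ K, Divisorial w v → ∀ D : Fin p → Derivation ℂ K K,
      (∀ i, DerLog v (D i)) → ∀ j, v.Reg (g j * θ D ^ n))
    (hreg : ∀ v : Place ℂ K, Divisorial w v → ¬ Pool.Agent.W603.GR.OffQ Q q y v →
      ∀ D : Fin p → Derivation ℂ K K, (∀ i, DerReg v (D i)) → ∀ j, v.Reg (g j * θ D ^ n))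
    (j0 j1 : J) : AllFlat Q y (g j1 / g j0) := by
  intro M _ _ m W l hm hF
  refine (hF.main hy.dim hm hy.ne hy.gen hQe).1 p
    (θ : MultilinearMap K (fun _ : Fin p => Derivation ℂ K K) K) ?_ n hn J g hlog hreg j0 j1
  intro h0
  apply hθ
  ext D
  exact congrFun (congrArg DFunLike.coe h0) D

theorem allFlat_sec (hy : GenPt f (PB 1) K w y) (hQe : Q.IsHomogeneous q) {n : ℕ} (hn : 0 < n)
    {ω0 ω1 : (Fin w → Derivation ℂ K K) → K}
    (h0 : LogSec ℂ K w n (Pool.Agent.W603.GR.OffQ Q q y) ω0)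
    (h1 : LogSec ℂ K w n (Pool.Agent.W603.GR.OffQ Q q y) ω1) (D : Fin w → Derivation ℂ K K) :
    AllFlat Q y (ω1 D / ω0 D) := by
  intro M _ _ m W l hm hF
  exact (hF.main hy.dim hm hy.ne hy.gen hQe).2.1 n hn ω0 ω1 h0 h1 D

theorem allFlat_gt (hy : GenPt f (PB 1) K w y) (hQe : Q.IsHomogeneous q)
    (h : LogGeneralType ℂ K w (Pool.Agent.W603.GR.OffQ Q q y)) (r : K) : AllFlat Q y r := by
  intro M _ _ m W l hm hF
  exact (hF.main hy.dim hm hy.ne hy.gen hQe).2.2.1 h r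

/-- **Vanishing.** In the projective case all pluricanonical forms vanish. -/
theorem sec_zero (hy : GenPt f (PB 1) K w y) {r : K} (hr : ¬ AllFlat 1 y r) {n : ℕ} (hn : 0 < n)
    {ω : (Fin w → Derivation ℂ K K) → K}
    (hω : LogSec ℂ K w n (Pool.Agent.W603.GR.OffQ 1 0 y) ω) (D : Fin w → Derivation ℂ K K) :
    ω D = 0 := by
  unfold AllFlat at hr
  push Not at hr
  obtain ⟨M, _, _, m, W, l, hm, hF, hr⟩ := hr
  have hl : l = 0 := by
    obtain ⟨c, hc, h1⟩ := hF.bd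
    rw [map_one] at h1
    have h2 := congrArg Polynomial.natDegree h1
    rw [Polynomial.natDegree_one, Polynomial.natDegree_C_mul_X_pow l c hc] at h2
    exact h2.symm
  exact (hF.main hy.dim hm hy.ne hy.gen (isHomogeneous_one _ _)).2.2.2 hl ⟨r, hr⟩ n hn ω hω D

end Pool.Agent.TH143.GT
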